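import Pool.Agent.Work.MP_2738db_S.Defs

set_option autoImplicit false

/-! # Block QDC: decomposition in the square case -/

namespace Pool.FCS

theorem QDC_pow {A B C m : ℕ} (h : Nat.Coprime A B) (he : A * B = C ^ m) :
    ∃ d, A = d ^ m := by
  refine exists_eq_pow_of_mul_eq_pow (b := B) (c := C) ?_ he
  have h1 : GCDMonoid.gcd A B = 1 := h
  rw [h1]
  exact isUnit_one

theorem QDC_pow2 {A B C m : ℕ} (h : Nat.Coprime A B) (he : A * B = C ^ m) :
    ∃ u v, A = u ^ m ∧ B = v ^ m := by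
  obtain ⟨u, hu⟩ := QDC_pow h he
  obtain ⟨v, hv⟩ := QDC_pow (A := B) (B := A) h.symm (by rw [mul_comm]; exact he)
  exact ⟨u, v, hu, hv⟩

/-- the purely natural number part -/
theorem QDC_nat {m X₁ X₂ a : ℕ} (hm : 3 ≤ m) (h1 : 1 ≤ X₁) (he : X₁ * X₂ = a ^ m)
    (hg : Nat.gcd X₁ X₂ ∣ 2) :
    ∃ e₁ e₂ u v : ℕ, E2 m e₁ e₂ ∧ (Odd a → e₁ = 1 ∧ e₂ = 1) ∧ X₁ = e₁ * u ^ m ∧
      X₂ = e₂ * v ^ m := by
  rcases (Nat.dvd_prime Nat.prime_two).1 hg with hg1 | hg2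
  · obtain ⟨u, v, hu, hv⟩ := QDC_pow2 hg1 he
    exact ⟨1, 1, u, v, Or.inl ⟨rfl, rfl⟩, fun _ => ⟨rfl, rfl⟩, by rw [one_mul]; exact hu,
      by rw [one_mul]; exact hv⟩
  · have hcop := Nat.coprime_div_gcd_div_gcd (m := X₁) (n := X₂) (by rw [hg2]; norm_num)
    rw [hg2] at hcop
    obtain ⟨Y₁, hY₁⟩ : 2 ∣ X₁ := hg2 ▸ Nat.gcd_dvd_left X₁ X₂
    obtain ⟨Y₂, hY₂⟩ : 2 ∣ X₂ := hg2 ▸ Nat.gcd_dvd_right X₁ X₂
    have hc : Nat.Coprime Y₁ Y₂ := by
      have h2 : X₁ / 2 = Y₁ := by omega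
      have h3 : X₂ / 2 = Y₂ := by omega
      rw [h2, h3] at hcop
      exact hcop
    have h2a : 2 ∣ a := by
      apply Nat.prime_two.dvd_of_dvd_pow (n := m)
      rw [← he]
      exact Dvd.dvd.mul_right ⟨Y₁, hY₁⟩ X₂
    obtain ⟨a', ha'⟩ := h2a
    have hodd : ¬ Odd a := by
      rw [Nat.not_odd_iff_even, ha']
      exact even_two_mul a'
    obtain ⟨j, rfl⟩ : ∃ j, m = j + 2 := ⟨m - 2, by omega⟩
    have hj : 1 ≤ j := by omega
    have hprod : Y₁ * Y₂ = 2 ^ j * a' ^ (j + 2) := by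
      have h4 : 4 * (Y₁ * Y₂) = 4 * (2 ^ j * a' ^ (j + 2)) := by
        calc 4 * (Y₁ * Y₂) = X₁ * X₂ := by rw [hY₁, hY₂]; ring
          _ = (2 * a') ^ (j + 2) := by rw [he, ha']
          _ = 4 * (2 ^ j * a' ^ (j + 2)) := by rw [mul_pow, pow_add]; ring
      exact Nat.eq_of_mul_eq_mul_left (by norm_num) h4
    have h2p : 0 < 2 ^ j := by positivity
    have hsub : j + 2 - 1 = j + 1 := by omega
    rcases Nat.even_or_odd Y₁ with hev | hod
    · -- `Y₂` is odd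
      have hY2 : Nat.Coprime (2 ^ j) Y₂ :=
        Nat.Coprime.pow_left j (Nat.Coprime.coprime_dvd_left hev.two_dvd hc)
      obtain ⟨w, hw⟩ : 2 ^ j ∣ Y₁ := by
        apply Nat.Coprime.dvd_of_dvd_mul_right hY2
        rw [hprod]
        exact dvd_mul_right _ _
      have hw2 : w * Y₂ = a' ^ (j + 2) := by
        apply Nat.eq_of_mul_eq_mul_left h2p
        rw [← hprod, hw]
        ring
      have hwc : Nat.Coprime w Y₂ := Nat.Coprime.coprime_dvd_left (hw ▸ dvd_mul_left _ _) hc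
      obtain ⟨u, v, hu, hv⟩ := QDC_pow2 hwc hw2
      refine ⟨2 ^ (j + 2 - 1), 2, u, v, Or.inr (Or.inr ⟨rfl, rfl⟩), fun h => absurd h hodd, ?_, ?_⟩
      · rw [hY₁, hw, hu, hsub, pow_succ]
        ring
      · rw [hY₂, hv]
    · have hY1 : Nat.Coprime (2 ^ j) Y₁ := Nat.Coprime.pow_left j (Nat.coprime_two_left.2 hod)
      obtain ⟨w, hw⟩ : 2 ^ j ∣ Y₂ := by
        apply Nat.Coprime.dvd_of_dvd_mul_left hY1
        rw [hprod]
        exact dvd_mul_right _ _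
      have hw2 : Y₁ * w = a' ^ (j + 2) := by
        apply Nat.eq_of_mul_eq_mul_left h2p
        rw [← hprod, hw]
        ring
      have hwc : Nat.Coprime Y₁ w := Nat.Coprime.coprime_dvd_right (hw ▸ dvd_mul_left _ _) hc
      obtain ⟨u, v, hu, hv⟩ := QDC_pow2 hwc hw2
      refine ⟨2, 2 ^ (j + 2 - 1), u, v, Or.inr (Or.inl ⟨rfl, rfl⟩), fun h => absurd h hodd, ?_, ?_⟩
      · rw [hY₁, hu]
      · rw [hY₂, hw, hv, hsub, pow_succ]
        ring

theorem p_QDC : S_QDC := by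
  intro m c k y t a b hm hc hk hy hs
  have hck : 0 < c ^ k := by positivity
  have hy1 : 1 ≤ y := by
    rcases Nat.eq_zero_or_pos y with h | h
    · rw [h] at hy
      norm_num at hy
      omega
    · exact h
  have hyZ : ((y : ℤ)) ^ 2 = (c : ℤ) ^ k := by exact_mod_cast hy
  have heq : t * (a : ℤ) ^ m = ((b : ℤ) - y) * ((b : ℤ) + y) := by
    rw [hs.eq, ← hyZ]
    ring
  have ht2 : t * t = 1 := by
    rcases hs.ht with h | h <;> rw [h] <;> norm_num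
  have haZ : (0 : ℤ) < (a : ℤ) ^ m := by
    have := hs.ha
    positivity
  have hb := hs.hb
  have hby : (0 : ℤ) < (b : ℤ) + y := by omega
  -- the sign
  obtain ⟨X₁, hX₁⟩ : ∃ X₁ : ℕ, t * ((b : ℤ) - y) = X₁ := by
    have h1 : 0 ≤ t * ((b : ℤ) - y) := by
      by_contra h2
      push Not at h2
      have h3 : t * ((b : ℤ) - y) * ((b : ℤ) + y) < 0 := mul_neg_of_neg_of_pos h2 hby
      have h4 : t * ((b : ℤ) - y) * ((b : ℤ) + y) = (a : ℤ) ^ m := by
        calc t * ((b : ℤ) - y) * ((b : ℤ) + y) = t * (((b : ℤ) - y) * ((b : ℤ) + y)) := by ring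
          _ = t * (t * (a : ℤ) ^ m) := by rw [heq]
          _ = (t * t) * (a : ℤ) ^ m := by ring
          _ = (a : ℤ) ^ m := by rw [ht2, one_mul]
      omega
    exact ⟨(t * ((b : ℤ) - y)).toNat, (Int.toNat_of_nonneg h1).symm⟩
  have hX1b : (b : ℤ) - y = t * X₁ := by
    rw [← hX₁, ← mul_assoc, ht2, one_mul]
  have hprodZ : (X₁ : ℤ) * ((b + y : ℕ) : ℤ) = (a : ℤ) ^ m := by
    push_cast
    calc (X₁ : ℤ) * ((b : ℤ) + y) = t * (((b : ℤ) - y) * ((b : ℤ) + y)) := by rw [← hX₁]; ring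
      _ = t * (t * (a : ℤ) ^ m) := by rw [heq]
      _ = (t * t) * (a : ℤ) ^ m := by ring
      _ = (a : ℤ) ^ m := by rw [ht2, one_mul]
  have hprod : X₁ * (b + y) = a ^ m := by exact_mod_cast hprodZ
  have hX11 : 1 ≤ X₁ := by
    rcases Nat.eq_zero_or_pos X₁ with h | h
    · exfalso
      rw [h, zero_mul] at hprod
      have := hs.ha
      have h5 : 0 < a ^ m := by positivity
      omega
    · exact h
  -- the gcd
  have hg : Nat.gcd X₁ (b + y) ∣ 2 := by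
    have h1 : (Nat.gcd X₁ (b + y) : ℤ) ∣ (X₁ : ℤ) := by exact_mod_cast Nat.gcd_dvd_left X₁ (b + y)
    have h2 : (Nat.gcd X₁ (b + y) : ℤ) ∣ ((b + y : ℕ) : ℤ) := by
      exact_mod_cast Nat.gcd_dvd_right X₁ (b + y)
    have h3 : (Nat.gcd X₁ (b + y) : ℤ) ∣ ((2 * b : ℕ) : ℤ) := by
      have h4 : ((2 * b : ℕ) : ℤ) = t * X₁ + ((b + y : ℕ) : ℤ) := by
        rw [← hX1b]
        push_cast
        ring
      rw [h4]
      exact dvd_add (dvd_mul_of_dvd_right h1 t) h2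
    have h5 : Nat.gcd X₁ (b + y) ∣ 2 * b := by exact_mod_cast h3
    have h6 : Nat.gcd X₁ (b + y) ∣ a ^ m := by
      rw [← hprod]
      exact dvd_mul_of_dvd_left (Nat.gcd_dvd_left _ _) _
    have h7 : Nat.Coprime (Nat.gcd X₁ (b + y)) b :=
      Nat.Coprime.coprime_dvd_left h6 (Nat.Coprime.pow_left m hs.hab)
    exact Nat.Coprime.dvd_of_dvd_mul_right h7 h5
  obtain ⟨e₁, e₂, u, v, hE, hodd, hu, hv⟩ := QDC_nat hm hX11 hprod hg
  have hm0 : m ≠ 0 := by omega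
  have hu1 : 1 ≤ u := by
    rcases Nat.eq_zero_or_pos u with h | h
    · exfalso
      rw [h, zero_pow hm0, mul_zero] at hu
      omega
    · exact h
  have hv1 : 1 ≤ v := by
    rcases Nat.eq_zero_or_pos v with h | h
    · exfalso
      rw [h, zero_pow hm0, mul_zero] at hv
      omega
    · exact h
  have hamc : Nat.Coprime (a ^ m) c := Nat.Coprime.pow_left m hs.hac
  refine ⟨e₁, e₂, u, v, hE, ?_, hu1, hv1, ?_, ?_, ?_, ?_⟩
  · intro hce
    apply hodd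
    by_contra hao
    rw [Nat.not_odd_iff_even] at hao
    have h8 : 2 ∣ Nat.gcd a c := Nat.dvd_gcd hao.two_dvd hce.two_dvd
    rw [hs.hac] at h8
    omega
  · refine Nat.Coprime.coprime_dvd_left ?_ hamc
    rw [← hprod, hu]
    exact dvd_mul_of_dvd_left (dvd_mul_of_dvd_right (dvd_pow_self u hm0) _) _
  · refine Nat.Coprime.coprime_dvd_left ?_ hamc
    rw [← hprod, hv]
    exact dvd_mul_of_dvd_right (dvd_mul_of_dvd_right (dvd_pow_self v hm0) _) _
  · rw [hX1b, hu]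
    push_cast
    ring
  · have h9 : ((b + y : ℕ) : ℤ) = ((e₂ * v ^ m : ℕ) : ℤ) := by rw [hv]
    push_cast at h9
    exact h9

end Pool.FCS
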