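import Pool.Agent.Work.MP_2738db_S.Defs

set_option autoImplicit false

/-! # MP_2738db_nt, THEOREM S, block QSZ -/

namespace Pool.FCS

open NumberField

/-- Bernoulli -/
theorem QSZ_bern (B D : ℤ) (hB : 0 ≤ B) (hD : 0 ≤ D) (n : ℕ) :
    B ^ (n + 1) + (n + 1 : ℕ) * D * B ^ n ≤ (B + D) ^ (n + 1) := by
  induction n with
  | zero => simp
  | succ n ih =>
    have h1 : (B ^ (n + 1) + (n + 1 : ℕ) * D * B ^ n) * (B + D) ≤ (B + D) ^ (n + 1) * (B + D) :=
      mul_le_mul_of_nonneg_right ih (by linarith)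
    have h2 : 0 ≤ ((n + 1 : ℕ) : ℤ) * D * B ^ n * D := by positivity
    have h3 : (B + D) ^ (n + 1 + 1) = (B + D) ^ (n + 1) * (B + D) := pow_succ _ _
    rw [h3]
    refine le_trans ?_ h1
    have h4 : (B ^ (n + 1) + (n + 1 : ℕ) * D * B ^ n) * (B + D) =
        B ^ (n + 1 + 1) + ((n + 1 + 1 : ℕ) : ℤ) * D * B ^ (n + 1) +
          ((n + 1 : ℕ) : ℤ) * D * B ^ n * D := by
      push_cast
      ring
    rw [h4]
    linarith

/-- `y ^ (j + 1) < a * w ^ (j + 3)` implies `y < a * w ^ 3` -/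
theorem QSZ_root (y a w j : ℕ) (ha : 1 ≤ a) (hw : 1 ≤ w) (h : y ^ (j + 1) < a * w ^ (j + 3)) :
    y < a * w ^ 3 := by
  by_contra hne
  push Not at hne
  have h1 : (a * w ^ 3) ^ (j + 1) ≤ y ^ (j + 1) := Nat.pow_le_pow_left hne _
  have h2 : a * w ^ (j + 3) ≤ (a * w ^ 3) ^ (j + 1) := by
    rw [mul_pow, ← pow_mul]
    refine Nat.mul_le_mul ?_ (Nat.pow_le_pow_right hw (by omega))
    calc a = a ^ 1 := (pow_one a).symm
      _ ≤ a ^ (j + 1) := Nat.pow_le_pow_right ha (by omega)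
  omega

theorem QSZ_ylt (c k y : ℕ) (hc : 2 ≤ c) (h : y ^ 2 = c ^ k) : y < c * c ^ (k / 2) := by
  have h1 : y ^ 2 < (c * c ^ (k / 2)) ^ 2 := by
    rw [h, ← pow_succ', ← pow_mul]
    exact Nat.pow_lt_pow_right (by omega) (by omega)
  exact lt_of_pow_lt_pow_left₀ 2 (Nat.zero_le _) h1

/-- small `b` -/
theorem QSZ_case1 (j c Q y A B : ℕ) (hc : 2 ≤ c) (hyc : y < c * Q)
    (hA : A ^ (j + 3) ≤ 81 * y ^ 2) (hB : B ^ (j + 3) ≤ 81 * y ^ 2)
    (hb : 81 * (c * (j + 3)) ^ 3 ≤ y) :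
    ((j + 3 : ℕ) : ℤ) * |(A : ℤ) - B| < (Q : ℤ) := by
  by_contra hne
  push Not at hne
  have hy1 : 1 ≤ y := by
    have : 0 < 81 * (c * (j + 3)) ^ 3 := by positivity
    omega
  have hG : ∃ G : ℕ, G ^ (j + 3) ≤ 81 * y ^ 2 ∧ |(A : ℤ) - B| ≤ G := by
    rcases le_total A B with h | h
    · refine ⟨B, hB, ?_⟩
      rw [abs_of_nonpos (by omega)]
      omega
    · refine ⟨A, hA, ?_⟩
      rw [abs_of_nonneg (by omega)]
      omega
  obtain ⟨G, hG1, hG2⟩ := hG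
  have h1 : (Q : ℤ) ≤ ((j + 3 : ℕ) : ℤ) * G :=
    hne.trans (mul_le_mul_of_nonneg_left hG2 (by positivity))
  have h2 : Q ≤ (j + 3) * G := by exact_mod_cast h1
  have h3 : y < c * (j + 3) * G := by
    calc y < c * Q := hyc
      _ ≤ c * ((j + 3) * G) := Nat.mul_le_mul_left _ h2
      _ = c * (j + 3) * G := by ring
  have h4 : y ^ (j + 3) < (c * (j + 3)) ^ (j + 3) * (81 * y ^ 2) := by
    calc y ^ (j + 3) < (c * (j + 3) * G) ^ (j + 3) := Nat.pow_lt_pow_left h3 (by omega)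
      _ = (c * (j + 3)) ^ (j + 3) * G ^ (j + 3) := mul_pow _ _ _
      _ ≤ _ := Nat.mul_le_mul_left _ hG1
  have h5 : y ^ (j + 1) < 81 * (c * (j + 3)) ^ (j + 3) := by
    have h6 : y ^ (j + 1) * y ^ 2 < 81 * (c * (j + 3)) ^ (j + 3) * y ^ 2 := by
      calc y ^ (j + 1) * y ^ 2 = y ^ (j + 3) := by rw [← pow_add]
        _ < (c * (j + 3)) ^ (j + 3) * (81 * y ^ 2) := h4
        _ = 81 * (c * (j + 3)) ^ (j + 3) * y ^ 2 := by ring
    exact Nat.lt_of_mul_lt_mul_right h6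
  have h7 := QSZ_root y 81 (c * (j + 3)) j (by norm_num) (Nat.mul_pos (by omega) (by omega)) h5
  omega

/-- large `b` -/
theorem QSZ_case2 (j c Q y b b' e₁ e₂ u v u' v' : ℕ) (hc : 2 ≤ c) (hy : 1 ≤ y)
    (hyc : y < c * Q) (he₁ : 1 ≤ e₁) (he₂ : 1 ≤ e₂)
    (h1 : (b : ℤ) - y = e₁ * (u : ℤ) ^ (j + 3)) (h2 : (b : ℤ) + y = e₂ * (v : ℤ) ^ (j + 3))
    (h3 : (b' : ℤ) - y = e₁ * (u' : ℤ) ^ (j + 3)) (h4 : (b' : ℤ) + y = e₂ * (v' : ℤ) ^ (j + 3))
    (hb : 24 * c ^ 3 ≤ b) (h8 : 8 * y ≤ b) (h8' : 8 * y ≤ b') (hbb : b' ≤ 2 * b)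
    (hAB : u * v' < v * u') (hu : 1 ≤ u) (hv' : 1 ≤ v') :
    ((j + 3 : ℕ) : ℤ) * ((v : ℤ) * u' - u * v') < (Q : ℤ) := by
  set A : ℤ := (v : ℤ) * u' with hA
  set B : ℤ := (u : ℤ) * v' with hB
  have hAB' : B < A := by
    rw [hA, hB]
    exact_mod_cast hAB
  have hB1 : 1 ≤ B := by
    rw [hB]
    have : 1 ≤ u * v' := Nat.mul_pos hu hv'
    exact_mod_cast this
  have hyz : (1 : ℤ) ≤ y := by exact_mod_cast hy
  have hbz : 8 * (y : ℤ) ≤ b := by exact_mod_cast h8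
  have hbz' : 8 * (y : ℤ) ≤ b' := by exact_mod_cast h8'
  have hbb2 : (b' : ℤ) ≤ 2 * b := by exact_mod_cast hbb
  have hE1 : (1 : ℤ) ≤ (e₁ : ℤ) * e₂ := by
    have : 1 ≤ e₁ * e₂ := Nat.mul_pos he₁ he₂
    exact_mod_cast this
  have hEA : ((e₁ : ℤ) * e₂) * A ^ (j + 3) = ((b : ℤ) + y) * ((b' : ℤ) - y) := by
    rw [h2, h3, hA, mul_pow]
    ring
  have hEB : ((e₁ : ℤ) * e₂) * B ^ (j + 3) = ((b : ℤ) - y) * ((b' : ℤ) + y) := by
    rw [h1, h4, hB, mul_pow]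
    ring
  have hbern := QSZ_bern B (A - B) (by linarith) (by linarith) (j + 2)
  have hBA : B + (A - B) = A := by ring
  rw [hBA] at hbern
  have h5 : ((e₁ : ℤ) * e₂) * (((j + 3 : ℕ) : ℤ) * (A - B) * B ^ (j + 2)) ≤ 2 * y * (b' - b) := by
    have h6 : ((e₁ : ℤ) * e₂) * (B ^ (j + 2 + 1) + ((j + 2 + 1 : ℕ) : ℤ) * (A - B) * B ^ (j + 2)) ≤
        ((e₁ : ℤ) * e₂) * A ^ (j + 2 + 1) := mul_le_mul_of_nonneg_left hbern (by linarith)
    have h7 : ((e₁ : ℤ) * e₂) * A ^ (j + 2 + 1) = ((b : ℤ) + y) * ((b' : ℤ) - y) := hEA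
    have h9 : ((e₁ : ℤ) * e₂) * B ^ (j + 2 + 1) = ((b : ℤ) - y) * ((b' : ℤ) + y) := hEB
    rw [h7, mul_add, h9] at h6
    have h10 : ((b : ℤ) + y) * ((b' : ℤ) - y) - ((b : ℤ) - y) * ((b' : ℤ) + y) =
        2 * y * (b' - b) := by ring
    linarith
  set D : ℤ := ((j + 3 : ℕ) : ℤ) * (A - B) with hD
  have hD0 : 0 < D := by
    rw [hD]
    exact mul_pos (by positivity) (by linarith)
  have h11 : D * (((b : ℤ) - y) * ((b' : ℤ) + y)) ≤ 2 * y * B * (b' - b) := by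
    rw [← hEB]
    have h12 := mul_le_mul_of_nonneg_right h5 (show (0 : ℤ) ≤ B by linarith)
    calc D * ((e₁ : ℤ) * e₂ * B ^ (j + 3)) = (e₁ : ℤ) * e₂ * (D * B ^ (j + 2)) * B := by ring
      _ ≤ 2 * y * (b' - b) * B := h12
      _ = _ := by ring
  have hb'pos : (0 : ℤ) < b' := by linarith
  have hbpos : (0 : ℤ) < b := by linarith
  have h13 : 7 * (D * b) ≤ 8 * y * B := by
    have h14 : (7 * (D * b)) * b' ≤ (8 * y * B) * b' := by
      calc (7 * (D * b)) * b' = D * ((7 * b) * b') := by ring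
        _ ≤ D * ((8 * ((b : ℤ) - y)) * ((b' : ℤ) + y)) := by
            refine mul_le_mul_of_nonneg_left ?_ hD0.le
            refine mul_le_mul ?_ ?_ hb'pos.le ?_
            · linarith
            · linarith
            · linarith
        _ = 8 * (D * (((b : ℤ) - y) * ((b' : ℤ) + y))) := by ring
        _ ≤ 8 * (2 * y * B * (b' - b)) := by linarith
        _ = (8 * y * B) * (2 * (b' - b)) := by ring
        _ ≤ (8 * y * B) * b' := by
            refine mul_le_mul_of_nonneg_left (by linarith) ?_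
            have : (0 : ℤ) ≤ y * B := mul_nonneg (by linarith) (by linarith)
            linarith
    exact le_of_mul_le_mul_right h14 hb'pos
  by_contra hne
  push Not at hne
  have hcz : (2 : ℤ) ≤ c := by exact_mod_cast hc
  have hQ0 : (0 : ℤ) < Q := by
    have : 0 < Q := by
      rcases Nat.eq_zero_or_pos Q with h | h
      · rw [h] at hyc
        omega
      · exact h
    exact_mod_cast this
  have hycz : (y : ℤ) < c * Q := by exact_mod_cast hyc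
  have h15 : 7 * ((Q : ℤ) * b) < 8 * (c * Q) * B := by
    calc 7 * ((Q : ℤ) * b) ≤ 7 * (D * b) := by
          have := mul_le_mul_of_nonneg_right hne hbpos.le
          linarith
      _ ≤ 8 * y * B := h13
      _ < 8 * (c * Q) * B := by
          refine mul_lt_mul_of_pos_right (by linarith) (by linarith)
  have h16 : 7 * (b : ℤ) < 8 * c * B := by
    have h17 : (7 * (b : ℤ)) * Q < (8 * c * B) * Q := by linarith
    exact lt_of_mul_lt_mul_right h17 hQ0.le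
  have h18 : (b : ℤ) < 2 * c * B := by
    have : (0 : ℤ) ≤ c * B := mul_nonneg (by linarith) (by linarith)
    linarith
  have h19 : b < 2 * c * (u * v') := by
    rw [hB] at h18
    exact_mod_cast h18
  have h20 : (u * v') ^ (j + 3) ≤ 3 * b ^ 2 := by
    have h21 : B ^ (j + 3) ≤ 3 * (b : ℤ) ^ 2 := by
      have h22 : B ^ (j + 3) ≤ ((b : ℤ) - y) * ((b' : ℤ) + y) := by
        rw [← hEB]
        have : (0 : ℤ) ≤ B ^ (j + 3) := by positivity
        exact le_mul_of_one_le_left this hE1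
      have h23 : ((b : ℤ) - y) * ((b' : ℤ) + y) ≤ b * (3 * b) := by
        refine mul_le_mul (by linarith) (by linarith) (by linarith) hbpos.le
      linarith
    rw [hB] at h21
    exact_mod_cast h21
  have h24 : b ^ (j + 3) < (2 * c) ^ (j + 3) * (3 * b ^ 2) := by
    calc b ^ (j + 3) < (2 * c * (u * v')) ^ (j + 3) := Nat.pow_lt_pow_left h19 (by omega)
      _ = (2 * c) ^ (j + 3) * (u * v') ^ (j + 3) := mul_pow _ _ _
      _ ≤ _ := Nat.mul_le_mul_left _ h20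
  have h25 : b ^ (j + 1) < 3 * (2 * c) ^ (j + 3) := by
    have h26 : b ^ (j + 1) * b ^ 2 < 3 * (2 * c) ^ (j + 3) * b ^ 2 := by
      calc b ^ (j + 1) * b ^ 2 = b ^ (j + 3) := by rw [← pow_add]
        _ < (2 * c) ^ (j + 3) * (3 * b ^ 2) := h24
        _ = 3 * (2 * c) ^ (j + 3) * b ^ 2 := by ring
    exact Nat.lt_of_mul_lt_mul_right h26
  have h27 := QSZ_root b 3 (2 * c) j (by norm_num) (by omega) h25
  have h28 : 3 * (2 * c) ^ 3 = 24 * c ^ 3 := by ring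
  omega

theorem QSZ_e (m c y : ℕ) (t : ℤ) (b e₁ e₂ u v : ℕ) (h : Dcp m c y t b e₁ e₂ u v) :
    1 ≤ e₁ ∧ 1 ≤ e₂ := by
  rcases h.e2 with ⟨a, b⟩ | ⟨a, b⟩ | ⟨a, b⟩
  · rw [a, b]
    exact ⟨le_rfl, le_rfl⟩
  · rw [a, b]
    exact ⟨by norm_num, Nat.one_le_two_pow⟩
  · rw [a, b]
    exact ⟨Nat.one_le_two_pow, by norm_num⟩

/-- the bounds in the first case -/
theorem QSZ_small (m c y : ℕ) (t : ℤ) (b e₁ e₂ u v : ℕ) (ht : t = 1 ∨ t = -1)
    (h : Dcp m c y t b e₁ e₂ u v) (hb : b < 8 * y) : u ^ m ≤ 9 * y ∧ v ^ m ≤ 9 * y := by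
  obtain ⟨h1, h2⟩ := QSZ_e m c y t b e₁ e₂ u v h
  have hm := h.minus
  have hp := h.plus
  have hu : (u : ℤ) ^ m ≤ e₁ * (u : ℤ) ^ m := by
    refine le_mul_of_one_le_left (by positivity) (by exact_mod_cast h1)
  have hv : (v : ℤ) ^ m ≤ e₂ * (v : ℤ) ^ m := by
    refine le_mul_of_one_le_left (by positivity) (by exact_mod_cast h2)
  have hb' : (b : ℤ) < 8 * y := by exact_mod_cast hb
  have hb0 : (0 : ℤ) ≤ b := by positivity
  have hy0 : (0 : ℤ) ≤ y := by positivity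
  constructor
  · have : (u : ℤ) ^ m ≤ 9 * y := by
      rcases ht with ht | ht
      · rw [ht] at hm
        have h3 : (e₁ : ℤ) * (u : ℤ) ^ m = b - y := by linarith
        linarith
      · rw [ht] at hm
        have h3 : (e₁ : ℤ) * (u : ℤ) ^ m = y - b := by linarith
        linarith
    exact_mod_cast this
  · have : (v : ℤ) ^ m ≤ 9 * y := by linarith
    exact_mod_cast this

/-- `t = 1` in the second case -/
theorem QSZ_pos (m c y : ℕ) (t : ℤ) (b e₁ e₂ u v : ℕ) (ht : t = 1 ∨ t = -1)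
    (h : Dcp m c y t b e₁ e₂ u v) (hy : 1 ≤ y) (hb : 8 * y ≤ b) : t = 1 := by
  rcases ht with ht | ht
  · exact ht
  · exfalso
    have hm := h.minus
    rw [ht] at hm
    have h3 : (0 : ℤ) ≤ (e₁ : ℤ) * (u : ℤ) ^ m := by positivity
    have hb' : 8 * (y : ℤ) ≤ b := by exact_mod_cast hb
    have hy' : (1 : ℤ) ≤ y := by exact_mod_cast hy
    linarith

/-- BLOCK QSZ -/
theorem p_QSZ : S_QSZ := by
  intro m c k y t b b' e₁ e₂ u v u' v' hm hc hy ht h h' hb hb' hcase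
  obtain ⟨j, rfl⟩ : ∃ j, m = j + 3 := ⟨m - 3, by omega⟩
  have hyc := QSZ_ylt c k y hc hy
  have hy1 : 1 ≤ y := by
    rcases Nat.eq_zero_or_pos y with h0 | h0
    · rw [h0] at hy
      have : 0 < c ^ k := Nat.pow_pos (by omega)
      simp at hy
      omega
    · exact h0
  obtain ⟨he1, he2⟩ := QSZ_e _ _ _ _ _ _ _ _ _ h
  have hHb : Hb 2 (j + 3) c = 7077888 * (c * (j + 3)) ^ 3 := by
    unfold Hb
    ring
  rw [hHb] at hb hb'
  have hQ : ((c : ℤ) ^ (k / 2)) = ((c ^ (k / 2) : ℕ) : ℤ) := by push_cast; rfl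
  rw [hQ]
  rcases hcase with ⟨c1, c2⟩ | ⟨c1, c2, c3, c4⟩
  · obtain ⟨hu, hv⟩ := QSZ_small _ _ _ _ _ _ _ _ _ ht h c1
    obtain ⟨hu', hv'⟩ := QSZ_small _ _ _ _ _ _ _ _ _ ht h' c2
    have hA : (v * u') ^ (j + 3) ≤ 81 * y ^ 2 := by
      rw [mul_pow]
      calc v ^ (j + 3) * u' ^ (j + 3) ≤ (9 * y) * (9 * y) := Nat.mul_le_mul hv hu'
        _ = 81 * y ^ 2 := by ring
    have hB : (u * v') ^ (j + 3) ≤ 81 * y ^ 2 := by
      rw [mul_pow]
      calc u ^ (j + 3) * v' ^ (j + 3) ≤ (9 * y) * (9 * y) := Nat.mul_le_mul hu hv'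
        _ = 81 * y ^ 2 := by ring
    have := QSZ_case1 j c (c ^ (k / 2)) y (v * u') (u * v') hc hyc hA hB (by omega)
    push_cast at this ⊢
    exact this
  · have ht1 := QSZ_pos _ _ _ _ _ _ _ _ _ ht h hy1 c1
    have hc3 : 24 * c ^ 3 ≤ 7077888 * (c * (j + 3)) ^ 3 := by
      have h1 : c ^ 3 ≤ (c * (j + 3)) ^ 3 := Nat.pow_le_pow_left (Nat.le_mul_of_pos_right _ (by omega)) 3
      omega
    have h1 := h.minus
    have h2 := h.plus
    have h3 := h'.minus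
    have h4 := h'.plus
    rw [ht1, one_mul] at h1 h3
    rcases lt_trichotomy (u * v') (v * u') with hlt | heq | hgt
    · have h5 := QSZ_case2 j c (c ^ (k / 2)) y b b' e₁ e₂ u v u' v' hc hy1 hyc he1 he2 h1 h2 h3 h4
        (by omega) c1 c2 c4 hlt h.hu h'.hv
      have h6 : (0 : ℤ) ≤ (v : ℤ) * u' - u * v' := by
        have : ((u * v' : ℕ) : ℤ) < ((v * u' : ℕ) : ℤ) := by exact_mod_cast hlt
        push_cast at this
        linarith
      rw [abs_of_nonneg h6]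
      exact h5
    · have h6 : (v : ℤ) * u' - u * v' = 0 := by
        have : ((u * v' : ℕ) : ℤ) = ((v * u' : ℕ) : ℤ) := by rw [heq]
        push_cast at this
        linarith
      rw [h6, abs_zero, mul_zero]
      have : 0 < c ^ (k / 2) := Nat.pow_pos (by omega)
      exact_mod_cast this
    · have hgt' : u' * v < v' * u := by
        have e1 : u' * v = v * u' := mul_comm _ _
        have e2 : v' * u = u * v' := mul_comm _ _
        omega
      have h5 := QSZ_case2 j c (c ^ (k / 2)) y b' b e₁ e₂ u' v' u v hc hy1 hyc he1 he2 h3 h4 h1 h2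
        (by omega) c2 c1 c3 hgt' h'.hu h.hv
      have h6 : (v : ℤ) * u' - u * v' ≤ 0 := by
        have : ((v * u' : ℕ) : ℤ) < ((u * v' : ℕ) : ℤ) := by exact_mod_cast hgt
        push_cast at this
        linarith
      rw [abs_of_nonpos h6]
      have h7 : -((v : ℤ) * u' - u * v') = (v' : ℤ) * u - u' * v := by ring
      rw [h7]
      exact h5

end Pool.FCS
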