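import Pool.Agent.Work.MP_2738db_S.Defs

set_option autoImplicit false

/-! # Block SZ2: size, large `b` (helper10) -/

namespace Pool.FCS

open NumberField

/-- all conjugates of `θ` have the same absolute value `c ^ (r / n)` -/
theorem SZ2_norm {K : Type} [Field K] [NumberField K] {c n r : ℕ} {s : ℤ} {θ : 𝓞 K}
    (h : Fld K c n r s θ) (σ : K →+* ℂ) : ‖σ (θ : K)‖ ^ n = (c : ℝ) ^ r := by
  have e1 : (θ : K) ^ n = -(s : K) * (c : K) ^ r := by
    have := congrArg (fun z : 𝓞 K => (z : K)) h.root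
    simpa using this
  have e2 := congrArg (fun z => ‖σ z‖) e1
  simp only [map_pow, map_mul, map_neg, map_intCast, map_natCast, norm_pow, norm_mul, norm_neg,
    Complex.norm_natCast] at e2
  rcases h.hs with hs | hs
  · rw [hs] at e2
    simpa using e2
  · rw [hs] at e2
    simpa using e2

/-- the value of `x` -/
theorem SZ2_xel {K : Type} [Field K] [NumberField K] (θ : 𝓞 K) (c q b : ℕ) (σ : K →+* ℂ) :
    σ (xel θ c q b : K) = (b : ℂ) - (c : ℂ) ^ q * σ (θ : K) := by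
  unfold xel
  simp

/-- `log (b - z)` for small `z` -/
theorem SZ2_log {z : ℂ} {b : ℕ} {T : ℝ} (hb : 0 < b) (hz : ‖z‖ ≤ T) (hT : 8 * T ≤ b) :
    ∃ w : ℂ, Complex.log ((b : ℂ) - z) = (Real.log b : ℂ) + w ∧ ‖w‖ ≤ 3 / 2 * (T / b) := by
  have hb' : (0 : ℝ) < b := by exact_mod_cast hb
  have hbc : (b : ℂ) ≠ 0 := by exact_mod_cast hb.ne'
  have h1 : ‖-z / (b : ℂ)‖ ≤ T / b := by
    rw [norm_div, norm_neg, Complex.norm_natCast]
    exact div_le_div_of_nonneg_right hz hb'.le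
  have h2 : T / b ≤ 1 / 8 := by
    rw [div_le_div_iff₀ hb' (by norm_num)]
    linarith
  have h3 : ‖-z / (b : ℂ)‖ ≤ 1 / 2 := by linarith
  refine ⟨Complex.log (1 + -z / (b : ℂ)), ?_, ?_⟩
  · have e1 : (b : ℂ) - z = ((b : ℝ) : ℂ) * (1 + -z / (b : ℂ)) := by
      push_cast
      field_simp
      ring
    have h4 : 1 + -z / (b : ℂ) ≠ 0 := by
      intro h0
      have e3 : -z / (b : ℂ) = -1 := by linear_combination h0
      rw [e3] at h3
      norm_num at h3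
    rw [e1, Complex.log_ofReal_mul hb' h4]
  · exact (Complex.norm_log_one_add_half_le_self h3).trans
      (mul_le_mul_of_nonneg_left h1 (by norm_num))

theorem SZ2_rt {m b b' : ℕ} {z z' : ℂ} {T β : ℝ} (hm : 1 ≤ m) (hβ : 0 < β) (hb : β ≤ b)
    (hb' : β ≤ b') (hT : 8 * T ≤ β) (hz : ‖z‖ ≤ T) (hz' : ‖z'‖ ≤ T) :
    ∃ u : ℂ, rt m ((b' : ℂ) - z') / rt m ((b : ℂ) - z) =
      (Real.exp ((Real.log b' - Real.log b) / m) : ℂ) * Complex.exp u ∧
      ‖u‖ ≤ 3 * T / (m * β) := by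
  have hm0 : (0 : ℝ) < m := by exact_mod_cast hm
  have hmc : (m : ℂ) ≠ 0 := by exact_mod_cast hm0.ne'
  have hb0 : (0 : ℝ) < b := lt_of_lt_of_le hβ hb
  have hb0' : (0 : ℝ) < b' := lt_of_lt_of_le hβ hb'
  have hT0 : 0 ≤ T := (norm_nonneg z).trans hz
  obtain ⟨w, hw, hwn⟩ := SZ2_log (by exact_mod_cast hb0) hz (hT.trans hb)
  obtain ⟨w', hw', hwn'⟩ := SZ2_log (by exact_mod_cast hb0') hz' (hT.trans hb')
  refine ⟨(w' - w) / m, ?_, ?_⟩
  · unfold rt
    rw [hw, hw', ← Complex.exp_sub, Complex.ofReal_exp, ← Complex.exp_add]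
    apply congrArg
    push_cast
    field_simp
    ring
  · have h1 : T / b ≤ T / β := div_le_div_of_nonneg_left hT0 hβ hb
    have h2 : T / b' ≤ T / β := div_le_div_of_nonneg_left hT0 hβ hb'
    have h3 : ‖w' - w‖ ≤ 3 * (T / β) := by
      have := norm_sub_le w' w
      linarith
    rw [norm_div, Complex.norm_natCast]
    have h4 : ‖w' - w‖ / m ≤ 3 * (T / β) / m := div_le_div_of_nonneg_right h3 hm0.le
    have h5 : 3 * (T / β) / m = 3 * T / (m * β) := by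
      field_simp
    rw [h5] at h4
    exact h4

/-- the difference of two conjugates of `ρ` -/
theorem SZ2_diff {m b b' : ℕ} {z z' y y' r r' : ℂ} {T β : ℝ} (hm : 1 ≤ m) (hβ : 0 < β) (hb : β ≤ b)
    (hb' : β ≤ b') (hT : 8 * T ≤ β) (hz : ‖z‖ ≤ T) (hz' : ‖z'‖ ≤ T) (hy : ‖y‖ ≤ T) (hy' : ‖y'‖ ≤ T)
    (hbb : b' ≤ 2 * b) (hr : r = rt m ((b' : ℂ) - z') / rt m ((b : ℂ) - z))
    (hr' : r' = rt m ((b' : ℂ) - y') / rt m ((b : ℂ) - y)) :
    ‖r - r'‖ ≤ 24 * T / (m * β) := by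
  have hm0 : (0 : ℝ) < m := by exact_mod_cast hm
  have hm1 : (1 : ℝ) ≤ m := by exact_mod_cast hm
  have hb0 : (0 : ℝ) < b := lt_of_lt_of_le hβ hb
  have hb0' : (0 : ℝ) < b' := lt_of_lt_of_le hβ hb'
  have hT0 : 0 ≤ T := (norm_nonneg z).trans hz
  obtain ⟨u, e1, hu⟩ := SZ2_rt hm hβ hb hb' hT hz hz'
  obtain ⟨v, e2, hv⟩ := SZ2_rt hm hβ hb hb' hT hy hy'
  have h0 : 3 * T / (m * β) ≤ 1 := by
    rw [div_le_one (by positivity)]
    nlinarith
  have hE : Real.exp ((Real.log b' - Real.log b) / m) ≤ 2 := by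
    have h1 : Real.log b' - Real.log b ≤ Real.log 2 := by
      rw [← Real.log_div hb0'.ne' hb0.ne']
      apply Real.log_le_log (by positivity)
      rw [div_le_iff₀ hb0]
      exact_mod_cast hbb
    have h2 : (Real.log b' - Real.log b) / m ≤ Real.log 2 := by
      rw [div_le_iff₀ hm0]
      have := Real.log_nonneg (show (1 : ℝ) ≤ 2 by norm_num)
      nlinarith
    calc Real.exp ((Real.log b' - Real.log b) / m) ≤ Real.exp (Real.log 2) := Real.exp_le_exp.2 h2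
      _ = 2 := Real.exp_log (by norm_num)
  have h3 := Complex.norm_exp_sub_one_le (hu.trans h0)
  have h4 := Complex.norm_exp_sub_one_le (hv.trans h0)
  have h5 : ‖Complex.exp u - Complex.exp v‖ ≤ 4 * (3 * T / (m * β)) := by
    have h6 := norm_sub_le (Complex.exp u - 1) (Complex.exp v - 1)
    rw [sub_sub_sub_cancel_right] at h6
    linarith
  have e3 : r - r' = (Real.exp ((Real.log b' - Real.log b) / m) : ℂ) *
      (Complex.exp u - Complex.exp v) := by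
    rw [hr, hr', e1, e2]
    ring
  rw [e3, norm_mul, Complex.norm_real, Real.norm_eq_abs, abs_of_pos (Real.exp_pos _)]
  calc Real.exp ((Real.log b' - Real.log b) / m) * ‖Complex.exp u - Complex.exp v‖
      ≤ 2 * (4 * (3 * T / (m * β))) :=
        mul_le_mul hE h5 (norm_nonneg _) (by norm_num)
    _ = 24 * T / (m * β) := by ring

/-- the size of `a` -/
theorem SZ2_a {n m c k a b : ℕ} {s t : ℤ} (h : Sol n m c k s t a b) (hk : c ^ k ≤ b ^ n) :
    a ^ m ≤ 2 * b ^ n := by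
  have e := h.eq
  have hk' : (c : ℤ) ^ k ≤ (b : ℤ) ^ n := by exact_mod_cast hk
  have hc0 : (0 : ℤ) ≤ (c : ℤ) ^ k := by positivity
  have hb0 : (0 : ℤ) ≤ (b : ℤ) ^ n := by positivity
  have ha0 : (0 : ℤ) ≤ (a : ℤ) ^ m := by positivity
  have : (a : ℤ) ^ m ≤ 2 * (b : ℤ) ^ n := by
    rcases h.hs with hs | hs <;> rcases h.ht with ht | ht <;> rw [hs, ht] at e <;> linarith
  exact_mod_cast this

theorem SZ2_Hb {n m c : ℕ} (hn : 0 < n) (hm : 0 < m) (hc : 0 < c) : 0 < Hb n m c := by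
  unfold Hb
  positivity

/-- `24 n c a ≤ β` -/
theorem SZ2_beta {n m c a b : ℕ} {β : ℕ} (hn : 2 ≤ n) (hnm : n < m) (hc : 2 ≤ c)
    (ha : a ^ m ≤ 2 * b ^ n) (hb : b ≤ 2 * β) (hH : Hb n m c ≤ β) : 24 * n * c * a ≤ β := by
  by_contra hlt
  rw [not_le] at hlt
  have hβ0 : 0 < β := lt_of_lt_of_le (SZ2_Hb (by omega) (by omega) (by omega)) hH
  have hm0 : m ≠ 0 := by omega
  have h1 : β ^ m < (24 * n * c) ^ m * (2 * b ^ n) := by
    calc β ^ m < (24 * n * c * a) ^ m := Nat.pow_lt_pow_left hlt hm0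
      _ = (24 * n * c) ^ m * a ^ m := mul_pow _ _ _
      _ ≤ (24 * n * c) ^ m * (2 * b ^ n) := Nat.mul_le_mul_left _ ha
  have h2 : (24 * n * c) ^ m * (2 * b ^ n) ≤ (24 * n * c) ^ m * 2 ^ (n + 1) * β ^ n := by
    have h3 : b ^ n ≤ (2 * β) ^ n := Nat.pow_le_pow_left hb n
    rw [mul_pow] at h3
    calc (24 * n * c) ^ m * (2 * b ^ n) ≤ (24 * n * c) ^ m * (2 * (2 ^ n * β ^ n)) := by gcongr
      _ = (24 * n * c) ^ m * 2 ^ (n + 1) * β ^ n := by ring
  obtain ⟨e, rfl⟩ : ∃ e, m = n + 1 + e := ⟨m - (n + 1), by omega⟩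
  have h4 : β ^ (e + 1) * β ^ n < (24 * n * c) ^ (n + 1 + e) * 2 ^ (n + 1) * β ^ n := by
    calc β ^ (e + 1) * β ^ n = β ^ (n + 1 + e) := by ring
      _ < _ := lt_of_lt_of_le h1 h2
  have h5 : β ^ (e + 1) < (24 * n * c) ^ (n + 1 + e) * 2 ^ (n + 1) := lt_of_mul_lt_mul_right' h4
  have hA : 1 ≤ 24 * n * c := by nlinarith
  have h6 : (24 * n * c) ^ (n + 1 + e) ≤ ((24 * n * c) ^ (n + 1)) ^ (e + 1) := by
    rw [← pow_mul]
    apply Nat.pow_le_pow_right hA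
    nlinarith
  have h7 : 2 ^ (n + 1) ≤ (2 ^ (n + 1)) ^ (e + 1) := by
    rw [← pow_mul]
    apply Nat.pow_le_pow_right (by norm_num)
    nlinarith
  have h8 : β ^ (e + 1) < ((48 * n * c) ^ (n + 1)) ^ (e + 1) := by
    calc β ^ (e + 1) < (24 * n * c) ^ (n + 1 + e) * 2 ^ (n + 1) := h5
      _ ≤ ((24 * n * c) ^ (n + 1)) ^ (e + 1) * (2 ^ (n + 1)) ^ (e + 1) := Nat.mul_le_mul h6 h7
      _ = ((48 * n * c) ^ (n + 1)) ^ (e + 1) := by
        rw [← mul_pow, ← mul_pow]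
        congr 2
        ring
  have h9 : β < (48 * n * c) ^ (n + 1) := lt_of_pow_lt_pow_left₀ _ (Nat.zero_le _) h8
  have h10 : (48 * n * c) ^ (n + 1) ≤ Hb n (n + 1 + e) c := by
    unfold Hb
    apply Nat.pow_le_pow_left
    have : 48 * n * c * 1 ≤ 48 * n * c * (2 * (n + 1 + e)) := Nat.mul_le_mul_left _ (by omega)
    calc 48 * n * c = 48 * n * c * 1 := (mul_one _).symm
      _ ≤ 48 * n * c * (2 * (n + 1 + e)) := this
      _ = 96 * c * (n + 1 + e) * n := by ring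
  omega

theorem p_SZ2 : S_SZ2 := by
  intro K _ _ c n s θ m k t a b a' b' ρ γ hnm hF hS hS' hρ hγ hbH hbH' hk hk' hbb hbb' σ τ
  have hn2 := hF.hn
  have hc2 := hF.hc
  have hn0 : n ≠ 0 := by omega
  have hc0 : (0 : ℝ) < c := by
    have : 0 < c := by omega
    exact_mod_cast this
  -- the number `T`
  have hR : ∀ σ' : K →+* ℂ, ‖σ' (θ : K)‖ = ‖σ (θ : K)‖ := by
    intro σ'
    apply (pow_left_inj₀ (norm_nonneg _) (norm_nonneg _) hn0).1
    rw [SZ2_norm hF σ', SZ2_norm hF σ]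
  obtain ⟨T, hT⟩ : ∃ T : ℝ, T = (c : ℝ) ^ (k / n) * ‖σ (θ : K)‖ := ⟨_, rfl⟩
  have hT0 : 0 ≤ T := by rw [hT]; positivity
  have hTn : T ^ n = (c : ℝ) ^ k := by
    rw [hT, mul_pow, SZ2_norm hF σ, ← pow_mul, ← pow_add]
    congr 1
    rw [mul_comm]
    exact Nat.div_add_mod k n
  have hTlt : T < c * (c : ℝ) ^ (k / n) := by
    have h1 : ‖σ (θ : K)‖ < c := by
      apply lt_of_pow_lt_pow_left₀ n hc0.le
      rw [SZ2_norm hF σ]
      apply pow_lt_pow_right₀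
      · exact_mod_cast (by omega : 1 < c)
      · exact hF.hr
    rw [hT, mul_comm]
    exact mul_lt_mul_of_pos_right h1 (by positivity)
  have hzn : ∀ σ' : K →+* ℂ, ‖(c : ℂ) ^ (k / n) * σ' (θ : K)‖ ≤ T := by
    intro σ'
    rw [norm_mul, norm_pow, Complex.norm_natCast, hR σ', hT]
  have h8 : ∀ x : ℕ, 8 ^ n * c ^ k ≤ x ^ n → 8 * T ≤ x := by
    intro x hx
    apply le_of_pow_le_pow_left₀ hn0 (by positivity)
    rw [mul_pow, hTn]
    exact_mod_cast hx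
  -- `β`
  obtain ⟨β, hβ⟩ : ∃ β : ℕ, β = min b b' := ⟨_, rfl⟩
  have hβH : Hb n m c ≤ β := by rw [hβ]; exact le_min hbH hbH'
  have hβ0 : 0 < β := lt_of_lt_of_le (SZ2_Hb (by omega) (by omega) (by omega)) hβH
  have hβb : β ≤ b := by omega
  have hβb' : β ≤ b' := by omega
  have hb2 : b ≤ 2 * β := by omega
  have h8β : 8 * T ≤ (β : ℝ) := by
    rcases Nat.le_total b b' with h | h
    · rw [hβ, min_eq_left h]
      exact h8 b hk
    · rw [hβ, min_eq_right h]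
      exact h8 b' hk'
  have hβR : (0 : ℝ) < β := by exact_mod_cast hβ0
  have hm0 : (0 : ℝ) < m := by
    have : 0 < m := by omega
    exact_mod_cast this
  have hd : ‖σ ρ - τ ρ‖ ≤ 24 * T / (m * β) := by
    apply SZ2_diff (by omega : 1 ≤ m) hβR (by exact_mod_cast hβb) (by exact_mod_cast hβb') h8β
      (hzn σ) (hzn σ) (hzn τ) (hzn τ) hbb'
    · rw [hρ σ, SZ2_xel, SZ2_xel]
    · rw [hρ τ, SZ2_xel, SZ2_xel]
  have hck : c ^ k ≤ b ^ n := le_trans (Nat.le_mul_of_pos_left _ (by positivity)) hk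
  have ha := SZ2_a hS hck
  have hB : (24 : ℝ) * n * c * a ≤ β := by
    exact_mod_cast SZ2_beta hn2 hnm hc2 ha hb2 hβH
  have e1 : ‖σ (γ : K) - τ (γ : K)‖ = a * ‖σ ρ - τ ρ‖ := by
    rw [hγ, map_mul, map_mul, map_natCast, map_natCast, ← mul_sub, norm_mul, Complex.norm_natCast]
  rw [e1]
  have hdn : (Module.finrank ℚ K : ℝ) ≤ n := by exact_mod_cast hF.deg
  have h3 : (m : ℝ) * Module.finrank ℚ K * (a * ‖σ ρ - τ ρ‖) ≤
      (m : ℝ) * n * (a * (24 * T / (m * β))) := by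
    gcongr
  have h4 : (m : ℝ) * n * (a * (24 * T / (m * β))) = 24 * n * a * T / β := by
    field_simp
  have h5 : 24 * (n : ℝ) * a * T / β ≤ T / c := by
    rw [div_le_div_iff₀ hβR hc0]
    nlinarith [mul_le_mul_of_nonneg_left hB hT0]
  have h6 : T / c < (c : ℝ) ^ (k / n) := by
    rw [div_lt_iff₀ hc0, mul_comm]
    exact hTlt
  push_cast
  linarith

end Pool.FCS
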