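import Pool.Agent.Work.MP_2738db_S.Defs

set_option autoImplicit false

/-! # Block BND (helper70): the numerical bound in THEOREM S -/

namespace Pool.FCS

open NumberField

theorem BND_log (N : ℕ) (hN : 1 ≤ N) : (Nat.log 2 N : ℝ) ≤ 2 * Real.log N := by
  have h1 : 2 ^ Nat.log 2 N ≤ N := Nat.pow_log_le_self 2 (by omega)
  have h2 : ((2 : ℝ) ^ Nat.log 2 N) ≤ N := by exact_mod_cast h1
  have h3 := Real.log_le_log (by positivity) h2
  rw [Real.log_pow] at h3
  have h4 : (1 / 2 : ℝ) ≤ Real.log 2 := by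
    have := Real.log_two_gt_d9
    linarith
  have h5 : (0 : ℝ) ≤ (Nat.log 2 N : ℝ) := Nat.cast_nonneg _
  nlinarith

theorem p_BND : S_BND := by
  refine ⟨11, by norm_num, ?_⟩
  intro c n m l hc hn hnm hl
  have hm : 3 ≤ m := by omega
  set Q : ℝ := (m : ℝ) * c with hQ
  have hcR : (2 : ℝ) ≤ c := by exact_mod_cast hc
  have hnR : (2 : ℝ) ≤ n := by exact_mod_cast hn
  have hmR : (3 : ℝ) ≤ m := by exact_mod_cast hm
  have hnmR : (n : ℝ) ≤ m := by exact_mod_cast hnm.le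
  have hlR : (1 : ℝ) ≤ l := by exact_mod_cast hl
  have hQ6 : (6 : ℝ) ≤ Q := by rw [hQ]; nlinarith
  have hQ0 : 0 < Q := by linarith
  have hmQ : (m : ℝ) ≤ Q := by rw [hQ]; nlinarith
  have hcQ : (c : ℝ) ≤ Q := by rw [hQ]; nlinarith
  have hnQ : (n : ℝ) ≤ Q := hnmR.trans hmQ
  have hncQ : (n : ℝ) * c ≤ Q := by rw [hQ]; nlinarith
  set L : ℝ := Real.log (2 * n) with hL
  have hL1 : 1 ≤ L := by
    rw [hL, Real.le_log_iff_exp_le (by positivity)]
    have := Real.exp_one_lt_d9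
    linarith
  set W : ℝ := Q ^ ((n : ℝ) * L) with hW
  have hQn : Q ^ n ≤ W := by
    rw [hW, ← Real.rpow_natCast Q n]
    apply Real.rpow_le_rpow_of_exponent_le (by linarith)
    nlinarith
  have hQ1 : Q ≤ W := by
    refine le_trans ?_ hQn
    calc Q = Q ^ 1 := (pow_one Q).symm
      _ ≤ Q ^ n := pow_le_pow_right₀ (by linarith) (by omega)
  have hW1 : 1 ≤ W := by linarith
  have hW0 : 0 < W := by linarith
  -- the parts
  have hHb : ((Hb n m c : ℕ) : ℝ) ≤ W ^ 10 := by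
    unfold Hb
    push_cast
    have h1 : (96 * (c : ℝ) * m * n) ≤ Q ^ 5 := by
      have h96 : (96 : ℝ) ≤ Q ^ 3 := by
        calc (96 : ℝ) ≤ 6 ^ 3 := by norm_num
          _ ≤ Q ^ 3 := pow_le_pow_left₀ (by norm_num) hQ6 3
      calc (96 * (c : ℝ) * m * n) = 96 * Q * n := by rw [hQ]; ring
        _ ≤ Q ^ 3 * Q * Q := by
          apply mul_le_mul (mul_le_mul_of_nonneg_right h96 hQ0.le) hnQ (by positivity) (by positivity)
        _ = Q ^ 5 := by ring
    calc (96 * (c : ℝ) * m * n) ^ (n + 1) ≤ (Q ^ 5) ^ (n + 1) :=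
          pow_le_pow_left₀ (by positivity) h1 _
      _ = Q ^ (5 * (n + 1)) := by rw [pow_mul]
      _ ≤ Q ^ (10 * n) := pow_le_pow_right₀ (by linarith) (by omega)
      _ = (Q ^ n) ^ 10 := by rw [← pow_mul, mul_comm]
      _ ≤ W ^ 10 := pow_le_pow_left₀ (by positivity) hQn 10
  have hw1 : ((m : ℝ) ^ Nat.log 2 (n ^ n)) ≤ W ^ 2 := by
    have h1 : (Nat.log 2 (n ^ n) : ℝ) ≤ 2 * (n * L) := by
      have h2 := BND_log (n ^ n) (Nat.one_le_pow _ _ (by omega))
      push_cast at h2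
      rw [Real.log_pow] at h2
      have h3 : Real.log n ≤ L := by
        rw [hL]
        exact Real.log_le_log (by positivity) (by linarith)
      have h4 : (n : ℝ) * Real.log n ≤ n * L := mul_le_mul_of_nonneg_left h3 (by positivity)
      linarith
    calc ((m : ℝ) ^ Nat.log 2 (n ^ n)) ≤ Q ^ Nat.log 2 (n ^ n) :=
          pow_le_pow_left₀ (by positivity) hmQ _
      _ = Q ^ (Nat.log 2 (n ^ n) : ℝ) := (Real.rpow_natCast _ _).symm
      _ ≤ Q ^ (2 * (n * L)) := Real.rpow_le_rpow_of_exponent_le (by linarith) h1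
      _ = W ^ 2 := by
          rw [hW, ← Real.rpow_natCast (Q ^ ((n : ℝ) * L)) 2, ← Real.rpow_mul hQ0.le]
          congr 1
          push_cast
          ring
  have hw2 : (((n : ℝ) * c) ^ n) ≤ W :=
    (pow_le_pow_left₀ (by positivity) hncQ n).trans hQn
  have hw3 : ((n : ℝ) ^ Nat.log 2 ((n * c) ^ n)) ≤ W ^ 2 := by
    have h1 : (Nat.log 2 ((n * c) ^ n) : ℝ) ≤ 2 * (n * Real.log Q) := by
      have h2 := BND_log ((n * c) ^ n) (Nat.one_le_pow _ _ (by positivity))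
      push_cast at h2
      rw [Real.log_pow] at h2
      have h3 : Real.log ((n : ℝ) * c) ≤ Real.log Q :=
        Real.log_le_log (by positivity) hncQ
      have h4 : (n : ℝ) * Real.log ((n : ℝ) * c) ≤ n * Real.log Q :=
        mul_le_mul_of_nonneg_left h3 (by positivity)
      linarith
    have h5 : 0 ≤ Real.log n := Real.log_nonneg (by linarith)
    have h6 : Real.log n ≤ L := by
      rw [hL]
      exact Real.log_le_log (by positivity) (by linarith)
    have h7 : 0 ≤ Real.log Q := Real.log_nonneg (by linarith)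
    calc ((n : ℝ) ^ Nat.log 2 ((n * c) ^ n)) = Real.exp (Real.log n * Nat.log 2 ((n * c) ^ n)) := by
          rw [← Real.rpow_natCast, Real.rpow_def_of_pos (by positivity)]
      _ ≤ Real.exp (Real.log Q * (2 * (n * L))) := by
          apply Real.exp_le_exp.2
          calc Real.log n * (Nat.log 2 ((n * c) ^ n) : ℝ) ≤ L * (2 * (n * Real.log Q)) :=
                mul_le_mul h6 h1 (Nat.cast_nonneg _) (by linarith)
            _ = Real.log Q * (2 * (n * L)) := by ring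
      _ = Q ^ (2 * (n * L)) := by rw [Real.rpow_def_of_pos hQ0]
      _ = W ^ 2 := by
          rw [hW, ← Real.rpow_natCast (Q ^ ((n : ℝ) * L)) 2, ← Real.rpow_mul hQ0.le]
          congr 1
          push_cast
          ring
  have hw4 : (m : ℝ) ^ n ≤ W := (pow_le_pow_left₀ (by positivity) hmQ n).trans hQn
  have hNc : ((Ncls n m c : ℕ) : ℝ) ≤ W ^ 6 := by
    unfold Ncls
    push_cast
    calc (m : ℝ) ^ Nat.log 2 (n ^ n) * (((n : ℝ) * c) ^ n * (n : ℝ) ^ Nat.log 2 ((n * c) ^ n)) *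
          (m : ℝ) ^ n ≤ W ^ 2 * (W * W ^ 2) * W := by
          apply mul_le_mul (mul_le_mul hw1 (mul_le_mul hw2 hw3 (by positivity) hW0.le)
            (by positivity) (by positivity)) hw4 (by positivity) (by positivity)
      _ = W ^ 6 := by ring
  have hc2 : (c : ℝ) ^ (2 * n) ≤ W ^ 2 := by
    calc (c : ℝ) ^ (2 * n) ≤ Q ^ (2 * n) := pow_le_pow_left₀ (by positivity) hcQ _
      _ = (Q ^ n) ^ 2 := by rw [← pow_mul, mul_comm]
      _ ≤ W ^ 2 := pow_le_pow_left₀ (by positivity) hQn 2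
  have hl2 : ((l : ℝ) + 2) ≤ W * l := by nlinarith
  have hc3 : 3 * (c : ℝ) ^ 2 ≤ W ^ 3 := by
    calc 3 * (c : ℝ) ^ 2 ≤ Q * Q ^ 2 := by
          apply mul_le_mul (by linarith) (pow_le_pow_left₀ (by positivity) hcQ 2) (by positivity)
            hQ0.le
      _ = Q ^ 3 := by ring
      _ ≤ W ^ 3 := pow_le_pow_left₀ hQ0.le hQ1 3
  have hexp : Q ^ (11 * (n : ℝ) * L) = W ^ 11 := by
    rw [hW, ← Real.rpow_natCast (Q ^ ((n : ℝ) * L)) 11, ← Real.rpow_mul hQ0.le]
    congr 1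
    push_cast
    ring
  rw [hexp]
  push_cast
  have hT1 : ((Ncls n m c : ℕ) : ℝ) * ((c : ℝ) ^ (2 * n) * (m : ℝ) ^ n * ((l : ℝ) + 2)) ≤
      W ^ 10 * l := by
    calc ((Ncls n m c : ℕ) : ℝ) * ((c : ℝ) ^ (2 * n) * (m : ℝ) ^ n * ((l : ℝ) + 2)) ≤
        W ^ 6 * (W ^ 2 * W * (W * l)) := by
          apply mul_le_mul hNc (mul_le_mul (mul_le_mul hc2 hw4 (by positivity) (by positivity)) hl2
            (by positivity) (by positivity)) (by positivity) (by positivity)
      _ = W ^ 10 * l := by ring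
  have hT2 : 3 * (c : ℝ) ^ 2 * ((l : ℝ) + 2) ≤ W ^ 10 * l := by
    calc 3 * (c : ℝ) ^ 2 * ((l : ℝ) + 2) ≤ W ^ 3 * (W * l) :=
          mul_le_mul hc3 hl2 (by positivity) (by positivity)
      _ = W ^ 4 * l := by ring
      _ ≤ W ^ 10 * l := by
          apply mul_le_mul_of_nonneg_right _ (by positivity)
          exact pow_le_pow_right₀ hW1 (by norm_num)
  have hT0 : ((Hb n m c : ℕ) : ℝ) ≤ W ^ 10 * l := by
    calc ((Hb n m c : ℕ) : ℝ) ≤ W ^ 10 * 1 := by rw [mul_one]; exact hHb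
      _ ≤ W ^ 10 * l := mul_le_mul_of_nonneg_left hlR (by positivity)
  calc (l : ℝ) * (((Hb n m c : ℕ) : ℝ) + ((Ncls n m c : ℕ) : ℝ) *
        ((c : ℝ) ^ (2 * n) * (m : ℝ) ^ n * ((l : ℝ) + 2)) + 3 * (c : ℝ) ^ 2 * ((l : ℝ) + 2)) ≤
      l * (W ^ 10 * l + W ^ 10 * l + W ^ 10 * l) := by
        apply mul_le_mul_of_nonneg_left _ (by positivity)
        linarith
    _ = 3 * (W ^ 10 * l ^ 2) := by ring
    _ ≤ W * (W ^ 10 * l ^ 2) := mul_le_mul_of_nonneg_right (by linarith) (by positivity)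
    _ = W ^ 11 * l ^ 2 := by ring
    _ ≤ W ^ 11 * l ^ 3 := by
        apply mul_le_mul_of_nonneg_left _ (by positivity)
        exact pow_le_pow_right₀ hlR (by norm_num)

end Pool.FCS
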