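import Pool.Agent.Work.MP_2738db_S.Defs

set_option autoImplicit false

namespace Pool.FCS

open NumberField

theorem p_CLS (h1 : S_DEC) (h2 : S_IDC) (h3 : S_OMG) (h4 : S_PIG) : S_CLS := by
  intro K _ _ c n r s θ m hF hm
  have hn := hF.hn
  have hc := hF.hc
  have hd := hF.deg
  set d := Module.finrank ℚ K with hd0
  obtain ⟨B, hB1, hB2⟩ := h1 K n m (by omega) hm
  have hY : 1 ≤ (n * c) ^ n := Nat.one_le_pow _ _ (Nat.mul_pos (by omega) (by omega))
  obtain ⟨hfin, hcard⟩ := h2 K ((n * c) ^ n) hY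
  obtain ⟨ω, hω1, hω2⟩ := h3 K c n r s θ hF
  have h5 := h4 K c ω (by omega) hω1 hω2
  classical
  refine ⟨B ×ˢ hfin.toFinset, ?_, ?_⟩
  · rw [Finset.card_product, ← Set.ncard_eq_toFinset_card _ hfin]
    have e1 : B.card ≤ m ^ Nat.log 2 (n ^ n) := by
      refine hB1.trans (Nat.pow_le_pow_right hm (Nat.log_mono_right ?_))
      exact Nat.pow_le_pow_right (by omega) hd
    have e2 : {I : Ideal (𝓞 K) | I ≠ ⊥ ∧ Ideal.absNorm I ≤ (n * c) ^ n}.ncard ≤
        (n * c) ^ n * n ^ Nat.log 2 ((n * c) ^ n) :=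
      hcard.trans (Nat.mul_le_mul_left _ (Nat.pow_le_pow_left hd _))
    exact Nat.mul_le_mul e1 e2
  · intro x hx
    obtain ⟨J, hJ, A, hA, hxA⟩ := hB2 x hx
    obtain ⟨α, hα1, hα2, hα3⟩ := h5 A hA
    obtain ⟨R, hR⟩ := (Ideal.dvd_span_singleton).2 hα1
    have hR0 : R ≠ ⊥ := by
      rintro rfl
      rw [Ideal.mul_bot, Ideal.span_singleton_eq_bot] at hR
      exact hα2 hR
    have hNA : 0 < Ideal.absNorm A :=
      Nat.pos_of_ne_zero (fun h => hA (Ideal.absNorm_eq_zero_iff.1 h))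
    have hNR : Ideal.absNorm R ≤ (n * c) ^ n := by
      rw [hR, map_mul, mul_comm (Ideal.absNorm A)] at hα3
      have e1 : Ideal.absNorm R ≤ (d * c) ^ d := Nat.le_of_mul_le_mul_right hα3 hNA
      refine e1.trans ?_
      refine (Nat.pow_le_pow_left (Nat.mul_le_mul_right c hd) d).trans ?_
      exact Nat.pow_le_pow_right (Nat.mul_pos (by omega) (by omega)) hd
    refine ⟨(J, R), ?_, hR0, α, hα2, ?_⟩
    · rw [Finset.mem_product]
      exact ⟨hJ, hfin.mem_toFinset.2 ⟨hR0, hNR⟩⟩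
    · change Ideal.span {x} * R ^ m = J * Ideal.span {α} ^ m
      rw [hxA, hR, mul_pow, mul_assoc]

end Pool.FCS
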