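import Pool.Agent.Work.MP_2738db_S.Defs

set_option autoImplicit false

namespace Pool.FCS

open NumberField
open UniqueFactorizationMonoid (normalizedFactors)

theorem DEC_count {K : Type} [Field K] [NumberField K] (p I : Ideal (𝓞 K)) (hp : p.IsPrime)
    (hp0 : p ≠ ⊥) (hI : I ≠ ⊥) [DecidableEq (Ideal (𝓞 K))] :
    multiplicity p I = (normalizedFactors I).count p := by
  have h1 : Irreducible p := (Ideal.prime_of_isPrime hp0 hp).irreducible
  have h2 := UniqueFactorizationMonoid.emultiplicity_eq_count_normalizedFactors h1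
    (show I ≠ 0 from hI)
  rw [normalize_eq] at h2
  exact multiplicity_eq_of_emultiplicity_eq_some h2

theorem DEC_main {K : Type} [Field K] [NumberField K] (m : ℕ) (P : Finset (Ideal (𝓞 K)))
    (I : Ideal (𝓞 K)) (hI : I ≠ ⊥)
    (hP : ∀ p : Ideal (𝓞 K), p.IsPrime → p ≠ ⊥ → p ∉ P → m ∣ multiplicity p I)
    [DecidableEq (Ideal (𝓞 K))] :
    ∃ A : Ideal (𝓞 K), A ≠ ⊥ ∧
      I = (∏ p ∈ P, p ^ ((normalizedFactors I).count p % m)) * A ^ m := by
  set F := (normalizedFactors I).toFinset with hF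
  have hFm : ∀ p ∈ F, p.IsPrime ∧ p ≠ ⊥ := by
    intro p hp
    rw [hF, Multiset.mem_toFinset] at hp
    have h1 := UniqueFactorizationMonoid.prime_of_normalized_factor p hp
    exact ⟨Ideal.isPrime_of_prime h1, h1.ne_zero⟩
  have h1 : I = ∏ p ∈ F, p ^ (normalizedFactors I).count p := by
    rw [hF, ← Finset.prod_multiset_count]
    exact (Ideal.prod_normalizedFactors_eq_self hI).symm
  have h2 : ∏ p ∈ F, p ^ ((normalizedFactors I).count p % m) =
      ∏ p ∈ P, p ^ ((normalizedFactors I).count p % m) := by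
    have e1 : ∏ p ∈ F, p ^ ((normalizedFactors I).count p % m) =
        ∏ p ∈ F ∪ P, p ^ ((normalizedFactors I).count p % m) := by
      refine Finset.prod_subset Finset.subset_union_left ?_
      intro p _ hp
      rw [hF, Multiset.mem_toFinset] at hp
      rw [Multiset.count_eq_zero_of_notMem hp, Nat.zero_mod, pow_zero]
    have e2 : ∏ p ∈ P, p ^ ((normalizedFactors I).count p % m) =
        ∏ p ∈ F ∪ P, p ^ ((normalizedFactors I).count p % m) := by
      refine Finset.prod_subset Finset.subset_union_right ?_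
      intro p hp hp'
      have hpF : p ∈ F := by
        rcases Finset.mem_union.1 hp with h | h
        · exact h
        · exact absurd h hp'
      obtain ⟨q1, q2⟩ := hFm p hpF
      have := hP p q1 q2 hp'
      rw [DEC_count p I q1 q2 hI] at this
      rw [Nat.mod_eq_zero_of_dvd this, pow_zero]
    rw [e1, e2]
  refine ⟨∏ p ∈ F, p ^ ((normalizedFactors I).count p / m), ?_, ?_⟩
  · refine Finset.prod_ne_zero_iff.2 fun p hp => ?_
    exact pow_ne_zero _ (hFm p hp).2
  · rw [← h2, ← Finset.prod_pow, ← Finset.prod_mul_distrib]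
    conv_lhs => rw [h1]
    refine Finset.prod_congr rfl fun p _ => ?_
    rw [← pow_mul, ← pow_add, mul_comm _ m, Nat.mod_add_div]

theorem p_DEC (h1 : S_PRP) (h2 : S_VAL) : S_DEC := by
  intro K _ _ n m hn hm
  classical
  have hn0 : (n : 𝓞 K) ≠ 0 := Nat.cast_ne_zero.2 (by omega)
  have hsp : Ideal.span {(n : 𝓞 K)} ≠ ⊥ := by
    rw [Ne, Ideal.span_singleton_eq_bot]
    exact hn0
  set P := (normalizedFactors (Ideal.span {(n : 𝓞 K)})).toFinset with hP
  have hPm : ∀ p : Ideal (𝓞 K), p ∈ P ↔ p.IsPrime ∧ (n : 𝓞 K) ∈ p := by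
    intro p
    rw [hP, Multiset.mem_toFinset, Ideal.mem_normalizedFactors_iff hsp,
      Ideal.span_singleton_le_iff_mem]
  have hcard : P.card ≤ Nat.log 2 (n ^ Module.finrank ℚ K) := by
    have e1 := h1 K n P hn (fun p hp => (hPm p).1 hp)
    have e2 : 2 ^ P.card ≤ ∏ p ∈ P, Ideal.absNorm p := by
      refine Finset.pow_card_le_prod _ _ _ fun p hp => ?_
      obtain ⟨q1, q2⟩ := (hPm p).1 hp
      have q3 : p ≠ ⊥ := by
        rintro rfl
        exact hn0 ((Submodule.mem_bot _).1 q2)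
      have q4 : Ideal.absNorm p ≠ 0 := fun h => q3 (Ideal.absNorm_eq_zero_iff.1 h)
      have q5 : Ideal.absNorm p ≠ 1 := fun h => q1.ne_top (Ideal.absNorm_eq_one_iff.1 h)
      omega
    exact Nat.le_log_of_pow_le (by norm_num) (e2.trans e1)
  refine ⟨Finset.univ.image (fun e : P → Fin m => ∏ p : P, (p : Ideal (𝓞 K)) ^ (e p : ℕ)), ?_, ?_⟩
  · refine Finset.card_image_le.trans ?_
    rw [Finset.card_univ, Fintype.card_fun, Fintype.card_fin, Fintype.card_coe]
    exact Nat.pow_le_pow_right hm hcard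
  · intro x hx
    obtain ⟨hx0, hx1⟩ := h2 K n m x hm hx
    have hI : Ideal.span {x} ≠ ⊥ := by
      rw [Ne, Ideal.span_singleton_eq_bot]
      exact hx0
    obtain ⟨A, hA, hxA⟩ := DEC_main m P (Ideal.span {x}) hI (by
      intro p q1 q2 q3
      refine hx1 p q1 q2 fun q4 => q3 ((hPm p).2 ⟨q1, q4⟩))
    refine ⟨∏ p ∈ P, p ^ ((normalizedFactors (Ideal.span {x})).count p % m), ?_, A, hA, hxA⟩
    rw [Finset.mem_image]
    refine ⟨fun p => ⟨(normalizedFactors (Ideal.span {x})).count (p : Ideal (𝓞 K)) % m,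
      Nat.mod_lt _ (by omega)⟩, Finset.mem_univ _, ?_⟩
    exact Finset.prod_coe_sort P
      (fun p => p ^ ((normalizedFactors (Ideal.span {x})).count p % m))

end Pool.FCS
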