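import Pool.Agent.Work.MP_2738db_S.Defs

/-! # Block EQC: equal exponents -/

set_option autoImplicit false

namespace Pool.FCS

open NumberField

/-- `(x + h) ^ n - x ^ n` is strictly increasing in `x`, and positive -/
theorem EQC_lem (n h x y : ℕ) (hn : 2 ≤ n) (hh : 1 ≤ h) (hxy : x < y) :
    (x + h) ^ n + y ^ n < (y + h) ^ n + x ^ n := by
  induction n, hn using Nat.le_induction with
  | base => nlinarith
  | succ n hn ih =>
    have h1 : x ^ n ≤ (x + h) ^ n := Nat.pow_le_pow_left (Nat.le_add_right _ _) _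
    have h2 : y ^ n ≤ (y + h) ^ n := Nat.pow_le_pow_left (Nat.le_add_right _ _) _
    have h3 : x ^ n ≤ y ^ n := Nat.pow_le_pow_left hxy.le _
    obtain ⟨u, hu⟩ := Nat.exists_eq_add_of_le h1
    obtain ⟨v, hv⟩ := Nat.exists_eq_add_of_le h2
    have huv : u < v := by omega
    rw [pow_succ, pow_succ, pow_succ, pow_succ, hu, hv]
    obtain ⟨z, hz⟩ := Nat.exists_eq_add_of_le h3
    rw [hz]
    obtain ⟨w, hw⟩ := Nat.exists_eq_add_of_lt huv
    obtain ⟨g, hg⟩ := Nat.exists_eq_add_of_lt hxy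
    rw [hw, hg]
    have e1 : 0 ≤ z * h := Nat.zero_le _
    nlinarith [Nat.zero_le (w * (x + g + 1 + h)), Nat.zero_le (u * (g + 1)), Nat.zero_le (z * h),
      Nat.zero_le (x ^ n * g), Nat.zero_le (x * w), Nat.zero_le (g * w), Nat.zero_le (h * w)]

theorem EQC_inj (n h x y : ℕ) (hn : 2 ≤ n) (hh : 1 ≤ h)
    (he : (x + h) ^ n + y ^ n = (y + h) ^ n + x ^ n) : x = y := by
  rcases lt_trichotomy x y with h1 | h1 | h1
  · have := EQC_lem n h x y hn hh h1
    omega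
  · exact h1
  · have := EQC_lem n h y x hn hh h1
    omega

theorem EQC_card (S : Set (ℕ × ℕ)) (D : Finset ℕ) (f : ℕ × ℕ → ℕ) (h1 : ∀ p ∈ S, f p ∈ D)
    (h2 : ∀ p ∈ S, ∀ q ∈ S, f p = f q → p = q) : S.Finite ∧ S.ncard ≤ D.card := by
  have hmaps : Set.MapsTo f S (D : Set ℕ) := fun p hp => h1 p hp
  have hinj : Set.InjOn f S := fun p hp q hq h => h2 p hp q hq h
  refine ⟨Set.Finite.of_injOn hmaps hinj D.finite_toSet, ?_⟩
  have h3 := Set.ncard_le_ncard_of_injOn f hmaps hinj D.finite_toSet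
  rwa [Set.ncard_coe_finset] at h3

theorem EQC_sum (n c k a b a' b' : ℕ) (hn : 2 ≤ n) (h1 : a ^ n + b ^ n = c ^ k)
    (h2 : a' ^ n + b' ^ n = c ^ k) (hs : a + b = a' + b') (hlt : a < a') : a' = b ∧ b' = a := by
  have h3 : b = b' + (a' - a) := by omega
  have h4 : a' = a + (a' - a) := by omega
  have h5 : a = b' := by
    apply EQC_inj n (a' - a) a b' hn (by omega)
    rw [← h3, ← h4]
    omega
  omega

theorem p_EQC : S_EQC := by
  intro c k n hc hn
  have hck : c ^ k ≠ 0 := by positivity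
  set D := (c ^ k).divisors with hD
  have A := EQC_card {p | 1 ≤ p.1 ∧ 1 ≤ p.2 ∧ p.1 ^ n = p.2 ^ n + c ^ k} D
    (fun p => p.1 - p.2) (by
      rintro ⟨a, b⟩ ⟨ha, hb, h⟩
      simp only at ha hb h ⊢
      rw [hD, Nat.mem_divisors]
      refine ⟨?_, hck⟩
      have h1 : a ^ n - b ^ n = c ^ k := by omega
      rw [← h1]
      exact Nat.sub_dvd_pow_sub_pow a b n) (by
      rintro ⟨a, b⟩ ⟨ha, hb, h⟩ ⟨a', b'⟩ ⟨ha', hb', h'⟩ he
      simp only at ha hb h ha' hb' h' he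
      have hlt : b < a := by
        by_contra hcon
        push Not at hcon
        have := Nat.pow_le_pow_left hcon n
        omega
      have hlt' : b' < a' := by
        by_contra hcon
        push Not at hcon
        have := Nat.pow_le_pow_left hcon n
        omega
      obtain ⟨g, rfl⟩ := Nat.exists_eq_add_of_lt hlt
      have hg : a' = b' + (g + 1) := by omega
      subst hg
      have h5 : b = b' := by
        apply EQC_inj n (g + 1) b b' (by omega) (by omega)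
        rw [h', ← add_assoc, h]
        ring
      rw [h5, add_assoc])
  have hdvd : ∀ p : ℕ × ℕ, Odd n → p.1 ^ n + p.2 ^ n = c ^ k → p.1 + p.2 ∈ D := by
    intro p ho h
    rw [hD, Nat.mem_divisors]
    refine ⟨?_, hck⟩
    rw [← h]
    exact Odd.nat_add_dvd_pow_add_pow p.1 p.2 ho
  have B := EQC_card {p | Odd n ∧ p.1 ^ n + p.2 ^ n = c ^ k ∧ p.1 ≤ p.2} D
    (fun p => p.1 + p.2) (fun p hp => hdvd p hp.1 hp.2.1) (by
      rintro ⟨a, b⟩ ⟨_, h, hle⟩ ⟨a', b'⟩ ⟨_, h', hle'⟩ he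
      simp only at h hle h' hle' he
      rcases lt_trichotomy a a' with hl | hl | hl
      · have := EQC_sum n c k a b a' b' (by omega) h h' he hl
        omega
      · subst hl
        have : b = b' := by omega
        rw [this]
      · have := EQC_sum n c k a' b' a b (by omega) h' h he.symm hl
        omega)
  have C := EQC_card {p | Odd n ∧ p.1 ^ n + p.2 ^ n = c ^ k ∧ p.2 ≤ p.1} D
    (fun p => p.1 + p.2) (fun p hp => hdvd p hp.1 hp.2.1) (by
      rintro ⟨a, b⟩ ⟨_, h, hle⟩ ⟨a', b'⟩ ⟨_, h', hle'⟩ he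
      simp only at h hle h' hle' he
      rcases lt_trichotomy a a' with hl | hl | hl
      · have := EQC_sum n c k a b a' b' (by omega) h h' he hl
        omega
      · subst hl
        have : b = b' := by omega
        rw [this]
      · have := EQC_sum n c k a' b' a b (by omega) h' h he.symm hl
        omega)
  have hsub : {p : ℕ × ℕ | EqE n c k p.1 p.2} ⊆
      {p | 1 ≤ p.1 ∧ 1 ≤ p.2 ∧ p.1 ^ n = p.2 ^ n + c ^ k} ∪
      ({p | Odd n ∧ p.1 ^ n + p.2 ^ n = c ^ k ∧ p.1 ≤ p.2} ∪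
        {p | Odd n ∧ p.1 ^ n + p.2 ^ n = c ^ k ∧ p.2 ≤ p.1}) := by
    rintro p ⟨ha, hb, h | h⟩
    · right
      rcases le_total p.1 p.2 with hl | hl
      · exact Or.inl ⟨h.1, h.2, hl⟩
      · exact Or.inr ⟨h.1, h.2, hl⟩
    · exact Or.inl ⟨ha, hb, h⟩
  have hfin := A.1.union (B.1.union C.1)
  refine ⟨hfin.subset hsub, ?_⟩
  have h1 := Set.ncard_le_ncard hsub hfin
  have h2 := Set.ncard_union_le {p : ℕ × ℕ | 1 ≤ p.1 ∧ 1 ≤ p.2 ∧ p.1 ^ n = p.2 ^ n + c ^ k}
    ({p | Odd n ∧ p.1 ^ n + p.2 ^ n = c ^ k ∧ p.1 ≤ p.2} ∪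
        {p | Odd n ∧ p.1 ^ n + p.2 ^ n = c ^ k ∧ p.2 ≤ p.1})
  have h3 := Set.ncard_union_le {p : ℕ × ℕ | Odd n ∧ p.1 ^ n + p.2 ^ n = c ^ k ∧ p.1 ≤ p.2}
    {p | Odd n ∧ p.1 ^ n + p.2 ^ n = c ^ k ∧ p.2 ≤ p.1}
  have := A.2
  have := B.2
  have := C.2
  omega

end Pool.FCS
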