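import Pool.Agent.Work.MP_2738db_S.Defs

set_option autoImplicit false

namespace Pool.FCS

open NumberField

theorem FLD_exi (N : ℕ) (n : ℕ) (s : ℤ) (hN : 1 ≤ N) (hn : 2 ≤ n) (hs : s = 1 ∨ s = -1)
    (hsq : n = 2 → s = -1 → ¬ IsSquare N) :
    ∃ z : ℂ, z ^ n = -(s : ℂ) * (N : ℂ) ∧ ∀ q : ℚ, z ≠ (q : ℂ) := by
  obtain ⟨w, hw⟩ := IsAlgClosed.exists_pow_nat_eq (-(s : ℂ) * (N : ℂ)) (show 0 < n by omega)
  have hs0 : (s : ℂ) ≠ 0 := by rcases hs with rfl | rfl <;> norm_num
  have hN0 : (N : ℂ) ≠ 0 := Nat.cast_ne_zero.2 (by omega)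
  have hw0 : w ≠ 0 := by
    rintro rfl
    rw [zero_pow (by omega)] at hw
    exact (mul_ne_zero (neg_ne_zero.2 hs0) hN0) hw.symm
  by_cases h2 : n = 2
  · subst h2
    refine ⟨w, hw, ?_⟩
    rintro q rfl
    have h3 : q ^ 2 = -(s : ℚ) * (N : ℚ) := by exact_mod_cast hw
    have hNq : (1 : ℚ) ≤ N := by exact_mod_cast hN
    rcases hs with rfl | rfl
    · have := sq_nonneg q
      rw [h3] at this
      push_cast at this
      linarith
    · refine hsq rfl rfl ?_
      rw [← Rat.isSquare_natCast_iff]
      refine ⟨q, ?_⟩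
      push_cast at h3
      nlinarith
  · by_cases him : w.im = 0
    · have hζ := Complex.isPrimitiveRoot_exp n (by omega)
      set ζ := Complex.exp (2 * Real.pi * Complex.I / n) with hζ0
      refine ⟨w * ζ, ?_, ?_⟩
      · rw [mul_pow, hζ.pow_eq_one, mul_one, hw]
      · intro q hq
        have e0 : (w * ζ).im = 0 := by
          rw [hq]
          exact Complex.ratCast_im q
        rw [Complex.mul_im, him, zero_mul, add_zero] at e0
        have e1 : w.re ≠ 0 := by
          intro h
          exact hw0 (Complex.ext h him)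
        have e2 : ζ.im = 0 := by
          rcases mul_eq_zero.1 e0 with h | h
          · exact absurd h e1
          · exact h
        have e3 : ‖ζ‖ = 1 := Complex.norm_eq_one_of_pow_eq_one hζ.pow_eq_one (by omega)
        have e4 : ζ ^ 2 = 1 := by
          have e5 : Complex.normSq ζ = 1 := by
            rw [Complex.normSq_eq_norm_sq, e3, one_pow]
          rw [Complex.normSq_apply, e2, mul_zero, add_zero] at e5
          refine Complex.ext ?_ ?_
          · rw [sq, Complex.mul_re, e2, mul_zero, sub_zero, e5]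
            rfl
          · rw [sq, Complex.mul_im, e2, mul_zero, zero_mul, add_zero]
            rfl
        have e5 := Nat.le_of_dvd (by norm_num) (hζ.dvd_of_pow_eq_one 2 e4)
        omega
    · refine ⟨w, hw, ?_⟩
      rintro q rfl
      exact him (Complex.ratCast_im q)

theorem p_FLD : S_FLD := by
  intro c n r s hc hn hr hs hsq
  obtain ⟨z, hz, hzq⟩ := FLD_exi (c ^ r) n s (Nat.one_le_pow _ _ (by omega)) hn hs hsq
  have hzi : IsIntegral ℤ z := by
    refine IsIntegral.of_pow (show 0 < n by omega) ?_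
    rw [hz]
    have : (-(s : ℂ) * ((c ^ r : ℕ) : ℂ)) = ((-s * ((c ^ r : ℕ) : ℤ) : ℤ) : ℂ) := by push_cast; ring
    rw [this]
    exact isIntegral_algebraMap (A := ℂ) (x := (-s * ((c ^ r : ℕ) : ℤ) : ℤ))
  have hzq' : IsIntegral ℚ z := hzi.tower_top
  have hfd : FiniteDimensional ℚ (IntermediateField.adjoin ℚ {z}) :=
    IntermediateField.adjoin.finiteDimensional hzq'
  have hNF : NumberField (IntermediateField.adjoin ℚ {z}) := ⟨⟩
  set g : IntermediateField.adjoin ℚ {z} := IntermediateField.AdjoinSimple.gen ℚ z with hg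
  have hgz : (g : ℂ) = z := IntermediateField.AdjoinSimple.coe_gen ℚ z
  have hgi : IsIntegral ℤ g := by
    have hinj : Function.Injective (algebraMap (IntermediateField.adjoin ℚ {z}) ℂ) :=
      (algebraMap (IntermediateField.adjoin ℚ {z}) ℂ).injective
    refine (isIntegral_algebraMap_iff hinj).1 ?_
    exact hzi
  refine ⟨IntermediateField.adjoin ℚ {z}, inferInstance, hNF, ⟨g, hgi⟩, ?_⟩
  refine ⟨hc, hn, hr, hs, ?_, ?_, ?_, ?_⟩
  · apply RingOfIntegers.ext
    apply Subtype.ext
    have : (g : ℂ) ^ n = -(s : ℂ) * (c : ℂ) ^ r := by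
      rw [hgz, hz]
      push_cast
      ring
    simpa using this
  · intro q hq
    refine hzq q ?_
    have h1 : ((g : IntermediateField.adjoin ℚ {z}) : ℂ) =
        (((q : IntermediateField.adjoin ℚ {z})) : ℂ) := congrArg Subtype.val hq
    rw [hgz] at h1
    simpa using h1
  · have h1 := (IntermediateField.adjoin.powerBasis hzq').adjoin_gen_eq_top
    rw [IntermediateField.adjoin.powerBasis_gen] at h1
    exact IntermediateField.adjoin_eq_top_of_algebra ℚ _ h1
  · rw [IntermediateField.adjoin.finrank hzq']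
    set p : Polynomial ℚ := Polynomial.X ^ n + Polynomial.C ((s : ℚ) * (c : ℚ) ^ r) with hp
    have hpm : p.Monic := Polynomial.monic_X_pow_add_C _ (by omega)
    have hp0 : Polynomial.aeval z p = 0 := by
      rw [hp]
      simp only [map_add, map_pow, Polynomial.aeval_X, Polynomial.aeval_C, map_mul]
      rw [hz]
      simp
    have h2 := minpoly.min ℚ z hpm hp0
    have h3 := Polynomial.natDegree_le_natDegree h2
    rwa [hp, Polynomial.natDegree_X_pow_add_C] at h3

end Pool.FCS
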