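import Pool.Agent.Work.MP_2738db_S.Defs

set_option autoImplicit false

namespace Pool.FCS

open NumberField

theorem p_GAM : S_GAM := by
  intro K _ _ a m t x y x' ρ hm ht hx hxy hx'
  have hx0 : (x : K) ≠ 0 := by
    intro h
    exact hx (RingOfIntegers.coe_eq_zero_iff.1 h)
  have ht2 : (t : K) * t = 1 := by
    rcases ht with rfl | rfl <;> norm_num
  have hK : (x : K) * y = (t : K) * (a : K) ^ m := by
    have := congrArg (fun z : 𝓞 K => (z : K)) hxy
    simpa using this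
  have hc : ((((t : 𝓞 K) * y * x' : 𝓞 K)) : K) = (t : K) * y * x' := by
    simp
  have key : ((a : K) * ρ) ^ m = ((((t : 𝓞 K) * y * x' : 𝓞 K)) : K) := by
    apply mul_left_cancel₀ hx0
    have e1 : (x : K) * ((a : K) * ρ) ^ m = (a : K) ^ m * x' := by
      rw [hx', mul_pow]; ring
    have e2 : (a : K) ^ m = t * (x * y) := by
      rw [hK, ← mul_assoc, ht2, one_mul]
    rw [e1, e2, hc]
    ring
  have hint : IsIntegral ℤ ((a : K) * ρ) := by
    apply IsIntegral.of_pow (n := m) (by omega)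
    rw [key]
    exact RingOfIntegers.isIntegral_coe _
  obtain ⟨γ, hγ⟩ : ∃ γ : 𝓞 K, (γ : K) = (a : K) * ρ := ⟨⟨(a : K) * ρ, hint⟩, rfl⟩
  refine ⟨γ, hγ, ?_⟩
  apply RingOfIntegers.ext
  rw [← key, ← hγ]
  exact map_pow (algebraMap (𝓞 K) K) γ m

end Pool.FCS
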