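import Mathlib

/-!
# The number of ideals of given norm in a number field

`ideal_count`: at most `d ^ (Nat.log 2 M)` ideals have norm `M` (`d` the degree of the field).
`ideal_count_le`: at most `Y * d ^ (Nat.log 2 Y)` nonzero ideals have norm at most `Y`.
-/

set_option autoImplicit false

namespace Pool.Agent.FCS.IdealCount

open Ideal NumberField Module

variable (K : Type*) [Field K] [NumberField K]

/-- The primes over `p`. -/
def overP (p : ℕ) : Set (Ideal (𝓞 K)) := {P | P.IsMaximal ∧ P.under ℤ = .span {(p : ℤ)}}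

theorem overP_card (p : ℕ) (hp : p.Prime) :
    (overP K p).Finite ∧ (overP K p).ncard ≤ finrank ℚ K := by
  classical
  haveI : Fact p.Prime := ⟨hp⟩
  haveI : (Ideal.span {(p : ℤ)}).IsMaximal := Int.ideal_span_isMaximal_of_prime p
  have hp0 : (Ideal.span {(p : ℤ)}) ≠ ⊥ := by
    rw [Ne, Ideal.span_singleton_eq_bot]
    exact_mod_cast hp.ne_zero
  have hsub : overP K p ⊆ (IsDedekindDomain.primesOverFinset (Ideal.span {(p : ℤ)}) (𝓞 K) :
      Set (Ideal (𝓞 K))) := by
    intro P hP
    rw [Finset.mem_coe, IsDedekindDomain.mem_primesOverFinset_iff hp0]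
    exact ⟨hP.1.isPrime, ⟨hP.2.symm⟩⟩
  refine ⟨(Finset.finite_toSet _).subset hsub, ?_⟩
  refine (Set.ncard_le_ncard hsub (Finset.finite_toSet _)).trans ?_
  rw [Set.ncard_coe_finset]
  exact Ideal.card_primesOverFinset_le_finrank (𝓞 K) ℚ K hp0

theorem finrank_pos' : 1 ≤ finrank ℚ K := finrank_pos

theorem ideal_count (M : ℕ) (hM : 1 ≤ M) :
    {I : Ideal (𝓞 K) | absNorm I = M}.Finite ∧
      {I : Ideal (𝓞 K) | absNorm I = M}.ncard ≤ finrank ℚ K ^ Nat.log 2 M := by
  classical
  refine ⟨Ideal.finite_setOfPred_absNorm_eq M, ?_⟩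
  induction M using Nat.strong_induction_on with
  | _ M ih =>
  rcases Nat.lt_or_ge M 2 with h | h
  · obtain rfl : M = 1 := by omega
    have : {I : Ideal (𝓞 K) | absNorm I = 1} = {⊤} := by
      ext I
      simp [Ideal.absNorm_eq_one_iff]
    rw [this]
    simp
  · set p := M.minFac with hp
    have hpp : p.Prime := Nat.minFac_prime (by omega)
    have hpM : p ∣ M := Nat.minFac_dvd M
    obtain ⟨hfin, hcard⟩ := overP_card K p hpp
    have hlog : 1 ≤ Nat.log 2 M := by
      rw [← Nat.log_pow (b := 2) (by norm_num) 1]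
      exact Nat.log_mono_right (by simpa using h)
    let T : Ideal (𝓞 K) → Set (Ideal (𝓞 K)) := fun P => {I | absNorm I = M ∧ P ∣ I}
    have hTfin : ∀ P, (T P).Finite := fun P =>
      (Ideal.finite_setOfPred_absNorm_eq M).subset fun I hI => hI.1
    have hT : ∀ P ∈ overP K p, (T P).ncard ≤ finrank ℚ K ^ (Nat.log 2 M - 1) := by
      intro P hP
      rcases Set.eq_empty_or_nonempty (T P) with he | ⟨I₀, hI₀⟩
      · rw [he]; simp
      · obtain ⟨J₀, hJ₀⟩ := hI₀.2
        have hprod : absNorm P * absNorm J₀ = M := by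
          rw [← map_mul, ← hJ₀, hI₀.1]
        have hP1 : absNorm P ≠ 1 := by
          intro h1
          exact hP.1.ne_top (Ideal.absNorm_eq_one_iff.mp h1)
        have hP0 : absNorm P ≠ 0 := by
          intro h0; rw [h0] at hprod; omega
        have hP2 : 2 ≤ absNorm P := by omega
        have hMP : M / absNorm P = absNorm J₀ := by
          rw [← hprod]; exact Nat.mul_div_cancel_left _ (by omega)
        have hJ1 : 1 ≤ M / absNorm P := by
          rw [hMP]
          rcases Nat.eq_zero_or_pos (absNorm J₀) with h0 | h0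
          · rw [h0] at hprod; omega
          · exact h0
        have hlt : M / absNorm P < M := Nat.div_lt_self (by omega) hP2
        have hsub : T P ⊆ (fun J => P * J) '' {J : Ideal (𝓞 K) | absNorm J = M / absNorm P} := by
          rintro I ⟨hI1, J, rfl⟩
          refine ⟨J, ?_, rfl⟩
          show absNorm J = M / absNorm P
          rw [← hI1, map_mul]
          exact (Nat.mul_div_cancel_left _ (by omega)).symm
        have hfJ : {J : Ideal (𝓞 K) | absNorm J = M / absNorm P}.Finite :=
          Ideal.finite_setOfPred_absNorm_eq _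
        refine (Set.ncard_le_ncard hsub (hfJ.image _)).trans ?_
        refine (Set.ncard_image_le hfJ).trans ?_
        refine (ih _ hlt hJ1).trans ?_
        refine Nat.pow_le_pow_right (finrank_pos' K) ?_
        have h2 : Nat.log 2 (M / absNorm P) ≤ Nat.log 2 (M / 2) :=
          Nat.log_mono_right (Nat.div_le_div_left hP2 (by norm_num))
        rw [Nat.log_div_base] at h2
        exact h2
    have hcover : {I : Ideal (𝓞 K) | absNorm I = M} ⊆ ⋃ P ∈ hfin.toFinset, T P := by
      intro I hI
      obtain ⟨P, h1, h2, h3⟩ := Ideal.exists_isMaximal_dvd_of_dvd_absNorm' hpp I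
        (by rw [show absNorm I = M from hI]; exact hpM)
      simp only [Set.mem_iUnion, Set.Finite.mem_toFinset]
      exact ⟨P, ⟨h1, h2⟩, hI, h3⟩
    have hUfin : (⋃ P ∈ hfin.toFinset, T P).Finite :=
      Set.Finite.biUnion (Finset.finite_toSet _) fun P _ => hTfin P
    refine (Set.ncard_le_ncard hcover hUfin).trans ?_
    have hstep : (⋃ P ∈ hfin.toFinset, T P).ncard ≤ ∑ P ∈ hfin.toFinset, (T P).ncard := by
      have key : ∀ s : Finset (Ideal (𝓞 K)), (⋃ P ∈ s, T P).ncard ≤ ∑ P ∈ s, (T P).ncard := by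
        intro s
        induction s using Finset.induction_on with
        | empty => simp
        | insert a s ha ih2 =>
          rw [Finset.set_biUnion_insert, Finset.sum_insert ha]
          exact (Set.ncard_union_le _ _).trans (Nat.add_le_add_left ih2 _)
      exact key _
    refine hstep.trans ?_
    calc ∑ P ∈ hfin.toFinset, (T P).ncard
        ≤ ∑ _P ∈ hfin.toFinset, finrank ℚ K ^ (Nat.log 2 M - 1) :=
          Finset.sum_le_sum fun P hP => hT P (by simpa using hP)
      _ = hfin.toFinset.card * finrank ℚ K ^ (Nat.log 2 M - 1) := by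
          rw [Finset.sum_const, smul_eq_mul]
      _ ≤ finrank ℚ K * finrank ℚ K ^ (Nat.log 2 M - 1) := by
          refine Nat.mul_le_mul_right _ ?_
          rw [← Set.ncard_eq_toFinset_card _ hfin]
          exact hcard
      _ = finrank ℚ K ^ Nat.log 2 M := by
          rw [← pow_succ', Nat.sub_add_cancel hlog]

theorem ideal_count_le (Y : ℕ) :
    {I : Ideal (𝓞 K) | I ≠ ⊥ ∧ absNorm I ≤ Y}.Finite ∧
      {I : Ideal (𝓞 K) | I ≠ ⊥ ∧ absNorm I ≤ Y}.ncard ≤ Y * finrank ℚ K ^ Nat.log 2 Y := by
  classical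
  refine ⟨(Ideal.finite_setOfPred_absNorm_le Y).subset fun I hI => hI.2, ?_⟩
  have hcover : {I : Ideal (𝓞 K) | I ≠ ⊥ ∧ absNorm I ≤ Y} ⊆
      ⋃ M ∈ Finset.Icc 1 Y, {I : Ideal (𝓞 K) | absNorm I = M} := by
    rintro I ⟨h1, h2⟩
    simp only [Set.mem_iUnion, Finset.mem_Icc]
    refine ⟨absNorm I, ⟨?_, h2⟩, rfl⟩
    rcases Nat.eq_zero_or_pos (absNorm I) with h0 | h0
    · exact absurd (Ideal.absNorm_eq_zero_iff.mp h0) h1
    · exact h0
  have hUfin : (⋃ M ∈ Finset.Icc 1 Y, {I : Ideal (𝓞 K) | absNorm I = M}).Finite :=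
    Set.Finite.biUnion (Finset.finite_toSet _) fun M _ => Ideal.finite_setOfPred_absNorm_eq M
  refine (Set.ncard_le_ncard hcover hUfin).trans ?_
  have key : ∀ s : Finset ℕ, (⋃ M ∈ s, {I : Ideal (𝓞 K) | absNorm I = M}).ncard ≤
      ∑ M ∈ s, {I : Ideal (𝓞 K) | absNorm I = M}.ncard := by
    intro s
    induction s using Finset.induction_on with
    | empty => simp
    | insert a s ha ih2 =>
      rw [Finset.set_biUnion_insert, Finset.sum_insert ha]
      exact (Set.ncard_union_le _ _).trans (Nat.add_le_add_left ih2 _)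
  refine (key _).trans ?_
  calc ∑ M ∈ Finset.Icc 1 Y, {I : Ideal (𝓞 K) | absNorm I = M}.ncard
      ≤ ∑ _M ∈ Finset.Icc 1 Y, finrank ℚ K ^ Nat.log 2 Y := by
        refine Finset.sum_le_sum fun M hM => ?_
        rw [Finset.mem_Icc] at hM
        refine (ideal_count K M hM.1).2.trans ?_
        exact Nat.pow_le_pow_right (finrank_pos' K) (Nat.log_mono_right hM.2)
    _ = Y * finrank ℚ K ^ Nat.log 2 Y := by
        rw [Finset.sum_const, smul_eq_mul, Nat.card_Icc]
        simp

end Pool.Agent.FCS.IdealCount
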