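import Pool.Agent.Work.MP_2738db_S.Defs
import Pool.Agent.Work.MP_2738db_S.IdealCount

set_option autoImplicit false

namespace Pool.FCS

open NumberField

theorem p_IDC (_h1 : S_IDM) : S_IDC := fun K _ _ Y _ =>
  Pool.Agent.FCS.IdealCount.ideal_count_le K Y

end Pool.FCS
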