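import Mathlib

/-!
# Lifting lemma

`lift`: if `y` is invertible modulo `c`, `c ^ 2 ∣ d` and `c ^ j ∣ (y + d) ^ m - y ^ m`, then
`c ^ j ∣ m * d` (in any domain of characteristic zero).
-/

set_option autoImplicit false

namespace Pool.Agent.FCS.Lift

open Finset

theorem coprime_part (c : ℕ) : ∀ i : ℕ, 1 ≤ i → ∃ u : ℕ, 0 < u ∧ u.Coprime c ∧
    i ∣ u * c ^ (i - 1) := by
  intro i
  induction i using Nat.strong_induction_on with
  | _ i ih =>
  intro hi
  by_cases h : i.Coprime c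
  · exact ⟨i, hi, h, dvd_mul_right _ _⟩
  · have hg : i.gcd c ≠ 1 := h
    obtain ⟨p, hp, hpg⟩ := Nat.exists_prime_and_dvd hg
    obtain ⟨i', rfl⟩ := hpg.trans (Nat.gcd_dvd_left i c)
    obtain ⟨c', hc'⟩ := hpg.trans (Nat.gcd_dvd_right (p * i') c)
    have hi' : 1 ≤ i' := by
      rcases Nat.eq_zero_or_pos i' with h0 | h0
      · subst h0; simp at hi
      · exact h0
    have hlt : i' < p * i' := by nlinarith [hp.two_le]
    obtain ⟨u, hu0, hu, hd⟩ := ih i' hlt hi'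
    refine ⟨u, hu0, hu, ?_⟩
    have h1 : p * i' ∣ u * c ^ i' := by
      have h2 : p * i' ∣ c * (u * c ^ (i' - 1)) :=
        Nat.mul_dvd_mul ⟨c', hc'⟩ hd
      have h3 : c * (u * c ^ (i' - 1)) = u * c ^ i' := by
        obtain ⟨s, rfl⟩ : ∃ s, i' = s + 1 := ⟨i' - 1, by omega⟩
        rw [Nat.add_sub_cancel, pow_succ]
        ring
      rwa [h3] at h2
    exact h1.trans (Nat.mul_dvd_mul_left _ (pow_dvd_pow _ (by omega)))

variable {A : Type*} [CommRing A]

theorem inv_pow (c z z' : A) (h : c ∣ z * z' - 1) (j : ℕ) : ∃ z'' : A, c ^ j ∣ z * z'' - 1 := by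
  obtain ⟨t, ht⟩ := h
  refine ⟨z' * ∑ i ∈ range j, (-(c * t)) ^ i, ?_⟩
  have h1 : z * z' = 1 - -(c * t) := by linear_combination ht
  have h2 : (1 - -(c * t)) * ∑ i ∈ range j, (-(c * t)) ^ i = 1 - (-(c * t)) ^ j := by
    rw [mul_comm]
    exact geom_sum_mul_neg _ _
  rw [← mul_assoc, h1, h2]
  refine ⟨-((-t) ^ j), ?_⟩
  rw [show -(c * t) = c * (-t) by ring, mul_pow]
  ring

theorem expand (m : ℕ) (y d : A) : (y + d) ^ (m + 1) - y ^ (m + 1) =
    (m + 1 : ℕ) * d * y ^ m + ∑ i ∈ range m, d ^ (i + 2) * y ^ (m - 1 - i) *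
      ((m + 1).choose (i + 2) : ℕ) := by
  rw [add_comm y d, add_pow, sum_range_succ', sum_range_succ']
  simp only [Nat.choose_zero_right, pow_zero, Nat.sub_zero, one_mul, Nat.cast_one, mul_one,
    zero_add, Nat.choose_one_right, pow_one]
  have h : ∀ i ∈ range m, d ^ (i + 1 + 1) * y ^ (m + 1 - (i + 1 + 1)) *
      ((m + 1).choose (i + 1 + 1) : A) = d ^ (i + 2) * y ^ (m - 1 - i) *
      (((m + 1).choose (i + 2) : ℕ) : A) := by
    intro i _
    rw [show m + 1 - (i + 1 + 1) = m - 1 - i by omega]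
  rw [sum_congr rfl h, Nat.add_sub_cancel]
  ring

theorem lift [IsDomain A] [CharZero A] (c : ℕ) (y y' d : A) (m j : ℕ)
    (hy : (c : A) ∣ y * y' - 1) (hd : (c : A) ^ 2 ∣ d)
    (h : (c : A) ^ j ∣ (y + d) ^ m - y ^ m) : (c : A) ^ j ∣ m * d := by
  rcases Nat.eq_zero_or_pos m with hm | hm
  · subst hm; simp
  obtain ⟨m, rfl⟩ : ∃ s, m = s + 1 := ⟨m - 1, by omega⟩
  obtain ⟨e, rfl⟩ := hd
  choose u hu0 hu hud using fun i : ℕ => coprime_part c (i + 2) (by omega)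
  set U : ℕ := ∏ i ∈ range m, u i with hU
  have hUc : U.Coprime c := Nat.Coprime.prod_left fun i _ => hu i
  have hUd : ∀ i ∈ range m, ∃ q : ℕ, U * c ^ (2 * (i + 1)) = c * ((i + 2) * q) := by
    intro i hi
    obtain ⟨s, hs⟩ := dvd_prod_of_mem u hi
    obtain ⟨q, hq⟩ := hud i
    refine ⟨s * q * c ^ i, ?_⟩
    have h1 : u i * c ^ (i + 1) = (i + 2) * q := hq
    have hs' : U = u i * s := hs
    calc U * c ^ (2 * (i + 1)) = (u i * c ^ (i + 1)) * s * (c ^ i * c) := by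
          rw [hs', two_mul, pow_add, ← pow_succ]; ring
      _ = c * ((i + 2) * (s * q * c ^ i)) := by rw [h1]; ring
  choose! q hq using hUd
  have key : (U : A) * ((y + (c : A) ^ 2 * e) ^ (m + 1) - y ^ (m + 1)) =
      ((m + 1 : ℕ) : A) * ((c : A) ^ 2 * e) * ((U : A) * y ^ m +
        c * ∑ i ∈ range m, (q i : A) * (m.choose (i + 1) : ℕ) * e ^ (i + 1) * y ^ (m - 1 - i)) := by
    rw [expand, mul_add, mul_add (((m + 1 : ℕ) : A) * ((c : A) ^ 2 * e)), mul_sum, mul_sum, mul_sum]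
    congr 1
    · ring
    · refine sum_congr rfl fun i hi => ?_
      have h2 : ((i + 2 : ℕ) : A) ≠ 0 := by exact_mod_cast (by omega : i + 2 ≠ 0)
      apply mul_left_cancel₀ h2
      have hch : ((m + 1 : ℕ) : A) * (m.choose (i + 1) : ℕ) =
          ((m + 1).choose (i + 2) : ℕ) * ((i + 2 : ℕ) : A) := by
        have := Nat.add_one_mul_choose_eq m (i + 1)
        exact_mod_cast this
      have hq' : (U : A) * (c : A) ^ (2 * (i + 1)) = c * (((i + 2 : ℕ) : A) * q i) := by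
        exact_mod_cast congrArg (Nat.cast : ℕ → A) (hq i hi)
      have e1 : ((c : A) ^ 2 * e) ^ (i + 2) = (c : A) ^ 2 * e * ((c : A) ^ (2 * (i + 1)) *
          e ^ (i + 1)) := by
        rw [pow_succ, mul_pow ((c : A) ^ 2) e (i + 1), ← pow_mul]
        ring
      rw [e1]
      calc ((i + 2 : ℕ) : A) * (U * ((c : A) ^ 2 * e * ((c : A) ^ (2 * (i + 1)) * e ^ (i + 1)) *
            y ^ (m - 1 - i) * ((m + 1).choose (i + 2) : ℕ)))
          = (((m + 1).choose (i + 2) : ℕ) * ((i + 2 : ℕ) : A)) * (U * (c : A) ^ (2 * (i + 1))) *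
            ((c : A) ^ 2 * e) * e ^ (i + 1) * y ^ (m - 1 - i) := by ring
        _ = _ := by rw [← hch, hq']; ring
  set w : A := ∑ i ∈ range m, (q i : A) * (m.choose (i + 1) : ℕ) * e ^ (i + 1) * y ^ (m - 1 - i)
    with hw
  -- the bracket is invertible modulo `c`
  obtain ⟨a, b, hab⟩ : ∃ a b : ℤ, a * U + b * c = 1 := by
    have := Int.isCoprime_iff_gcd_eq_one.mpr (show Int.gcd (U : ℤ) (c : ℤ) = 1 by
      simpa using hUc)
    obtain ⟨a, b, hab⟩ := this
    exact ⟨a, b, hab⟩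
  have habA : (a : A) * U + b * c = 1 := by exact_mod_cast congrArg (Int.cast : ℤ → A) hab
  obtain ⟨t, ht⟩ := hy
  have hy1 : (c : A) ∣ (y * y') ^ m - 1 := by
    have : y * y' - 1 ∣ (y * y') ^ m - 1 ^ m := sub_dvd_pow_sub_pow _ _ _
    rw [one_pow] at this
    exact (Dvd.intro t ht.symm).trans this
  obtain ⟨t', ht'⟩ := hy1
  have hinv : (c : A) ∣ ((U : A) * y ^ m + c * w) * (a * y' ^ m) - 1 := by
    refine ⟨w * (a * y' ^ m) + a * U * t' - b, ?_⟩
    have h3 : y ^ m * y' ^ m = 1 + c * t' := by rw [← mul_pow]; linear_combination ht'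
    linear_combination (a : A) * U * h3 + habA
  obtain ⟨z, hz⟩ := inv_pow _ _ _ hinv j
  have h5 : (c : A) ^ j ∣ ((m + 1 : ℕ) : A) * ((c : A) ^ 2 * e) * ((U : A) * y ^ m + c * w) := by
    rw [← key]
    exact dvd_mul_of_dvd_right h _
  have h6 : ((m + 1 : ℕ) : A) * ((c : A) ^ 2 * e) =
      ((m + 1 : ℕ) : A) * ((c : A) ^ 2 * e) * ((U : A) * y ^ m + c * w) * z -
      ((m + 1 : ℕ) : A) * ((c : A) ^ 2 * e) * (((U : A) * y ^ m + c * w) * z - 1) := by ring
  rw [h6]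
  exact dvd_sub (dvd_mul_of_dvd_left h5 _) (dvd_mul_of_dvd_right hz _)

end Pool.Agent.FCS.Lift
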