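import Pool.Agent.Work.MP_2738db_S.Defs
import Pool.Agent.Work.MP_2738db_S.Lift

set_option autoImplicit false

namespace Pool.FCS

theorem p_LTE : S_LTE := by
  intro R _ _ _ c q m y d _ _ hy hd h
  obtain ⟨a, b, hab⟩ := hy
  refine Pool.Agent.FCS.Lift.lift c y a d m q ⟨-b, ?_⟩ hd h
  linear_combination hab

end Pool.FCS
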