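import Pool.Agent.Work.MP_2738db_S.Defs

set_option autoImplicit false

namespace Pool.FCS

open NumberField

namespace X_OMG

variable {K : Type} [Field K] [NumberField K] {c n r : ℕ} {s : ℤ} {θ : 𝓞 K}

lemma rootK (h : Fld K c n r s θ) : (θ : K) ^ n = -(s : K) * (c : K) ^ r := by
  have := congrArg (algebraMap (𝓞 K) K) h.root
  simpa using this

lemma pow_eq (h : Fld K c n r s θ) (i : ℕ) :
    ((θ : K) ^ i / (c : K) ^ (r * i / n)) ^ n = (((-s) ^ i * (c : ℤ) ^ (r * i % n) : ℤ) : K) := by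
  have hc : (c : K) ≠ 0 := Nat.cast_ne_zero.2 (by have := h.hc; omega)
  rw [div_pow, ← pow_mul, mul_comm i n, pow_mul, rootK h, mul_pow, ← pow_mul, ← pow_mul]
  rw [div_eq_iff (pow_ne_zero _ hc)]
  push_cast
  have e : r * i = r * i % n + r * i / n * n := by
    rw [mul_comm (r * i / n) n]
    exact (Nat.mod_add_div (r * i) n).symm
  conv_lhs => rw [e, pow_add]
  ring

lemma integral (h : Fld K c n r s θ) (i : ℕ) :
    IsIntegral ℤ ((θ : K) ^ i / (c : K) ^ (r * i / n)) := by
  have hn : 0 < n := by have := h.hn; omega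
  refine IsIntegral.of_pow hn ?_
  rw [pow_eq h i]
  exact isIntegral_algebraMap (R := ℤ) (A := K)

/-- the small elements -/
noncomputable def om (h : Fld K c n r s θ) (i : ℕ) : 𝓞 K :=
  ⟨(θ : K) ^ i / (c : K) ^ (r * i / n), integral h i⟩

lemma om_coe (h : Fld K c n r s θ) (i : ℕ) :
    (om h i : K) = (θ : K) ^ i / (c : K) ^ (r * i / n) := rfl

lemma norm_le (h : Fld K c n r s θ) (i : ℕ) (σ : K →+* ℂ) : ‖σ (om h i : K)‖ ≤ c := by
  have hn : 0 < n := by have := h.hn; omega
  have hc1 : (1 : ℝ) ≤ c := by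
    have := h.hc
    exact_mod_cast (by omega : 1 ≤ c)
  have h1 : ‖σ (om h i : K)‖ ^ n = (c : ℝ) ^ (r * i % n) := by
    rw [← norm_pow, ← map_pow, om_coe, pow_eq h i, map_intCast]
    push_cast
    rw [norm_mul, norm_pow, norm_pow, Complex.norm_natCast]
    have hs : ‖(-(s : ℂ))‖ = 1 := by
      rcases h.hs with h1 | h1 <;> rw [h1] <;> simp
    rw [hs, one_pow, one_mul]
  have h2 : ‖σ (om h i : K)‖ ^ n ≤ (c : ℝ) ^ n := by
    rw [h1]
    exact pow_le_pow_right₀ hc1 (Nat.mod_lt _ hn).le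
  exact le_of_pow_le_pow_left₀ hn.ne' (by positivity) h2

lemma deg_eq (h : Fld K c n r s θ) :
    Module.finrank ℚ K = (minpoly ℚ (θ : K)).natDegree := by
  have hi : IsIntegral ℚ (θ : K) := Algebra.IsIntegral.isIntegral _
  rw [← IntermediateField.adjoin.finrank hi, h.gen, IntermediateField.finrank_top']

lemma linIndep (h : Fld K c n r s θ) :
    LinearIndependent ℤ (fun i : Fin (Module.finrank ℚ K) => om h i) := by
  have hc : (c : ℚ) ≠ 0 := Nat.cast_ne_zero.2 (by have := h.hc; omega)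
  have h1 := linearIndependent_pow (K := ℚ) (θ : K)
  have h2 := h1.comp (Fin.cast (deg_eq h)) (Fin.cast_injective (deg_eq h))
  have h3 := h2.units_smul
    (fun i : Fin (Module.finrank ℚ K) => Units.mk0 (((c : ℚ) ^ (r * (i : ℕ) / n))⁻¹)
      (inv_ne_zero (pow_ne_zero _ hc)))
  have h4 : LinearIndependent ℚ (fun i : Fin (Module.finrank ℚ K) => (om h i : K)) := by
    have e : (fun i : Fin (Module.finrank ℚ K) => (om h i : K)) =
        (fun i : Fin (Module.finrank ℚ K) => Units.mk0 (((c : ℚ) ^ (r * (i : ℕ) / n))⁻¹)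
          (inv_ne_zero (pow_ne_zero _ hc))) •
          ((fun i : Fin (minpoly ℚ (θ : K)).natDegree => (θ : K) ^ (i : ℕ)) ∘
            Fin.cast (deg_eq h)) := by
      funext i
      show _ = ((c : ℚ) ^ (r * (i : ℕ) / n))⁻¹ • ((θ : K) ^ (i : ℕ))
      rw [om_coe, Algebra.smul_def, div_eq_inv_mul]
      simp
    rw [e]
    exact h3
  have h5 : LinearIndependent ℤ (fun i : Fin (Module.finrank ℚ K) => (om h i : K)) := by
    refine h4.restrict_scalars ?_
    intro a b hab
    simpa using hab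
  have h6 : LinearIndependent ℤ ((Algebra.linearMap (𝓞 K) K).restrictScalars ℤ ∘
      fun i : Fin (Module.finrank ℚ K) => om h i) := h5
  exact h6.of_comp _

end X_OMG

theorem p_OMG : S_OMG := by
  intro K _ _ c n r s θ h
  exact ⟨fun i => X_OMG.om h i, X_OMG.linIndep h, fun i σ => X_OMG.norm_le h i σ⟩

end Pool.FCS
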