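import Pool.Agent.Work.MP_2738db_S.Defs

set_option autoImplicit false

namespace Pool.FCS

open NumberField

theorem p_PA1 (h1 : S_COF) (h2 : S_GAM) (h3 : S_LTE) : S_PA1 := by
  intro K _ _ c n s θ m k t a b a' b' ρ γ hm hF hS hS' hx hγ hdvd σ τ
  obtain ⟨hxy, -, hy2, -, hx0, -, -, -, -⟩ := h1 K c n (k % n) s θ m k t a b rfl hF hS
  obtain ⟨-, -, -, hx2, -, -, -, -, -⟩ := h1 K c n (k % n) s θ m k t a' b' rfl hF hS'
  obtain ⟨γ', hγ', hγm⟩ := h2 K a m t _ _ (xel θ c (k / n) b') ρ hm hS.ht hx0 hxy hx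
  have hgg : γ' = γ := RingOfIntegers.coe_injective (hγ'.trans hγ.symm)
  rw [hgg] at hγm
  obtain ⟨u, hu⟩ := hy2
  obtain ⟨v, hv⟩ := hx2
  obtain ⟨w1, hw1⟩ := hdvd
  set q := k / n with hq
  set X' := xel θ c q b' with hX'
  set Y := yel θ c q b n with hY
  have hYe : Y = (b : 𝓞 K) ^ (n - 1) + (c : 𝓞 K) ^ q * u := by rw [← hu]; ring
  have hXe : X' = (b' : 𝓞 K) + (c : 𝓞 K) ^ q * v := by rw [← hv]; ring
  have hge : γ = (a : 𝓞 K) + (c : 𝓞 K) ^ 2 * w1 := by rw [← hw1]; ring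
  have hgm : γ ^ m = (t : 𝓞 K) * (b : 𝓞 K) ^ (n - 1) * (b' : 𝓞 K) + (c : 𝓞 K) ^ q *
      ((t : 𝓞 K) * ((b : 𝓞 K) ^ (n - 1) * v + u * (b' : 𝓞 K) + (c : 𝓞 K) ^ q * u * v)) := by
    rw [hγm, hYe, hXe]
    ring
  set w0 := (t : 𝓞 K) * ((b : 𝓞 K) ^ (n - 1) * v + u * (b' : 𝓞 K) + (c : 𝓞 K) ^ q * u * v)
    with hw0
  have hac : IsCoprime (a : 𝓞 K) (c : 𝓞 K) := by
    have h4 : IsCoprime (a : ℤ) (c : ℤ) := Nat.isCoprime_iff_coprime.2 hS.hac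
    have h5 := h4.map (Int.castRingHom (𝓞 K))
    simpa using h5
  have hgc : IsCoprime γ (c : 𝓞 K) := by
    rw [hge, pow_two, mul_assoc]
    exact hac.add_mul_left_left _
  let S : 𝓞 K →+* 𝓞 ℂ := RingOfIntegers.mapRingHom σ
  let T : 𝓞 K →+* 𝓞 ℂ := RingOfIntegers.mapRingHom τ
  have hScoe : ∀ z : 𝓞 K, ((S z : 𝓞 ℂ) : ℂ) = σ (z : K) := fun z => rfl
  have hTcoe : ∀ z : 𝓞 K, ((T z : 𝓞 ℂ) : ℂ) = τ (z : K) := fun z => rfl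
  have k1 : IsCoprime (T γ) ((c : ℕ) : 𝓞 ℂ) := by
    have := hgc.map T
    simpa using this
  have k2 : ((c : ℕ) : 𝓞 ℂ) ^ 2 ∣ S γ - T γ := by
    refine ⟨S w1 - T w1, ?_⟩
    rw [hge]
    simp only [map_add, map_mul, map_pow, map_natCast]
    ring
  have k3 : ((c : ℕ) : 𝓞 ℂ) ^ q ∣ (T γ + (S γ - T γ)) ^ m - (T γ) ^ m := by
    refine ⟨S w0 - T w0, ?_⟩
    have e : T γ + (S γ - T γ) = S γ := by ring
    rw [e, ← map_pow, ← map_pow, hgm]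
    simp only [map_add, map_mul, map_pow, map_natCast, map_intCast]
    ring
  obtain ⟨w, hw⟩ := h3 (𝓞 ℂ) c q m (T γ) (S γ - T γ) hm hF.hc k1 k2 k3
  refine ⟨(w : ℂ), RingOfIntegers.isIntegral_coe w, ?_⟩
  have h6 := congrArg (algebraMap (𝓞 ℂ) ℂ) hw
  simp only [map_mul, map_sub, map_pow, map_natCast] at h6
  rw [Nat.cast_pow]
  exact h6

end Pool.FCS
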