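import Pool.Agent.Work.MP_2738db_S.Defs

/-! # Block PA2 -/

namespace Pool.FCS

open NumberField

theorem PA2_coe {K : Type} [Field K] [NumberField K] (θ : 𝓞 K) (c q b : ℕ) :
    ((xel θ c q b : 𝓞 K) : K) = (b : K) - (c : K) ^ q * (θ : K) := by
  unfold xel
  push_cast
  rfl

theorem p_PA2 (h1 : S_PA1) (h2 : S_TRC) : S_PA2 := by
  intro K _ _ c n s θ m k t a b a' b' ρ γ hm hF hS hS' hx hγ hd hlt
  have hc : 1 ≤ c ^ (k / n) := Nat.one_le_pow _ _ (by have := hF.hc; omega)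
  obtain ⟨z, hz⟩ := h2 K γ m (c ^ (k / n)) hm hc
    (h1 K c n s θ m k t a b a' b' ρ γ hm hF hS hS' hx hγ hd) hlt
  have ha : (a : K) ≠ 0 := by
    have := hS.ha
    exact_mod_cast (by omega : a ≠ 0)
  have hρ : ρ = (z : K) / (a : K) := by
    rw [eq_div_iff ha, mul_comm, ← hγ, hz]
  obtain ⟨l, hl⟩ : ∃ l : ℚ, l = ((z : ℚ) / (a : ℚ)) ^ m := ⟨_, rfl⟩
  have hl' : ρ ^ m = (l : K) := by
    rw [hρ, hl]
    push_cast
    rfl
  rw [hl', PA2_coe, PA2_coe] at hx
  have hcK : (c : K) ^ (k / n) ≠ 0 := by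
    apply pow_ne_zero
    have := hF.hc
    exact_mod_cast (by omega : c ≠ 0)
  by_cases hl1 : l = 1
  · rw [hl1] at hx
    push_cast at hx
    have h3 : (b' : K) = (b : K) := by linear_combination hx
    exact_mod_cast h3.symm
  · exfalso
    apply hF.irr ((l * b - b') / ((l - 1) * (c : ℚ) ^ (k / n)))
    have hl2 : (l : K) - 1 ≠ 0 := by
      intro h
      apply hl1
      have h3 : (l : K) = ((1 : ℚ) : K) := by
        push_cast
        linear_combination h
      exact_mod_cast h3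
    push_cast
    rw [eq_div_iff (mul_ne_zero hl2 hcK)]
    linear_combination hx

end Pool.FCS
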