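import Pool.Agent.Work.MP_2738db_S.Defs

set_option autoImplicit false

/-! # THEOREM S, block PIG: small elements of ideals -/

namespace Pool.FCS

open NumberField

theorem PIG_exists_H (d M : ℕ) (hd : 1 ≤ d) : ∃ H : ℕ, H ^ d ≤ M ∧ M < (H + 1) ^ d ∨
    (M = 0 ∧ H = 0) := by
  classical
  have hex : ∃ h : ℕ, M < (h + 1) ^ d :=
    ⟨M, (Nat.lt_succ_self M).trans_le (Nat.le_self_pow (by omega) _)⟩
  rcases Nat.eq_zero_or_pos M with h0 | h0
  · exact ⟨0, Or.inr ⟨h0, rfl⟩⟩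
  · refine ⟨Nat.find hex, Or.inl ⟨?_, Nat.find_spec hex⟩⟩
    rcases Nat.eq_zero_or_pos (Nat.find hex) with h1 | h1
    · rw [h1, zero_pow (by omega)]
      exact Nat.zero_le _
    · have h2 := Nat.find_min hex (m := Nat.find hex - 1) (by omega)
      have h3 : Nat.find hex - 1 + 1 = Nat.find hex := by omega
      rw [h3] at h2
      exact not_lt.1 h2

theorem PIG_norm (K : Type) [Field K] [NumberField K] (α : 𝓞 K) (B : ℝ) (_hB : 0 ≤ B)
    (h : ∀ σ : K →+* ℂ, ‖σ (α : K)‖ ≤ B) :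
    (Ideal.absNorm (Ideal.span {α}) : ℝ) ≤ B ^ Module.finrank ℚ K := by
  classical
  rw [Ideal.absNorm_span_singleton]
  have h1 : (((Algebra.norm ℤ α).natAbs : ℕ) : ℝ) =
      ‖(algebraMap ℚ ℂ (Algebra.norm ℚ (α : K)))‖ := by
    rw [← Algebra.coe_norm_int]
    simp [Nat.cast_natAbs]
  rw [h1, Algebra.norm_eq_prod_embeddings ℚ ℂ (α : K), norm_prod]
  calc ∏ σ : K →ₐ[ℚ] ℂ, ‖σ (α : K)‖ ≤ ∏ _σ : K →ₐ[ℚ] ℂ, B :=
        Finset.prod_le_prod (fun _ _ => norm_nonneg _) (fun σ _ => h σ.toRingHom)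
    _ = B ^ Module.finrank ℚ K := by
        rw [Finset.prod_const, Finset.card_univ, AlgHom.card]

theorem p_PIG : S_PIG := by
  classical
  intro K _ _ c ω hc hlin hω A hA
  have hd1 : 1 ≤ (Module.finrank ℚ K) := Module.finrank_pos
  have hM : Ideal.absNorm A ≠ 0 := by
    rw [Ne, Ideal.absNorm_eq_zero_iff]
    exact hA
  obtain ⟨H, hH⟩ := PIG_exists_H (Module.finrank ℚ K) (Ideal.absNorm A) hd1
  have hH' : H ^ (Module.finrank ℚ K) ≤ Ideal.absNorm A ∧ Ideal.absNorm A < (H + 1) ^ (Module.finrank ℚ K) := by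
    rcases hH with h | h
    · exact h
    · exact absurd h.1 hM
  have hfin : Finite (𝓞 K ⧸ A) := by
    apply Nat.finite_of_card_ne_zero
    have := hM
    rw [Ideal.absNorm_apply, Submodule.cardQuot_apply] at this
    exact this
  have hft : Fintype (𝓞 K ⧸ A) := Fintype.ofFinite _
  have hcard : Fintype.card (𝓞 K ⧸ A) = Ideal.absNorm A := by
    rw [Ideal.absNorm_apply, Submodule.cardQuot_apply, Nat.card_eq_fintype_card]
  obtain ⟨h, h', hne, heq⟩ := Fintype.exists_ne_map_eq_of_card_lt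
    (fun h : Fin (Module.finrank ℚ K) → Fin (H + 1) => Ideal.Quotient.mk A (∑ i, ((h i : ℕ) : ℤ) • ω i)) (by
      rw [hcard, Fintype.card_fun, Fintype.card_fin, Fintype.card_fin]
      exact hH'.2)
  rw [Ideal.Quotient.eq, ← Finset.sum_sub_distrib] at heq
  have hα : (∑ i, (((h i : ℕ) : ℤ) • ω i - ((h' i : ℕ) : ℤ) • ω i)) =
      ∑ i, (((h i : ℕ) : ℤ) - ((h' i : ℕ) : ℤ)) • ω i :=
    Finset.sum_congr rfl (fun i _ => by rw [sub_smul])
  rw [hα] at heq
  have hg : ∀ i, |(((h i : ℕ) : ℤ) - ((h' i : ℕ) : ℤ))| ≤ H := by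
    intro i
    have h1 := (h i).2
    have h2 := (h' i).2
    rw [abs_le]
    omega
  generalize hgdef : (fun i => ((h i : ℕ) : ℤ) - ((h' i : ℕ) : ℤ)) = g at heq hg
  have hgi : ∀ i, ((h i : ℕ) : ℤ) - ((h' i : ℕ) : ℤ) = g i := fun i => congrFun hgdef i
  simp only [hgi] at heq hg
  have hne0 : ∑ i, g i • ω i ≠ 0 := by
    intro h0
    have h1 := Fintype.linearIndependent_iff.1 hlin g h0
    apply hne
    funext i
    have h2 := hgi i
    rw [h1 i] at h2
    apply Fin.ext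
    omega
  refine ⟨∑ i, g i • ω i, heq, hne0, ?_⟩
  have hB : ∀ σ : K →+* ℂ, ‖σ ((∑ i, g i • ω i : 𝓞 K) : K)‖ ≤ ((Module.finrank ℚ K : ℕ) : ℝ) * H * c := by
    intro σ
    have e1 : ((∑ i, g i • ω i : 𝓞 K) : K) = ∑ i, (g i : K) * (ω i : K) := by
      simp only [RingOfIntegers.coe_eq_algebraMap, map_sum, zsmul_eq_mul, map_mul, map_intCast]
    rw [e1, map_sum]
    refine (norm_sum_le _ _).trans ?_
    have : ∀ i ∈ (Finset.univ : Finset (Fin (Module.finrank ℚ K))), ‖σ ((g i : K) * (ω i : K))‖ ≤ (H : ℝ) * c := by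
      intro i _
      rw [map_mul, norm_mul, map_intCast]
      have h1 : ‖((g i : ℤ) : ℂ)‖ ≤ H := by
        rw [Complex.norm_intCast]
        exact_mod_cast hg i
      exact mul_le_mul h1 (hω i σ) (norm_nonneg _) (Nat.cast_nonneg _)
    refine (Finset.sum_le_sum this).trans ?_
    rw [Finset.sum_const, Finset.card_univ, Fintype.card_fin, nsmul_eq_mul, mul_assoc]
  have h3 := PIG_norm K _ (((Module.finrank ℚ K : ℕ) : ℝ) * H * c) (by positivity) hB
  have h4 : (((Module.finrank ℚ K : ℕ) : ℝ) * H * c) ^ (Module.finrank ℚ K) ≤ (((Module.finrank ℚ K) * c) ^ (Module.finrank ℚ K) * Ideal.absNorm A : ℕ) := by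
    have h5 : ((H ^ (Module.finrank ℚ K) : ℕ) : ℝ) ≤ (Ideal.absNorm A : ℝ) := by exact_mod_cast hH'.1
    push_cast at h5 ⊢
    calc (((Module.finrank ℚ K : ℕ) : ℝ) * H * c) ^ (Module.finrank ℚ K) = (((Module.finrank ℚ K : ℕ) : ℝ) * c) ^ (Module.finrank ℚ K) * (H : ℝ) ^ (Module.finrank ℚ K) := by
          rw [← mul_pow]; congr 1; ring
      _ ≤ _ := by gcongr
  exact_mod_cast h3.trans h4

end Pool.FCS
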