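import Pool.Agent.Work.MP_2738db_S.Defs

set_option autoImplicit false

/-! # MP_2738db_nt, THEOREM S, block QCG -/

namespace Pool.FCS

open NumberField

theorem QCG_dvd (c k y : ℕ) (h : y ^ 2 = c ^ k) : c ^ (k / 2) ∣ y := by
  rw [← Nat.pow_dvd_pow_iff (two_ne_zero), h, ← pow_mul]
  exact pow_dvd_pow c (by omega)

theorem QCG_cop (m c e₁ e₂ : ℕ) (h : E2 m e₁ e₂) (he : Even c → e₁ = 1 ∧ e₂ = 1) :
    Nat.Coprime (e₁ * e₂) c := by
  rcases Nat.even_or_odd c with hc | hc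
  · obtain ⟨h1, h2⟩ := he hc
    rw [h1, h2]
    simp
  · have h2 : Nat.Coprime 2 c := Nat.coprime_two_left.mpr hc
    rcases h with ⟨a, b⟩ | ⟨a, b⟩ | ⟨a, b⟩
    · rw [a, b]
      simp
    · rw [a, b]
      exact Nat.Coprime.mul_left h2 (h2.pow_left _)
    · rw [a, b]
      exact Nat.Coprime.mul_left (h2.pow_left _) h2

/-- BLOCK QCG -/
theorem p_QCG (h1 : S_LTE) : S_QCG := by
  intro m c k y t b b' e₁ e₂ u v u' v' hm hc hy ht h h' hdvd
  have hQy : ((c : ℤ) ^ (k / 2)) ∣ (y : ℤ) := by exact_mod_cast QCG_dvd c k y hy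
  have hX : ((c : ℤ) ^ (k / 2)) ∣ (e₂ : ℤ) * (v : ℤ) ^ m - t * e₁ * (u : ℤ) ^ m := by
    rw [← h.minus, ← h.plus]
    have : (b : ℤ) + y - (b - y) = y * 2 := by ring
    rw [this]
    exact Dvd.dvd.mul_right hQy 2
  have hX' : ((c : ℤ) ^ (k / 2)) ∣ (e₂ : ℤ) * (v' : ℤ) ^ m - t * e₁ * (u' : ℤ) ^ m := by
    rw [← h'.minus, ← h'.plus]
    have : (b' : ℤ) + y - (b' - y) = y * 2 := by ring
    rw [this]
    exact Dvd.dvd.mul_right hQy 2
  have hcross : ((c : ℤ) ^ (k / 2)) ∣ (((u : ℤ) * v' + (v * u' - u * v')) ^ m - ((u : ℤ) * v') ^ m) *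
      (t * (e₁ * e₂)) := by
    have h2 : (((u : ℤ) * v' + (v * u' - u * v')) ^ m - ((u : ℤ) * v') ^ m) * (t * (e₁ * e₂)) =
        ((e₂ : ℤ) * (v : ℤ) ^ m - t * e₁ * (u : ℤ) ^ m) * (t * e₁ * (u' : ℤ) ^ m) -
        ((e₂ : ℤ) * (v' : ℤ) ^ m - t * e₁ * (u' : ℤ) ^ m) * (t * e₁ * (u : ℤ) ^ m) := by
      have h3 : (u : ℤ) * v' + (v * u' - u * v') = v * u' := by ring
      rw [h3, mul_pow, mul_pow]
      ring
    rw [h2]
    exact dvd_sub (Dvd.dvd.mul_right hX _) (Dvd.dvd.mul_right hX' _)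
  have hco : IsCoprime ((c : ℤ) ^ (k / 2)) (t * ((e₁ : ℤ) * e₂)) := by
    refine IsCoprime.pow_left ?_
    refine IsCoprime.mul_right ?_ ?_
    · rcases ht with ht | ht
      · rw [ht]
        exact isCoprime_one_right
      · rw [ht]
        exact isCoprime_one_right.neg_right
    · have h4 : IsCoprime ((c : ℕ) : ℤ) ((e₁ * e₂ : ℕ) : ℤ) :=
        Nat.isCoprime_iff_coprime.mpr (QCG_cop m c e₁ e₂ h.e2 h.even).symm
      rwa [Nat.cast_mul] at h4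
  have hpow : ((c : ℤ) ^ (k / 2)) ∣
      (((u : ℤ) * v' + (v * u' - u * v')) ^ m - ((u : ℤ) * v') ^ m) :=
    hco.dvd_of_dvd_mul_right hcross
  have hyc : IsCoprime ((u : ℤ) * v') (c : ℤ) := by
    have h5 : IsCoprime ((u * v' : ℕ) : ℤ) ((c : ℕ) : ℤ) :=
      Nat.isCoprime_iff_coprime.mpr (Nat.Coprime.mul_left h.uc h'.vc)
    rwa [Nat.cast_mul] at h5
  exact_mod_cast h1 ℤ c (k / 2) m ((u : ℤ) * v') (v * u' - u * v') (by omega) hc
    (by exact_mod_cast hyc) (by exact_mod_cast hdvd) (by exact_mod_cast hpow)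

end Pool.FCS
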