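import Pool.Agent.Work.MP_2738db_S.Defs

set_option autoImplicit false

/-! # MP_2738db_nt, block ROL (helper54): distribution of the value triples -/

namespace Pool.FCS

open NumberField

theorem ROL_three {n k : ℕ} (hn : 2 ≤ n) (hk : 2 ≤ k)
    (h : (1 : ℚ) / n + 1 / n + 1 / k < 1) : 3 ≤ n := by
  by_contra h1
  have h2 : n = 2 := by omega
  subst h2
  have h3 : (0 : ℚ) < 1 / k := by
    have h4 : (0 : ℚ) < k := by
      have : 0 < k := by omega
      exact_mod_cast this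
    exact one_div_pos.2 h4
  norm_num at h
  rw [one_div] at h3
  linarith

theorem ROL_W1 {X K : ℝ} (i : Fin 6) (a b c m n k : ℕ) (s t : ℤ) (τ : ℕ × ℕ × ℕ) (hc : 2 ≤ c)
    (hcX : (c : ℝ) ≤ X ^ (1 / K)) (hn : 2 ≤ n) (hnm : n < m) (ha : 2 ≤ a) (hb : 1 ≤ b)
    (hk : 1 ≤ k) (hκ : (n : ℝ) ≤ 2 * K ^ ((1 : ℝ) / 3)) (hs : s = 1 ∨ s = -1)
    (ht : t = 1 ∨ t = -1) (hab : Nat.Coprime a b) (hac : Nat.Coprime a c)
    (heq : t * (a : ℤ) ^ m = (b : ℤ) ^ n + s * (c : ℤ) ^ k) (h1 : (a : ℝ) ^ m ≤ X)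
    (h2 : (b : ℝ) ^ n ≤ X) (h3 : (c : ℝ) ^ k ≤ X)
    (hτ : τ = perm6 i (a ^ m, b ^ n, c ^ k)) : τ ∈ W1 X K := by
  refine ⟨i, a, b, c, m, n, k, s, t, hc, hcX, hn, hnm, ha, hκ, ?_, hs, ht, hτ⟩
  exact ⟨hk, ⟨hs, ht, by omega, hb, hab, hac, heq⟩, h1, h2, h3⟩

theorem p_ROL : S_ROL := by
  intro X K hX hK τ hτ
  obtain ⟨a, b, c, m, n, k, ha, hb, hc, hab, hbc, hac, hm, hn, hk, hyp, heq, hcX, hsm, hτ⟩ := hτ
  have hz : (a : ℤ) ^ m + (b : ℤ) ^ n = (c : ℤ) ^ k := by exact_mod_cast heq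
  have hr : (a : ℝ) ^ m + (b : ℝ) ^ n = (c : ℝ) ^ k := by exact_mod_cast heq
  have ha0 : 0 ≤ (a : ℝ) ^ m := by positivity
  have hb0 : 0 ≤ (b : ℝ) ^ n := by positivity
  have haX : (a : ℝ) ^ m ≤ X := by linarith
  have hbX : (b : ℝ) ^ n ≤ X := by linarith
  have hκ : 1 ≤ K ^ ((1 : ℝ) / 3) := Real.one_le_rpow (by linarith) (by norm_num)
  rcases hsm with h | h | h
  · -- `a` is small
    rcases lt_trichotomy k n with h1 | h1 | h1
    · have h1r : (k : ℝ) ≤ n := by exact_mod_cast h1.le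
      by_cases h2 : K ^ ((1 : ℝ) / 3) ≤ (k : ℝ)
      · exact Or.inl (Or.inr ⟨a, b, c, m, n, k, ha, hb, hc, hab, hbc, hac, hm, hn, hk, heq, hcX,
          Or.inl ⟨h, by linarith, h2⟩, hτ⟩)
      · refine Or.inl (Or.inl (ROL_W1 3 b c a n k m (-1) 1 τ ha h hk h1 hb (by omega) (by omega)
          (by linarith) (Or.inr rfl) (Or.inl rfl) hbc hab.symm (by linarith) hbX hcX haX ?_))
        rw [hτ]
        rfl
    · subst h1
      have h3 : 3 ≤ k := by
        refine ROL_three hk hm ?_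
        linarith
      refine Or.inr ⟨5, c, b, a, k, m, ha, h, h3, hc, ⟨by omega, by omega, Or.inr ?_⟩, hcX, haX, ?_⟩
      · omega
      · rw [hτ]
        rfl
    · have h1r : (n : ℝ) ≤ k := by exact_mod_cast h1.le
      by_cases h2 : K ^ ((1 : ℝ) / 3) ≤ (n : ℝ)
      · exact Or.inl (Or.inr ⟨a, b, c, m, n, k, ha, hb, hc, hab, hbc, hac, hm, hn, hk, heq, hcX,
          Or.inl ⟨h, h2, by linarith⟩, hτ⟩)
      · refine Or.inl (Or.inl (ROL_W1 5 c b a k n m 1 1 τ ha h hn h1 hc (by omega) (by omega)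
          (by linarith) (Or.inl rfl) (Or.inl rfl) hbc.symm hac.symm (by linarith) hcX hbX haX ?_))
        rw [hτ]
        rfl
  · -- `b` is small
    rcases lt_trichotomy k m with h1 | h1 | h1
    · have h1r : (k : ℝ) ≤ m := by exact_mod_cast h1.le
      by_cases h2 : K ^ ((1 : ℝ) / 3) ≤ (k : ℝ)
      · exact Or.inl (Or.inr ⟨a, b, c, m, n, k, ha, hb, hc, hab, hbc, hac, hm, hn, hk, heq, hcX,
          Or.inr (Or.inl ⟨h, by linarith, h2⟩), hτ⟩)
      · refine Or.inl (Or.inl (ROL_W1 2 a c b m k n (-1) 1 τ hb h hk h1 ha (by omega) (by omega)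
          (by linarith) (Or.inr rfl) (Or.inl rfl) hac hab (by linarith) haX hcX hbX ?_))
        rw [hτ]
        rfl
    · subst h1
      have h3 : 3 ≤ k := by
        refine ROL_three hk hn ?_
        linarith
      refine Or.inr ⟨4, c, a, b, k, n, hb, h, h3, hc, ⟨by omega, by omega, Or.inr ?_⟩, hcX, hbX, ?_⟩
      · omega
      · rw [hτ]
        rfl
    · have h1r : (m : ℝ) ≤ k := by exact_mod_cast h1.le
      by_cases h2 : K ^ ((1 : ℝ) / 3) ≤ (m : ℝ)
      · exact Or.inl (Or.inr ⟨a, b, c, m, n, k, ha, hb, hc, hab, hbc, hac, hm, hn, hk, heq, hcX,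
          Or.inr (Or.inl ⟨h, h2, by linarith⟩), hτ⟩)
      · refine Or.inl (Or.inl (ROL_W1 4 c a b k m n 1 1 τ hb h hm h1 hc (by omega) (by omega)
          (by linarith) (Or.inl rfl) (Or.inl rfl) hac.symm hbc.symm (by linarith) hcX haX hbX ?_))
        rw [hτ]
        rfl
  · -- `c` is small
    rcases lt_trichotomy m n with h1 | h1 | h1
    · have h1r : (m : ℝ) ≤ n := by exact_mod_cast h1.le
      by_cases h2 : K ^ ((1 : ℝ) / 3) ≤ (m : ℝ)
      · exact Or.inl (Or.inr ⟨a, b, c, m, n, k, ha, hb, hc, hab, hbc, hac, hm, hn, hk, heq, hcX,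
          Or.inr (Or.inr ⟨h, h2, by linarith⟩), hτ⟩)
      · refine Or.inl (Or.inl (ROL_W1 1 b a c n m k (-1) (-1) τ hc h hm h1 hb (by omega) (by omega)
          (by linarith) (Or.inr rfl) (Or.inr rfl) hab.symm hbc (by linarith) hbX haX hcX ?_))
        rw [hτ]
        rfl
    · subst h1
      have h3 : 3 ≤ m := ROL_three hm hk hyp
      rcases Nat.even_or_odd m with h4 | h4
      · obtain ⟨l, hl⟩ := h4
        have h5 : (b ^ l) ^ 2 = b ^ m := by
          rw [← pow_mul, hl]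
          congr 1
          omega
        have h6 : ((b ^ l : ℕ) : ℤ) ^ 2 = (b : ℤ) ^ m := by exact_mod_cast h5
        have h7 : ((b ^ l : ℕ) : ℝ) ^ 2 = (b : ℝ) ^ m := by exact_mod_cast h5
        refine Or.inl (Or.inl (ROL_W1 0 a (b ^ l) c m 2 k (-1) (-1) τ hc h le_rfl h3 ha
          (Nat.one_le_pow _ _ (by omega)) (by omega) (by push_cast; linarith) (Or.inr rfl)
          (Or.inr rfl) (hab.pow_right l) hac ?_ haX ?_ hcX ?_))
        · rw [h6]
          linarith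
        · rw [h7]
          exact hbX
        · rw [hτ, h5]
          rfl
      · refine Or.inr ⟨0, a, b, c, m, k, hc, h, h3, ha,
          ⟨by omega, by omega, Or.inl ⟨h4, heq⟩⟩, haX, hcX, ?_⟩
        rw [hτ]
        rfl
    · have h1r : (n : ℝ) ≤ m := by exact_mod_cast h1.le
      by_cases h2 : K ^ ((1 : ℝ) / 3) ≤ (n : ℝ)
      · exact Or.inl (Or.inr ⟨a, b, c, m, n, k, ha, hb, hc, hab, hbc, hac, hm, hn, hk, heq, hcX,
          Or.inr (Or.inr ⟨h, by linarith, h2⟩), hτ⟩)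
      · refine Or.inl (Or.inl (ROL_W1 0 a b c m n k (-1) (-1) τ hc h hn h1 ha (by omega) (by omega)
          (by linarith) (Or.inr rfl) (Or.inr rfl) hab hac (by linarith) haX hbX hcX ?_))
        rw [hτ]
        rfl

end Pool.FCS
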