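import Pool.Agent.Work.MP_2738db_S.Defs

/-! Block ROT of MP_2738db_nt, THEOREM S (helper24). -/

set_option autoImplicit false

namespace Pool.FCS

open NumberField

theorem ROT_ne (m : ℕ) (z : ℂ) : rt m z ≠ 0 := Complex.exp_ne_zero _

theorem ROT_pow (m : ℕ) (hm : 1 ≤ m) (z : ℂ) (hz : z ≠ 0) : rt m z ^ m = z := by
  unfold rt
  rw [← Complex.exp_nat_mul]
  have h1 : (m : ℂ) ≠ 0 := by
    have : m ≠ 0 := by omega
    exact_mod_cast this
  rw [mul_div_cancel₀ _ h1, Complex.exp_log hz]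

/-- the type of the labels -/
abbrev ROT_T (K : Type) [Field K] [NumberField K] (m : ℕ) : Type :=
  (K →+* ℂ) → (Polynomial.nthRootsFinset m (1 : ℂ))

theorem ROT_card (K : Type) [Field K] [NumberField K] (m : ℕ) :
    Nat.card (ROT_T K m) ≤ m ^ Module.finrank ℚ K := by
  classical
  rw [Nat.card_eq_fintype_card, Fintype.card_fun, NumberField.Embeddings.card K ℂ,
    Fintype.card_coe]
  refine Nat.pow_le_pow_left ?_ _
  unfold Polynomial.nthRootsFinset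
  refine le_trans (Multiset.toFinset_card_le _) (Polynomial.card_nthRoots m 1)

theorem ROT_ex (K : Type) [Field K] [NumberField K] (m : ℕ) (x₀ ρ : K) (hm : 1 ≤ m)
    (hx : x₀ ≠ 0) (hρ : ρ ≠ 0) : ∃ w : ROT_T K m, ∀ σ : K →+* ℂ,
      σ ρ * rt m (σ x₀) = (w σ : ℂ) * rt m (σ (x₀ * ρ ^ m)) := by
  have h1 : ∀ σ : K →+* ℂ, σ ρ * rt m (σ x₀) / rt m (σ (x₀ * ρ ^ m)) ∈
      Polynomial.nthRootsFinset m (1 : ℂ) := by
    intro σ
    have h2 : σ x₀ ≠ 0 := (map_ne_zero σ).2 hx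
    have h3 : σ (x₀ * ρ ^ m) ≠ 0 := (map_ne_zero σ).2 (mul_ne_zero hx (pow_ne_zero _ hρ))
    rw [Polynomial.mem_nthRootsFinset (by omega), div_pow, mul_pow, ROT_pow m hm _ h2,
      ROT_pow m hm _ h3, map_mul, map_pow, mul_comm (σ ρ ^ m)]
    rw [map_mul, map_pow] at h3
    exact div_self h3
  refine ⟨fun σ => ⟨_, h1 σ⟩, fun σ => ?_⟩
  exact (div_mul_cancel₀ _ (ROT_ne m _)).symm

theorem p_ROT : S_ROT := by
  classical
  intro K _ _ m x₀ hm hx₀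
  have hx₀' : (x₀ : K) ≠ 0 := fun h => hx₀ (RingOfIntegers.coe_eq_zero_iff.1 h)
  let e : ROT_T K m ≃ Fin (Nat.card (ROT_T K m)) := Finite.equivFin _
  let Q : K → ROT_T K m → Prop := fun ρ w => ∀ σ : K →+* ℂ,
    σ ρ * rt m (σ (x₀ : K)) = (w σ : ℂ) * rt m (σ ((x₀ : K) * ρ ^ m))
  refine ⟨fun ρ => if h : ∃ w, Q ρ w then (e (Classical.choose h) : ℕ) else 0, ?_⟩
  intro x x' ρ ρ' hx hx' hxe hxe'
  have hρ : ∀ y : 𝓞 K, ∀ r : K, y ≠ 0 → (y : K) = (x₀ : K) * r ^ m → r ≠ 0 := by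
    intro y r hy hyr hr
    have h0 : (y : K) = 0 := by rw [hyr, hr, zero_pow (by omega), mul_zero]
    exact hy (RingOfIntegers.coe_eq_zero_iff.1 h0)
  have h1 : ∃ w, Q ρ w := ROT_ex K m x₀ ρ hm hx₀' (hρ x ρ hx hxe)
  have h2 : ∃ w, Q ρ' w := ROT_ex K m x₀ ρ' hm hx₀' (hρ x' ρ' hx' hxe')
  have s1 := Classical.choose_spec h1
  have s2 := Classical.choose_spec h2
  beta_reduce
  rw [dif_pos h1, dif_pos h2]
  refine ⟨lt_of_lt_of_le (e _).2 (ROT_card K m), fun hF σ => ?_⟩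
  have h3 : Classical.choose h1 = Classical.choose h2 := e.injective (Fin.ext hF)
  have t1 := s1 σ
  have t2 := s2 σ
  rw [h3, ← hxe] at t1
  rw [← hxe'] at t2
  have n1 : rt m (σ (x : K)) ≠ 0 := ROT_ne _ _
  have n2 : rt m (σ (x₀ : K)) ≠ 0 := ROT_ne _ _
  have n3 : σ ρ ≠ 0 := (map_ne_zero σ).2 (hρ x ρ hx hxe)
  have n4 : ((Classical.choose h2 σ : ℂ)) ≠ 0 := by
    intro h
    rw [h, zero_mul] at t1
    exact mul_ne_zero n3 n2 t1
  rw [map_div₀, div_eq_div_iff n3 n1]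
  have n5 : (Classical.choose h2 σ : ℂ) * rt m (σ (x₀ : K)) ≠ 0 := mul_ne_zero n4 n2
  apply mul_left_cancel₀ n5
  calc (Classical.choose h2 σ : ℂ) * rt m (σ (x₀ : K)) * (σ ρ' * rt m (σ (x : K)))
      = (σ ρ' * rt m (σ (x₀ : K))) * ((Classical.choose h2 σ : ℂ) * rt m (σ (x : K))) := by ring
    _ = ((Classical.choose h2 σ : ℂ) * rt m (σ (x' : K))) * (σ ρ * rt m (σ (x₀ : K))) := by
        rw [t2, ← t1]
    _ = (Classical.choose h2 σ : ℂ) * rt m (σ (x₀ : K)) * (rt m (σ (x' : K)) * σ ρ) := by ring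

end Pool.FCS
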