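import Pool.Agent.Work.MP_2738db_S.Defs

set_option autoImplicit false

/-! # THEOREM S, block SEL: classes modulo `m`-th powers -/

namespace Pool.FCS

open NumberField

theorem SEL_assoc (K : Type) [Field K] [NumberField K] (m : ℕ) (x x' α α' : 𝓞 K)
    (J R : Ideal (𝓞 K)) (hR : R ≠ ⊥) (h : Ideal.span {x} * R ^ m = J * Ideal.span {α} ^ m)
    (h' : Ideal.span {x'} * R ^ m = J * Ideal.span {α'} ^ m) :
    ∃ u : (𝓞 K)ˣ, x * α' ^ m * u = x' * α ^ m := by
  have h1 : Ideal.span {x * α' ^ m} * R ^ m = Ideal.span {x' * α ^ m} * R ^ m := by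
    rw [← Ideal.span_singleton_mul_span_singleton, ← Ideal.span_singleton_mul_span_singleton,
      ← Ideal.span_singleton_pow, ← Ideal.span_singleton_pow]
    calc _ = Ideal.span {x} * R ^ m * Ideal.span {α'} ^ m := by ring
      _ = J * Ideal.span {α'} ^ m * Ideal.span {α} ^ m := by rw [h]; ring
      _ = _ := by rw [← h']; ring
  have h2 : Ideal.span {x * α' ^ m} = Ideal.span {x' * α ^ m} :=
    mul_right_cancel₀ (pow_ne_zero m hR) h1
  exact Ideal.span_singleton_eq_span_singleton.1 h2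

theorem p_SEL (h1 : S_CLS) (h2 : S_UNT) : S_SEL := by
  classical
  intro K _ _ c n r s θ m hF hm
  obtain ⟨L, hL, hex⟩ := h1 K c n r s θ m hF hm
  obtain ⟨U, hU, hUex⟩ := h2 K m hm
  choose! P hPL hP2 α hα heq using hex
  let ref : Ideal (𝓞 K) × Ideal (𝓞 K) → 𝓞 K := fun p =>
    if h : ∃ x, Adm K n m x ∧ P x = p then h.choose else 0
  have href : ∀ x, Adm K n m x → Adm K n m (ref (P x)) ∧ P (ref (P x)) = P x := by
    intro x hx
    have hex2 : ∃ y, Adm K n m y ∧ P y = P x := ⟨x, hx, rfl⟩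
    have : ref (P x) = hex2.choose := dif_pos hex2
    rw [this]
    exact hex2.choose_spec
  have key : ∀ x, Adm K n m x → ∃ u₀ ∈ U, ∃ v : (𝓞 K)ˣ,
      x * (α (ref (P x))) ^ m * ((u₀ : 𝓞 K) * (v : 𝓞 K) ^ m) = ref (P x) * (α x) ^ m := by
    intro x hx
    obtain ⟨hr1, hr2⟩ := href x hx
    have e1 := heq x hx
    have e2 := heq _ hr1
    rw [hr2] at e2
    obtain ⟨u, hu⟩ := SEL_assoc K m x (ref (P x)) (α x) (α (ref (P x))) _ _ (hP2 x hx) e1 e2
    obtain ⟨u₀, hu₀, v, hv⟩ := hUex u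
    refine ⟨u₀, hu₀, v, ?_⟩
    rw [← hu, hv, Units.val_mul, Units.val_pow_eq_pow_val]
  choose! u₀ hu₀ v hv using key
  have hmem : ∀ x, Adm K n m x → (P x, u₀ x) ∈ L ×ˢ U := fun x hx =>
    Finset.mem_product.2 ⟨hPL x hx, hu₀ x hx⟩
  refine ⟨fun x => if h : (P x, u₀ x) ∈ L ×ˢ U then ((L ×ˢ U).equivFin ⟨_, h⟩ : ℕ) else 0,
    ?_, ?_⟩
  · intro x hx
    simp only
    rw [dif_pos (hmem x hx)]
    refine (Fin.is_lt _).trans_le ?_
    rw [Finset.card_product]
    refine Nat.mul_le_mul hL (hU.trans (Nat.pow_le_pow_right hm hF.deg))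
  · intro x y hx hy hxy
    simp only at hxy
    rw [dif_pos (hmem x hx), dif_pos (hmem y hy)] at hxy
    have e1 := (L ×ˢ U).equivFin.injective (Fin.ext hxy)
    have e2 : (P x, u₀ x) = (P y, u₀ y) := congrArg Subtype.val e1
    have e3 : P x = P y := congrArg Prod.fst e2
    have e4 : u₀ x = u₀ y := congrArg Prod.snd e2
    have hvx := hv x hx
    have hvy := hv y hy
    rw [← e3, ← e4] at hvy
    have hA := hα _ (href x hx).1
    generalize ref (P x) = z at hvx hvy hA
    have gx := congrArg (algebraMap (𝓞 K) K) hvx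
    have gy := congrArg (algebraMap (𝓞 K) K) hvy
    simp only [map_mul, map_pow] at gx gy
    have inj := RingOfIntegers.coe_injective (K := K)
    have nz : ∀ w : 𝓞 K, w ≠ 0 → (algebraMap (𝓞 K) K w) ≠ 0 := fun w hw h =>
      hw ((FaithfulSMul.algebraMap_injective (𝓞 K) K) (by rw [h, map_zero]))
    have n1 := nz _ (hα x hx)
    have n2 := nz _ (hα y hy)
    have n3 := nz _ hA
    have n4 := nz _ (Units.ne_zero (u₀ x))
    have n5 := nz _ (Units.ne_zero (v x))
    have n6 := nz _ (Units.ne_zero (v y))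
    refine ⟨algebraMap (𝓞 K) K (v x) * algebraMap (𝓞 K) K (α y) /
      (algebraMap (𝓞 K) K (α x) * algebraMap (𝓞 K) K (v y)), ?_⟩
    change algebraMap (𝓞 K) K y = algebraMap (𝓞 K) K x * _
    generalize algebraMap (𝓞 K) K x = X at *
    generalize algebraMap (𝓞 K) K y = Y at *
    generalize algebraMap (𝓞 K) K (α x) = ax at *
    generalize algebraMap (𝓞 K) K (α y) = ay at *
    generalize algebraMap (𝓞 K) K (α z) = az at *
    generalize algebraMap (𝓞 K) K z = Z at *
    generalize algebraMap (𝓞 K) K (u₀ x) = u at *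
    generalize algebraMap (𝓞 K) K (v x) = vx at *
    generalize algebraMap (𝓞 K) K (v y) = vy at *
    rw [div_pow, mul_div_assoc', eq_div_iff (pow_ne_zero m (mul_ne_zero n1 n6)), mul_pow, mul_pow]
    have hc : az ^ m * u ≠ 0 := mul_ne_zero (pow_ne_zero m n3) n4
    apply mul_left_cancel₀ hc
    calc az ^ m * u * (Y * (ax ^ m * vy ^ m)) = (Y * az ^ m * (u * vy ^ m)) * ax ^ m := by ring
      _ = (Z * ay ^ m) * ax ^ m := by rw [gy]
      _ = (Z * ax ^ m) * ay ^ m := by ring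
      _ = (X * az ^ m * (u * vx ^ m)) * ay ^ m := by rw [gx]
      _ = _ := by ring

end Pool.FCS
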