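import Pool.Agent.Work.MP_2738db_S.Defs

/-!
# Block SQF (helper41): all solutions in the square case
-/

set_option autoImplicit false

namespace Pool.FCS

/-- type of `(e₁, e₂)` -/
def SQF_ty (m e₁ e₂ : ℕ) : Fin 3 :=
  if e₁ = 1 ∧ e₂ = 1 then 0 else if e₁ = 2 ∧ e₂ = 2 ^ (m - 1) then 1 else 2

theorem SQF_ty_inj {m e₁ e₂ f₁ f₂ : ℕ} (h : E2 m e₁ e₂) (h' : E2 m f₁ f₂)
    (heq : SQF_ty m e₁ e₂ = SQF_ty m f₁ f₂) : e₁ = f₁ ∧ e₂ = f₂ := by
  unfold SQF_ty at heq
  by_cases h1 : e₁ = 1 ∧ e₂ = 1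
  · rw [if_pos h1] at heq
    by_cases h2 : f₁ = 1 ∧ f₂ = 1
    · exact ⟨h1.1.trans h2.1.symm, h1.2.trans h2.2.symm⟩
    · rw [if_neg h2] at heq
      split_ifs at heq <;> exact absurd heq (by decide)
  · rw [if_neg h1] at heq
    by_cases h2 : f₁ = 1 ∧ f₂ = 1
    · rw [if_pos h2] at heq
      split_ifs at heq <;> exact absurd heq (by decide)
    · rw [if_neg h2] at heq
      by_cases h3 : e₁ = 2 ∧ e₂ = 2 ^ (m - 1)
      · rw [if_pos h3] at heq
        by_cases h4 : f₁ = 2 ∧ f₂ = 2 ^ (m - 1)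
        · exact ⟨h3.1.trans h4.1.symm, h3.2.trans h4.2.symm⟩
        · rw [if_neg h4] at heq
          exact absurd heq (by decide)
      · rw [if_neg h3] at heq
        by_cases h4 : f₁ = 2 ∧ f₂ = 2 ^ (m - 1)
        · rw [if_pos h4] at heq
          exact absurd heq (by decide)
        · have h5 : e₁ = 2 ^ (m - 1) ∧ e₂ = 2 := by
            rcases h with h | h | h
            · exact absurd h h1
            · exact absurd h h3
            · exact h
          have h6 : f₁ = 2 ^ (m - 1) ∧ f₂ = 2 := by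
            rcases h' with h | h | h
            · exact absurd h h2
            · exact absurd h h4
            · exact h
          exact ⟨h5.1.trans h6.1.symm, h5.2.trans h6.2.symm⟩

/-- the box of `b` -/
def SQF_box (y b : ℕ) : ℕ := if b < 8 * y then 0 else 1 + Nat.log 2 b

theorem SQF_box_eq {y b b' : ℕ} (hb : 1 ≤ b) (hb' : 1 ≤ b') (h : SQF_box y b = SQF_box y b') :
    (b < 8 * y ∧ b' < 8 * y) ∨ (8 * y ≤ b ∧ 8 * y ≤ b' ∧ b ≤ 2 * b' ∧ b' ≤ 2 * b) := by
  unfold SQF_box at h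
  by_cases h1 : b < 8 * y
  · rw [if_pos h1] at h
    by_cases h2 : b' < 8 * y
    · exact Or.inl ⟨h1, h2⟩
    · rw [if_neg h2] at h; omega
  · rw [if_neg h1] at h
    by_cases h2 : b' < 8 * y
    · rw [if_pos h2] at h; omega
    · rw [if_neg h2] at h
      have h3 : Nat.log 2 b = Nat.log 2 b' := by omega
      have h4 := Nat.pow_log_le_self 2 (x := b) (by omega)
      have h5 := Nat.pow_log_le_self 2 (x := b') (by omega)
      have h6 := Nat.lt_pow_succ_log_self (b := 2) (by omega) b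
      have h7 := Nat.lt_pow_succ_log_self (b := 2) (by omega) b'
      rw [pow_succ] at h6 h7
      rw [← h3] at h5 h7
      right
      omega

theorem SQF_zmod {c u v u' v' : ℕ} (hc : 2 ≤ c) (hu : Nat.Coprime u c) (hu' : Nat.Coprime u' c)
    (h : (v : ZMod (c ^ 2)) * (u : ZMod (c ^ 2))⁻¹ = (v' : ZMod (c ^ 2)) * (u' : ZMod (c ^ 2))⁻¹) :
    (c : ℤ) ^ 2 ∣ (v : ℤ) * u' - u * v' := by
  have h1 : ((u : ZMod (c ^ 2)) * (u : ZMod (c ^ 2))⁻¹) = 1 :=
    ZMod.coe_mul_inv_eq_one u (hu.pow_right 2)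
  have h2 : ((u' : ZMod (c ^ 2)) * (u' : ZMod (c ^ 2))⁻¹) = 1 :=
    ZMod.coe_mul_inv_eq_one u' (hu'.pow_right 2)
  have h3 : (v : ZMod (c ^ 2)) * u' = u * v' := by
    calc (v : ZMod (c ^ 2)) * u'
        = ((v : ZMod (c ^ 2)) * (u : ZMod (c ^ 2))⁻¹) * (u * u') := by
          rw [show ((v : ZMod (c ^ 2)) * (u : ZMod (c ^ 2))⁻¹) * (u * u') =
            v * u' * (u * (u : ZMod (c ^ 2))⁻¹) by ring, h1, mul_one]
      _ = ((v' : ZMod (c ^ 2)) * (u' : ZMod (c ^ 2))⁻¹) * (u * u') := by rw [h]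
      _ = u * v' := by
          rw [show ((v' : ZMod (c ^ 2)) * (u' : ZMod (c ^ 2))⁻¹) * (u * u') =
            u * v' * (u' * (u' : ZMod (c ^ 2))⁻¹) by ring, h2, mul_one]
  have h4 : (((v : ℤ) * u' - u * v' : ℤ) : ZMod (c ^ 2)) = 0 := by
    push_cast
    rw [h3, sub_self]
  have h5 := (ZMod.intCast_zmod_eq_zero_iff_dvd _ (c ^ 2)).1 h4
  rwa [Nat.cast_pow] at h5

theorem p_SQF (h1 : S_QDC) (h2 : S_QCG) (h3 : S_QSZ) (h4 : S_QEN) : S_SQF := by
  classical
  intro c m k y t Z hc hm hk hy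
  have hy1 : 1 ≤ y := by
    rcases Nat.eq_zero_or_pos y with h | h
    · subst h
      have : 0 < c ^ k := pow_pos (by omega) k
      rw [← hy] at this
      simp at this
    · exact h
  set S : Set (ℕ × ℕ) := {p : ℕ × ℕ | Sol 2 m c k (-1) t p.1 p.2 ∧ p.2 ≤ Z} with hS
  -- `b` determines `a`
  have hinj : ∀ p ∈ S, ∀ p' ∈ S, p.2 = p'.2 → p = p' := by
    intro p hp p' hp' h
    have e1 := hp.1.eq
    have e2 := hp'.1.eq
    rw [h, ← e2] at e1
    have e3 : (p.1 : ℤ) ^ m = (p'.1 : ℤ) ^ m := by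
      rcases hp.1.ht with ht | ht
      · rw [ht] at e1; linarith
      · rw [ht] at e1; linarith
    have e4 : p.1 ^ m = p'.1 ^ m := by exact_mod_cast e3
    exact Prod.ext (Nat.pow_left_injective (by omega) e4) h
  have hfin : S.Finite := by
    refine Set.Finite.of_finite_image (f := Prod.snd) ?_ (fun p hp p' hp' h => hinj p hp p' hp' h)
    refine (Set.finite_Iic Z).subset ?_
    rintro _ ⟨p, hp, rfl⟩
    exact hp.2
  refine ⟨hfin, ?_⟩
  have hdec : ∀ p : ℕ × ℕ, ∃ d : ℕ × ℕ × ℕ × ℕ, p ∈ S →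
      Dcp m c y t p.2 d.1 d.2.1 d.2.2.1 d.2.2.2 := by
    intro p
    by_cases hp : p ∈ S
    · obtain ⟨e₁, e₂, u, v, h⟩ := h1 m c k y t p.1 p.2 hm hc hk hy hp.1
      exact ⟨(e₁, e₂, u, v), fun _ => h⟩
    · exact ⟨(0, 0, 0, 0), fun h => absurd h hp⟩
  choose d hd using hdec
  haveI : NeZero (c ^ 2) := ⟨by positivity⟩
  let lab : ℕ × ℕ → ℕ ⊕ (Fin 3 × ZMod (c ^ 2) × ℕ) := fun p =>
    if p.2 < Hb 2 m c then Sum.inl p.2
    else Sum.inr (SQF_ty m (d p).1 (d p).2.1,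
      ((d p).2.2.2 : ZMod (c ^ 2)) * ((d p).2.2.1 : ZMod (c ^ 2))⁻¹, SQF_box y p.2)
  let T : Finset (ℕ ⊕ (Fin 3 × ZMod (c ^ 2) × ℕ)) :=
    (Finset.range (Hb 2 m c)).disjSum
      (Finset.univ ×ˢ (Finset.univ ×ˢ Finset.range (Nat.log 2 Z + 2)))
  have hT : T.card = Hb 2 m c + 3 * c ^ 2 * (Nat.log 2 Z + 2) := by
    simp only [T, Finset.card_disjSum, Finset.card_range, Finset.card_product, Finset.card_univ,
      Fintype.card_fin, ZMod.card]
    ring
  rw [← hT, ← Set.ncard_coe_finset]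
  refine Set.ncard_le_ncard_of_injOn lab ?_ ?_ (Finset.finite_toSet T)
  · intro p hp
    rw [Finset.mem_coe]
    by_cases hb : p.2 < Hb 2 m c
    · simp only [lab, if_pos hb, T, Finset.inl_mem_disjSum, Finset.mem_range]
      exact hb
    · simp only [lab, if_neg hb, T, Finset.inr_mem_disjSum, Finset.mem_product, Finset.mem_univ,
        true_and, Finset.mem_range]
      unfold SQF_box
      split_ifs
      · omega
      · have := Nat.log_mono_right (b := 2) hp.2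
        omega
  · intro p hp p' hp' hl
    have key : ¬ p.2 < Hb 2 m c → ¬ p'.2 < Hb 2 m c → p.2 = p'.2 := by
      intro hb hb'
      simp only [lab, if_neg hb, if_neg hb', Sum.inr.injEq, Prod.mk.injEq] at hl
      obtain ⟨l1, l2, l3⟩ := hl
      have D := hd p hp
      have D' := hd p' hp'
      obtain ⟨l4, l5⟩ := SQF_ty_inj D.e2 D'.e2 l1
      rw [← l4, ← l5] at D'
      have ht := hp.1.ht
      have l6 := SQF_zmod hc D.uc D'.uc l2
      have l7 := SQF_box_eq hp.1.hb hp'.1.hb l3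
      have l8 := h2 m c k y t p.2 p'.2 _ _ _ _ _ _ hm hc hy ht D D' l6
      have l9 := h3 m c k y t p.2 p'.2 _ _ _ _ _ _ hm hc hy ht D D' (not_lt.1 hb) (not_lt.1 hb') l7
      have l10 : (m : ℤ) * (((d p).2.2.2 : ℤ) * (d p').2.2.1 - (d p).2.2.1 * (d p').2.2.2) = 0 := by
        refine Int.eq_zero_of_abs_lt_dvd l8 ?_
        rw [abs_mul, Nat.abs_cast]
        exact l9
      have l11 : ((d p).2.2.2 : ℤ) * (d p').2.2.1 - (d p).2.2.1 * (d p').2.2.2 = 0 := by
        rcases mul_eq_zero.1 l10 with h | h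
        · exfalso
          have : m = 0 := by exact_mod_cast h
          omega
        · exact h
      exact h4 m c y t p.2 p'.2 _ _ _ _ _ _ hy1 ht hm D D' (by linarith)
    by_cases hb : p.2 < Hb 2 m c
    · by_cases hb' : p'.2 < Hb 2 m c
      · simp only [lab, if_pos hb, if_pos hb', Sum.inl.injEq] at hl
        exact hinj p hp p' hp' hl
      · simp only [lab, if_pos hb, if_neg hb'] at hl
        exact absurd hl (by simp)
    · by_cases hb' : p'.2 < Hb 2 m c
      · simp only [lab, if_neg hb, if_pos hb'] at hl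
        exact absurd hl (by simp)
      · exact hinj p hp p' hp' (key hb hb')

end Pool.FCS
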