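import Pool.Agent.Work.MP_2738db_S.Defs

set_option autoImplicit false

/-! # Block SZ1: size, small `b` -/

namespace Pool.FCS

open NumberField

/-- all conjugates of `θ` have the same absolute value `c ^ (r / n)` -/
theorem SZ1_norm {K : Type} [Field K] [NumberField K] {c n r : ℕ} {s : ℤ} {θ : 𝓞 K}
    (h : Fld K c n r s θ) (σ : K →+* ℂ) : ‖σ (θ : K)‖ ^ n = (c : ℝ) ^ r := by
  have e1 : (θ : K) ^ n = -(s : K) * (c : K) ^ r := by
    have := congrArg (fun z : 𝓞 K => (z : K)) h.root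
    simpa using this
  have e2 := congrArg (fun z => ‖σ z‖) e1
  simp only [map_pow, map_mul, map_neg, map_intCast, map_natCast, norm_pow, norm_mul, norm_neg,
    Complex.norm_natCast] at e2
  rcases h.hs with hs | hs
  · rw [hs] at e2
    simpa using e2
  · rw [hs] at e2
    simpa using e2

/-- the value of `x` -/
theorem SZ1_xel {K : Type} [Field K] [NumberField K] (θ : 𝓞 K) (c q b : ℕ) (σ : K →+* ℂ) :
    σ (xel θ c q b : K) = (b : ℂ) - (c : ℂ) ^ q * σ (θ : K) := by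
  unfold xel
  simp

/-- the value of `y` -/
theorem SZ1_yel {K : Type} [Field K] [NumberField K] (θ : 𝓞 K) (c q b n : ℕ) (σ : K →+* ℂ) :
    σ (yel θ c q b n : K) =
      ∑ i ∈ Finset.range n, (b : ℂ) ^ i * ((c : ℂ) ^ q * σ (θ : K)) ^ (n - 1 - i) := by
  unfold yel
  simp

theorem SZ1_sum {n : ℕ} (hn : 1 ≤ n) {b T : ℝ} (hb : 0 ≤ b) (hT : 0 ≤ T) :
    ∑ i ∈ Finset.range n, b ^ i * T ^ (n - 1 - i) ≤ (b + T) ^ (n - 1) := by
  obtain ⟨N, rfl⟩ : ∃ N, n = N + 1 := ⟨n - 1, by omega⟩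
  rw [Nat.add_sub_cancel, add_pow]
  apply Finset.sum_le_sum
  intro i hi
  have h1 : i ≤ N := by
    have := Finset.mem_range.1 hi
    omega
  have h2 : (1 : ℝ) ≤ (N.choose i : ℝ) := by
    exact_mod_cast Nat.choose_pos h1
  have h3 : 0 ≤ b ^ i * T ^ (N - i) := by positivity
  calc b ^ i * T ^ (N - i) = b ^ i * T ^ (N - i) * 1 := (mul_one _).symm
    _ ≤ b ^ i * T ^ (N - i) * (N.choose i : ℝ) := mul_le_mul_of_nonneg_left h2 h3

theorem SZ1_real {n m : ℕ} (hnm : n < m) {A T G : ℝ} (hA : 1 ≤ A) (hT : 0 < T)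
    (hG : G ^ m ≤ (9 * T) ^ n) (_hG0 : 0 ≤ G) (h : T < A * G) : T < A ^ (n + 1) * 9 ^ n := by
  obtain ⟨D, rfl⟩ : ∃ D, m = n + D := ⟨m - n, by omega⟩
  have hD : D ≠ 0 := by omega
  have hD1 : 1 ≤ D := by omega
  have h1 : T ^ (n + D) < (A * G) ^ (n + D) := pow_lt_pow_left₀ h hT.le (by omega)
  have h2 : (A * G) ^ (n + D) ≤ A ^ (n + D) * (9 * T) ^ n := by
    rw [mul_pow]
    exact mul_le_mul_of_nonneg_left hG (by positivity)
  have h3 : T ^ D < A ^ (n + D) * 9 ^ n := by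
    have h4 : T ^ n * T ^ D < T ^ n * (A ^ (n + D) * 9 ^ n) := by
      calc T ^ n * T ^ D = T ^ (n + D) := (pow_add _ _ _).symm
        _ < A ^ (n + D) * (9 * T) ^ n := lt_of_lt_of_le h1 h2
        _ = T ^ n * (A ^ (n + D) * 9 ^ n) := by rw [mul_pow]; ring
    exact lt_of_mul_lt_mul_left h4 (by positivity)
  have h5 : A ^ (n + D) ≤ A ^ ((n + 1) * D) := by
    apply pow_le_pow_right₀ hA
    nlinarith
  have h6 : (9 : ℝ) ^ n ≤ 9 ^ (n * D) := by
    apply pow_le_pow_right₀ (by norm_num)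
    nlinarith
  have h7 : T ^ D < (A ^ (n + 1) * 9 ^ n) ^ D := by
    rw [mul_pow, ← pow_mul, ← pow_mul]
    exact lt_of_lt_of_le h3 (mul_le_mul h5 h6 (by positivity) (by positivity))
  exact lt_of_pow_lt_pow_left₀ D (by positivity) h7

theorem SZ1_num {n : ℕ} {A T : ℝ} (hA : 0 ≤ A) (h : (48 * A) ^ (n + 1) < 8 * T) :
    A ^ (n + 1) * 9 ^ n ≤ T := by
  have h1 : (9 : ℝ) ^ n ≤ 48 ^ n := pow_le_pow_left₀ (by norm_num) (by norm_num) n
  have h2 : (48 * A) ^ (n + 1) = 48 * 48 ^ n * A ^ (n + 1) := by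
    rw [mul_pow]
    ring
  have h3 : (0 : ℝ) ≤ A ^ (n + 1) := by positivity
  have h4 : A ^ (n + 1) * 9 ^ n ≤ A ^ (n + 1) * 48 ^ n := mul_le_mul_of_nonneg_left h1 h3
  have h5 : 0 ≤ A ^ (n + 1) * 48 ^ n := by positivity
  rw [h2] at h
  nlinarith

theorem p_SZ1 (h1 : S_COF) (h2 : S_GAM) : S_SZ1 := by
  intro K _ _ c n s θ m k t a b a' b' ρ γ hnm hF hS hS' hρ hγ hHb hb hb' σ τ
  have hn := hF.hn
  have hc := hF.hc
  have hn0 : n ≠ 0 := by omega
  have hm1 : 1 ≤ m := by omega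
  have hc1 : (1 : ℝ) ≤ c := by exact_mod_cast (by omega : 1 ≤ c)
  have hc2 : (1 : ℝ) < c := by exact_mod_cast (by omega : 1 < c)
  have hc0 : (0 : ℝ) < c := by linarith
  obtain ⟨hxy, -, -, -, hx0, -, -, -, -⟩ := h1 K c n (k % n) s θ m k t a b rfl hF hS
  obtain ⟨γ', hγ', hpow⟩ := h2 K a m t (xel θ c (k / n) b) (yel θ c (k / n) b n)
    (xel θ c (k / n) b') ρ hm1 hS.ht hx0 hxy hρ
  have hγγ : γ' = γ := by
    apply RingOfIntegers.ext
    rw [hγ', hγ]
  rw [hγγ] at hpow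
  -- the number `T`
  set T : ℝ := (c : ℝ) ^ (k / n) * ‖σ (θ : K)‖ with hTdef
  have key : ∀ φ : K →+* ℂ, (c : ℝ) ^ (k / n) * ‖φ (θ : K)‖ = T := by
    intro φ
    apply (pow_left_inj₀ (by positivity) (by positivity) hn0).1
    rw [hTdef, mul_pow, mul_pow, SZ1_norm hF, SZ1_norm hF]
  have hTn : T ^ n = (c : ℝ) ^ k := by
    rw [hTdef, mul_pow, SZ1_norm hF, ← pow_mul, ← pow_add, mul_comm (k / n) n, Nat.div_add_mod]
  have hT0 : 0 < T := by
    have h3 : 0 ≤ T := by positivity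
    rcases h3.lt_or_eq with h4 | h4
    · exact h4
    · rw [← h4, zero_pow hn0] at hTn
      have : (0 : ℝ) < (c : ℝ) ^ k := by positivity
      linarith
  have hTc : T < (c : ℝ) * (c : ℝ) ^ (k / n) := by
    apply lt_of_pow_lt_pow_left₀ n (by positivity)
    rw [hTn, ← pow_succ', ← pow_mul]
    apply pow_lt_pow_right₀ hc2
    have h3 := Nat.div_add_mod k n
    have h4 := Nat.mod_lt k (by omega : 0 < n)
    nlinarith
  have hlt : ∀ e : ℕ, e ^ n < 8 ^ n * c ^ k → (e : ℝ) < 8 * T := by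
    intro e he
    apply lt_of_pow_lt_pow_left₀ n (by positivity)
    rw [mul_pow, hTn]
    exact_mod_cast he
  have hbT := hlt b hb
  have hbT' := hlt b' hb'
  have ht : |(t : ℝ)| = 1 := by
    rcases hS.ht with h | h <;> rw [h] <;> norm_num
  -- the size of the conjugates
  have hsize : ∀ φ : K →+* ℂ, ‖φ (γ : K)‖ ^ m ≤ (9 * T) ^ n := by
    intro φ
    have hK : (γ : K) ^ m = (t : K) * (yel θ c (k / n) b n : K) * (xel θ c (k / n) b' : K) := by
      have := congrArg (fun z : 𝓞 K => (z : K)) hpow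
      simpa using this
    have hC := congrArg (fun z => ‖φ z‖) hK
    simp only [map_pow, map_mul, map_intCast, norm_pow, norm_mul] at hC
    have ht' : ‖(t : ℂ)‖ = 1 := by
      rw [Complex.norm_intCast]
      exact_mod_cast ht
    rw [ht', one_mul] at hC
    rw [hC]
    have hx : ‖φ (xel θ c (k / n) b' : K)‖ ≤ 9 * T := by
      rw [SZ1_xel]
      refine (norm_sub_le _ _).trans ?_
      rw [norm_mul, norm_pow, Complex.norm_natCast, Complex.norm_natCast, key φ]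
      linarith
    have hy : ‖φ (yel θ c (k / n) b n : K)‖ ≤ (9 * T) ^ (n - 1) := by
      rw [SZ1_yel]
      calc ‖∑ i ∈ Finset.range n, (b : ℂ) ^ i * ((c : ℂ) ^ (k / n) * φ (θ : K)) ^ (n - 1 - i)‖
          ≤ ∑ i ∈ Finset.range n, ‖(b : ℂ) ^ i * ((c : ℂ) ^ (k / n) * φ (θ : K)) ^ (n - 1 - i)‖ :=
            norm_sum_le _ _
        _ = ∑ i ∈ Finset.range n, (b : ℝ) ^ i * T ^ (n - 1 - i) := by
            apply Finset.sum_congr rfl
            intro i _
            rw [norm_mul, norm_pow, norm_pow, norm_mul, norm_pow, Complex.norm_natCast,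
              Complex.norm_natCast, key φ]
        _ ≤ ((b : ℝ) + T) ^ (n - 1) := SZ1_sum (by omega) (by positivity) hT0.le
        _ ≤ (9 * T) ^ (n - 1) := pow_le_pow_left₀ (by positivity) (by linarith) _
    calc ‖φ (yel θ c (k / n) b n : K)‖ * ‖φ (xel θ c (k / n) b' : K)‖
        ≤ (9 * T) ^ (n - 1) * (9 * T) := mul_le_mul hy hx (norm_nonneg _) (by positivity)
      _ = (9 * T) ^ n := by
          rw [← pow_succ]
          congr 1
          omega
  by_contra hcon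
  push Not at hcon
  push_cast at hcon
  set G : ℝ := max ‖σ (γ : K)‖ ‖τ (γ : K)‖ with hGdef
  have hG0 : 0 ≤ G := (norm_nonneg _).trans (le_max_left _ _)
  have hGm : G ^ m ≤ (9 * T) ^ n := by
    rcases le_total ‖σ (γ : K)‖ ‖τ (γ : K)‖ with h | h
    · rw [hGdef, max_eq_right h]
      exact hsize τ
    · rw [hGdef, max_eq_left h]
      exact hsize σ
  have hd : (Module.finrank ℚ K : ℝ) ≤ n := by exact_mod_cast hF.deg
  have hdiff : ‖σ (γ : K) - τ (γ : K)‖ ≤ 2 * G := by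
    have h3 := norm_sub_le (σ (γ : K)) (τ (γ : K))
    have h4 := le_max_left ‖σ (γ : K)‖ ‖τ (γ : K)‖
    have h5 := le_max_right ‖σ (γ : K)‖ ‖τ (γ : K)‖
    rw [← hGdef] at h4 h5
    linarith
  have hm0 : (0 : ℝ) ≤ m := by positivity
  have hcq : (c : ℝ) ^ (k / n) ≤ m * n * (2 * G) := by
    refine hcon.trans ?_
    apply mul_le_mul (mul_le_mul_of_nonneg_left hd hm0) hdiff (norm_nonneg _) (by positivity)
  have hTG : T < (2 * c * m * n) * G := by
    have h3 : (c : ℝ) * (c : ℝ) ^ (k / n) ≤ c * (m * n * (2 * G)) :=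
      mul_le_mul_of_nonneg_left hcq hc0.le
    calc T < (c : ℝ) * (c : ℝ) ^ (k / n) := hTc
      _ ≤ c * (m * n * (2 * G)) := h3
      _ = (2 * c * m * n) * G := by ring
  have hA : (1 : ℝ) ≤ 2 * c * m * n := by
    have : 1 ≤ 2 * c * m * n := by
      have : 0 < 2 * c * m * n := by positivity
      omega
    exact_mod_cast this
  have h8 := SZ1_real hnm hA hT0 hGm hG0 hTG
  have h9 : (48 * (2 * (c : ℝ) * m * n)) ^ (n + 1) < 8 * T := by
    refine lt_of_le_of_lt ?_ hbT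
    have h10 : ((Hb n m c : ℕ) : ℝ) ≤ b := by exact_mod_cast hHb
    refine le_trans (le_of_eq ?_) h10
    unfold Hb
    push_cast
    ring
  have h11 := SZ1_num (by linarith) h9
  linarith

end Pool.FCS
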