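import Pool.Agent.Work.MP_2738db_S.Defs

set_option autoImplicit false

/-! # Block THS: summation over `k` -/

namespace Pool.FCS

theorem THS_log {X : ℝ} (hX : 3 ≤ X) : 1 ≤ Real.log X := by
  have h1 : Real.exp 1 ≤ X := by
    have := Real.exp_one_lt_d9
    linarith
  have h2 := Real.log_le_log (Real.exp_pos 1) h1
  rwa [Real.log_exp] at h2

theorem THS_l {X : ℝ} (hX : 3 ≤ X) : ((Nat.log 2 ⌊X⌋₊ : ℕ) : ℝ) ≤ 2 * Real.log X := by
  have hXpos : (0 : ℝ) ≤ X := by linarith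
  have h0 : ⌊X⌋₊ ≠ 0 := by
    have : 3 ≤ ⌊X⌋₊ := Nat.le_floor (by exact_mod_cast hX)
    omega
  have h1 : 2 ^ Nat.log 2 ⌊X⌋₊ ≤ ⌊X⌋₊ := Nat.pow_log_le_self 2 h0
  have h2 : ((2 : ℝ)) ^ Nat.log 2 ⌊X⌋₊ ≤ X := by
    calc ((2 : ℝ)) ^ Nat.log 2 ⌊X⌋₊ = ((2 ^ Nat.log 2 ⌊X⌋₊ : ℕ) : ℝ) := by push_cast; rfl
      _ ≤ (⌊X⌋₊ : ℝ) := by exact_mod_cast h1
      _ ≤ X := Nat.floor_le hXpos
  have h3 := Real.log_le_log (by positivity) h2
  rw [Real.log_pow] at h3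
  have h4 := Real.log_two_gt_d9
  have h5 : (0 : ℝ) ≤ ((Nat.log 2 ⌊X⌋₊ : ℕ) : ℝ) := Nat.cast_nonneg _
  nlinarith

/-- the union over `k` -/
theorem THS_union {S : Set (ℕ × ℕ × ℕ)} {A : ℕ → Set (ℕ × ℕ)} {l N : ℕ}
    (hS : ∀ p ∈ S, 1 ≤ p.2.2 ∧ p.2.2 ≤ l ∧ (p.1, p.2.1) ∈ A p.2.2)
    (hA : ∀ k, 1 ≤ k → k ≤ l → (A k).Finite ∧ (A k).ncard ≤ N) :
    S.Finite ∧ S.ncard ≤ l * N := by
  classical
  have hfin : ∀ k, 1 ≤ k → k ≤ l → (A k).Finite := fun k h1 h2 => (hA k h1 h2).1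
  let F : ℕ → Finset (ℕ × ℕ × ℕ) := fun k =>
    if h : 1 ≤ k ∧ k ≤ l then (hfin k h.1 h.2).toFinset.image fun p => (p.1, p.2, k) else ∅
  have hsub : S ⊆ ↑((Finset.Icc 1 l).biUnion F) := by
    intro p hp
    obtain ⟨h1, h2, h3⟩ := hS p hp
    rw [Finset.mem_coe, Finset.mem_biUnion]
    refine ⟨p.2.2, Finset.mem_Icc.2 ⟨h1, h2⟩, ?_⟩
    simp only [F]
    rw [dif_pos ⟨h1, h2⟩, Finset.mem_image]
    exact ⟨(p.1, p.2.1), (Set.Finite.mem_toFinset _).2 h3, rfl⟩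
  have hcard : ((Finset.Icc 1 l).biUnion F).card ≤ l * N := by
    have h4 := Finset.card_biUnion_le_card_mul (Finset.Icc 1 l) F N (by
      intro k hk
      rw [Finset.mem_Icc] at hk
      simp only [F]
      rw [dif_pos hk]
      refine Finset.card_image_le.trans ?_
      rw [← Set.ncard_eq_toFinset_card (A k) (hfin k hk.1 hk.2)]
      exact (hA k hk.1 hk.2).2)
    rw [Nat.card_Icc] at h4
    simpa using h4
  refine ⟨(Finset.finite_toSet _).subset hsub, ?_⟩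
  have h5 := Set.ncard_le_ncard hsub (Finset.finite_toSet _)
  rw [Set.ncard_coe_finset] at h5
  exact h5.trans hcard

theorem p_THS (h1 : S_FIX) (h2 : S_SQF) (h3 : S_BND) : S_THS := by
  obtain ⟨C₀, hC₀, hB⟩ := h3
  refine ⟨C₀ + 5, by linarith, ?_⟩
  intro c n m s t X hc hn hnm hX
  have hX0 : (0 : ℝ) ≤ X := by linarith
  have hlog := THS_log hX
  have hlX := THS_l hX
  set Z := ⌊X⌋₊ with hZ
  set l := Nat.log 2 Z with hl
  have hZ3 : 3 ≤ Z := Nat.le_floor (by exact_mod_cast hX)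
  have hl1 : 1 ≤ l := Nat.le_log_of_pow_le (by norm_num) (by omega)
  set N := Hb n m c + Ncls n m c * (c ^ (2 * n) * m ^ n * (l + 2)) + 3 * c ^ 2 * (l + 2) with hN
  -- the key claim
  have key : (SolSet n m c s t X).Finite ∧ (SolSet n m c s t X).ncard ≤ l * N := by
    apply THS_union (A := fun k => {p | Sol n m c k s t p.1 p.2 ∧ p.2 ≤ Z})
    · rintro p ⟨hk1, hsol, _, hb, hck⟩
      refine ⟨hk1, ?_, hsol, ?_⟩
      · apply Nat.le_log_of_pow_le (by norm_num)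
        apply Nat.le_floor
        calc (((2 ^ p.2.2 : ℕ)) : ℝ) ≤ ((c ^ p.2.2 : ℕ) : ℝ) := by
              exact_mod_cast Nat.pow_le_pow_left hc _
          _ = (c : ℝ) ^ p.2.2 := by push_cast; rfl
          _ ≤ X := hck
      · apply Nat.le_floor
        calc ((p.2.1 : ℕ) : ℝ) ≤ ((p.2.1 ^ n : ℕ) : ℝ) := by
              exact_mod_cast Nat.le_self_pow (by omega) _
          _ = (p.2.1 : ℝ) ^ n := by push_cast; rfl
          _ ≤ X := hb
    · intro k hk1 hkl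
      by_cases hs : s = 1 ∨ s = -1
      · by_cases hsq : n = 2 → s = -1 → ¬ IsSquare (c ^ k)
        · obtain ⟨h4, h5⟩ := h1 c n m k s t Z hc hn hnm hs hsq
          refine ⟨h4, h5.trans ?_⟩
          rw [hN]
          exact Nat.le_add_right _ _
        · push Not at hsq
          obtain ⟨hn2, hs1, y, hy⟩ := hsq
          subst hn2
          subst hs1
          obtain ⟨h4, h5⟩ := h2 c m k y t Z hc (by omega) hk1 (by rw [hy]; ring)
          rw [← hl] at h5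
          refine ⟨h4, h5.trans ?_⟩
          rw [hN]
          have h6 : 0 ≤ Ncls 2 m c * (c ^ (2 * 2) * m ^ 2 * (l + 2)) := Nat.zero_le _
          omega
      · have h7 : {p : ℕ × ℕ | Sol n m c k s t p.1 p.2 ∧ p.2 ≤ Z} = ∅ := by
          apply Set.eq_empty_of_forall_notMem
          rintro p ⟨h8, _⟩
          exact hs h8.hs
        simp only [h7]
        exact ⟨Set.finite_empty, by rw [Set.ncard_empty]; exact Nat.zero_le _⟩
  refine ⟨key.1, ?_⟩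
  have h9 := hB c n m l hc hn hnm hl1
  have h10 : ((SolSet n m c s t X).ncard : ℝ) ≤ ((l * N : ℕ) : ℝ) := by exact_mod_cast key.2
  have hmc6 : (6 : ℝ) ≤ (m : ℝ) * c := by
    have h11 : (3 : ℝ) ≤ m := by
      have : 3 ≤ m := by omega
      exact_mod_cast this
    have h12 : (2 : ℝ) ≤ c := by exact_mod_cast hc
    nlinarith
  have hmc0 : (0 : ℝ) < (m : ℝ) * c := by linarith
  have hlog2n : 1 ≤ Real.log (2 * n) := by
    apply THS_log
    have h13 : (2 : ℝ) ≤ n := by exact_mod_cast hn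
    linarith
  have hn2R : (2 : ℝ) ≤ n := by exact_mod_cast hn
  have hnl : (2 : ℝ) ≤ n * Real.log (2 * n) := by nlinarith
  -- the constant 8
  have h8 : (8 : ℝ) ≤ ((m : ℝ) * c) ^ (5 * n * Real.log (2 * n)) := by
    calc (8 : ℝ) ≤ 6 ^ (2 : ℝ) := by
          rw [show (2 : ℝ) = ((2 : ℕ) : ℝ) by norm_num, Real.rpow_natCast]
          norm_num
      _ ≤ ((m : ℝ) * c) ^ (2 : ℝ) := Real.rpow_le_rpow (by norm_num) hmc6 (by norm_num)
      _ ≤ ((m : ℝ) * c) ^ (5 * n * Real.log (2 * n)) :=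
          Real.rpow_le_rpow_of_exponent_le (by linarith) (by nlinarith)
  have hl3 : (l : ℝ) ^ 3 ≤ 8 * Real.log X ^ 3 := by
    calc (l : ℝ) ^ 3 ≤ (2 * Real.log X) ^ 3 := by
          apply pow_le_pow_left₀ (Nat.cast_nonneg _) hlX
      _ = 8 * Real.log X ^ 3 := by ring
  have hX3 : Real.log X ^ 3 ≤ Real.log X ^ (C₀ + 5) := by
    rw [← Real.rpow_natCast]
    apply Real.rpow_le_rpow_of_exponent_le hlog
    push_cast
    linarith
  have hpos : (0 : ℝ) ≤ ((m : ℝ) * c) ^ (C₀ * n * Real.log (2 * n)) := Real.rpow_nonneg hmc0.le _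
  have hL0 : (0 : ℝ) ≤ Real.log X := by linarith
  calc ((SolSet n m c s t X).ncard : ℝ) ≤ ((l * N : ℕ) : ℝ) := h10
    _ ≤ ((m : ℝ) * c) ^ (C₀ * n * Real.log (2 * n)) * (l : ℝ) ^ 3 := h9
    _ ≤ ((m : ℝ) * c) ^ (C₀ * n * Real.log (2 * n)) * (8 * Real.log X ^ 3) :=
        mul_le_mul_of_nonneg_left hl3 hpos
    _ = ((m : ℝ) * c) ^ (C₀ * n * Real.log (2 * n)) * 8 * Real.log X ^ 3 := by ring
    _ ≤ ((m : ℝ) * c) ^ (C₀ * n * Real.log (2 * n)) *
        ((m : ℝ) * c) ^ (5 * n * Real.log (2 * n)) * Real.log X ^ 3 :=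
        mul_le_mul_of_nonneg_right (mul_le_mul_of_nonneg_left h8 hpos) (by positivity)
    _ = ((m : ℝ) * c) ^ ((C₀ + 5) * n * Real.log (2 * n)) * Real.log X ^ 3 := by
        rw [← Real.rpow_add hmc0]
        congr 2
        ring
    _ ≤ ((m : ℝ) * c) ^ ((C₀ + 5) * n * Real.log (2 * n)) * Real.log X ^ (C₀ + 5) :=
        mul_le_mul_of_nonneg_left hX3 (Real.rpow_nonneg hmc0.le _)

end Pool.FCS
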