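import Pool.Agent.Work.MP_2738db_S.Defs

set_option autoImplicit false

namespace Pool.FCS

open NumberField

theorem p_THT (h0 : S_ROL) (h1 : S_W1C) (h2 : S_W2C) (h3 : S_W3C) : S_THT := by
  obtain ⟨C₁, hC₁, H1⟩ := h1
  obtain ⟨C₂, hC₂, H2⟩ := h2
  obtain ⟨C₃, hC₃, H3⟩ := h3
  obtain ⟨C, hC⟩ : ∃ C : ℝ, C = C₁ + C₂ + C₃ + 16 := ⟨_, rfl⟩
  refine ⟨C, by linarith, ?_⟩
  intro X K hX hK hKX
  have hX16 : (16 : ℝ) ≤ X := by linarith
  have hX0 : (0 : ℝ) < X := by linarith
  have hK0 : (0 : ℝ) < K := by linarith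
  have hexp : Real.exp (Real.exp 1) ≤ 16 := by
    have h1 : Real.exp 1 < 2.7182818286 := Real.exp_one_lt_d9
    have h2 : Real.exp (Real.exp 1) ≤ Real.exp 2.75 := Real.exp_le_exp.2 (by linarith)
    have h3 : Real.exp 2.75 = (Real.exp 1) ^ (2.75 : ℝ) := by
      rw [← Real.exp_mul, one_mul]
    have h4 : (Real.exp 1) ^ (2.75 : ℝ) ≤ (2.7182818286 : ℝ) ^ (2.75 : ℝ) :=
      Real.rpow_le_rpow (Real.exp_pos 1).le h1.le (by norm_num)
    have h5 : (2.7182818286 : ℝ) ^ (2.75 : ℝ) ≤ 16 := by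
      have h6 : ((2.7182818286 : ℝ) ^ (2.75 : ℝ)) ^ 4 ≤ 16 ^ 4 := by
        rw [← Real.rpow_natCast, ← Real.rpow_mul (by norm_num)]
        norm_num
      exact le_of_pow_le_pow_left₀ (by norm_num) (by norm_num) h6
    linarith [h3 ▸ h4]
  have hL1 : Real.exp 1 ≤ Real.log X := by
    rw [Real.le_log_iff_exp_le hX0]
    linarith
  have hL0 : 0 < Real.log X := lt_of_lt_of_le (Real.exp_pos 1) hL1
  have hLL : 1 ≤ Real.log (Real.log X) := by
    rw [Real.le_log_iff_exp_le hL0]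
    exact hL1
  have hKLL : 0 ≤ K * Real.log (Real.log X) := by positivity
  have step : ∀ C' : ℝ, C' ≤ C → C' * K * Real.log (Real.log X) ≤ Real.log X := by
    intro C' hC'
    have : C' * (K * Real.log (Real.log X)) ≤ C * (K * Real.log (Real.log X)) :=
      mul_le_mul_of_nonneg_right hC' hKLL
    calc C' * K * Real.log (Real.log X) = C' * (K * Real.log (Real.log X)) := by ring
      _ ≤ C * (K * Real.log (Real.log X)) := this
      _ = C * K * Real.log (Real.log X) := by ring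
      _ ≤ Real.log X := hKX
  obtain ⟨F1, B1⟩ := H1 X K (by linarith) hK (step C₁ (by linarith))
  obtain ⟨F2, B2⟩ := H2 X K (by linarith) hK (step C₂ (by linarith))
  obtain ⟨F3, B3⟩ := H3 X K (by linarith) hK (step C₃ (by linarith))
  have hsub := h0 X K (by linarith) hK
  have hfin : (W1 X K ∪ W2 X K ∪ W3 X K).Finite := (F1.union F2).union F3
  refine ⟨hfin.subset hsub, ?_⟩
  -- constants
  obtain ⟨κ, hκ⟩ : ∃ κ : ℝ, κ = K ^ ((2 : ℝ) / 3) := ⟨_, rfl⟩
  have hκ0 : 0 < κ := by rw [hκ]; positivity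
  have hκK : κ ≤ K := by
    rw [hκ]
    calc K ^ ((2 : ℝ) / 3) ≤ K ^ (1 : ℝ) :=
          Real.rpow_le_rpow_of_exponent_le (by linarith) (by norm_num)
      _ = K := Real.rpow_one K
  have hl1 : 1 ≤ Real.log (2 * K) := by
    rw [Real.le_log_iff_exp_le (by positivity)]
    have : Real.exp 1 < 2.7182818286 := Real.exp_one_lt_d9
    linarith
  obtain ⟨E, hE⟩ : ∃ E : ℝ, E = Real.log (2 * K) / κ * Real.log X := ⟨_, rfl⟩
  have hE1 : 1 ≤ E := by
    have h1 : 1 / K ≤ Real.log (2 * K) / κ := by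
      apply div_le_div₀ (by linarith) hl1 hκ0 hκK
    have h2 : (1 : ℝ) ≤ Real.log X / K := by
      rw [le_div_iff₀ hK0, one_mul]
      calc K ≤ 16 * K * Real.log (Real.log X) := by nlinarith
        _ ≤ Real.log X := step 16 (by linarith)
    calc (1 : ℝ) ≤ Real.log X / K := h2
      _ = 1 / K * Real.log X := by ring
      _ ≤ Real.log (2 * K) / κ * Real.log X := mul_le_mul_of_nonneg_right h1 hL0.le
      _ = E := hE.symm
  have b1 : ((W1 X K).ncard : ℝ) ≤ Real.exp ((C - 2) * E) := by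
    refine B1.trans (Real.exp_le_exp.2 ?_)
    have : C₁ * Real.log (2 * K) / K ^ ((2 : ℝ) / 3) * Real.log X = C₁ * E := by
      rw [hE, hκ]; ring
    rw [this]
    exact mul_le_mul_of_nonneg_right (by linarith) (by linarith)
  have b2 : ((W2 X K).ncard : ℝ) ≤ Real.exp ((C - 2) * E) := by
    refine B2.trans (Real.exp_le_exp.2 ?_)
    have e1 : C₂ / K ^ ((2 : ℝ) / 3) * Real.log X ≤ C₂ * E := by
      rw [hE, ← hκ]
      have : 1 / κ ≤ Real.log (2 * K) / κ := div_le_div_of_nonneg_right hl1 hκ0.le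
      calc C₂ / κ * Real.log X = C₂ * (1 / κ * Real.log X) := by ring
        _ ≤ C₂ * (Real.log (2 * K) / κ * Real.log X) :=
            mul_le_mul_of_nonneg_left (mul_le_mul_of_nonneg_right this hL0.le) hC₂.le
    refine e1.trans ?_
    exact mul_le_mul_of_nonneg_right (by linarith) (by linarith)
  have b3 : ((W3 X K).ncard : ℝ) ≤ Real.exp ((C - 2) * E) := by
    refine B3.trans (Real.exp_le_exp.2 ?_)
    have e1 : C₃ * Real.log (2 * K) / K * Real.log X ≤ C₃ * E := by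
      rw [hE]
      have : Real.log (2 * K) / K ≤ Real.log (2 * K) / κ :=
        div_le_div_of_nonneg_left (by linarith) hκ0 hκK
      calc C₃ * Real.log (2 * K) / K * Real.log X
          = C₃ * (Real.log (2 * K) / K * Real.log X) := by ring
        _ ≤ C₃ * (Real.log (2 * K) / κ * Real.log X) :=
            mul_le_mul_of_nonneg_left (mul_le_mul_of_nonneg_right this hL0.le) hC₃.le
    refine e1.trans ?_
    exact mul_le_mul_of_nonneg_right (by linarith) (by linarith)
  have hcard : ((VT X K).ncard : ℝ) ≤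
      ((W1 X K).ncard : ℝ) + ((W2 X K).ncard : ℝ) + ((W3 X K).ncard : ℝ) := by
    have c1 : (VT X K).ncard ≤ (W1 X K ∪ W2 X K ∪ W3 X K).ncard := Set.ncard_le_ncard hsub hfin
    have c2 : (W1 X K ∪ W2 X K ∪ W3 X K).ncard ≤ (W1 X K ∪ W2 X K).ncard + (W3 X K).ncard :=
      Set.ncard_union_le _ _
    have c3 : (W1 X K ∪ W2 X K).ncard ≤ (W1 X K).ncard + (W2 X K).ncard :=
      Set.ncard_union_le _ _
    have : (VT X K).ncard ≤ (W1 X K).ncard + (W2 X K).ncard + (W3 X K).ncard := by omega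
    exact_mod_cast this
  have h3e : (3 : ℝ) ≤ Real.exp (2 * E) := by
    have h1 : Real.exp 2 ≤ Real.exp (2 * E) := Real.exp_le_exp.2 (by linarith)
    have h2 : (2 : ℝ) + 1 ≤ Real.exp 2 := Real.add_one_le_exp 2
    linarith
  calc ((VT X K).ncard : ℝ) ≤ 3 * Real.exp ((C - 2) * E) := by linarith
    _ ≤ Real.exp (2 * E) * Real.exp ((C - 2) * E) :=
        mul_le_mul_of_nonneg_right h3e (Real.exp_pos _).le
    _ = Real.exp (C * E) := by rw [← Real.exp_add]; congr 1; ring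
    _ = X ^ (C * Real.log (2 * K) / K ^ ((2 : ℝ) / 3)) := by
        rw [Real.rpow_def_of_pos hX0, hE, hκ]
        congr 1
        ring

end Pool.FCS
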