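import Mathlib

/-!
# An algebraic integer whose conjugates are close and congruent modulo a large integer is rational

`small`: if `C ∣ m (σ γ - τ γ)` in the ring of all algebraic integers and
`m * d * ‖σ γ - τ γ‖ < C` for all embeddings `σ, τ` of `K`, then `γ ∈ ℤ`.
-/

set_option autoImplicit false

namespace Pool.Agent.FCS.Small

open NumberField Module

variable (K : Type*) [Field K] [NumberField K]

theorem trace_sum (x : K) : ((Algebra.trace ℚ K x : ℚ) : ℂ) = ∑ τ : K →+* ℂ, τ x := by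
  have h := trace_eq_sum_embeddings (K := ℚ) (L := K) ℂ (x := x)
  have h2 : (algebraMap ℚ ℂ) (Algebra.trace ℚ K x) = ((Algebra.trace ℚ K x : ℚ) : ℂ) := rfl
  rw [← h2, h]
  exact Fintype.sum_equiv (RingHom.equivRatAlgHom (R := K) (S := ℂ)).symm _ _ fun σ => rfl

theorem eq_zero_of_norm_lt_one (β : 𝓞 K) (h : ∀ σ : K →+* ℂ, ‖σ (β : K)‖ < 1) : β = 0 := by
  by_contra hb
  obtain ⟨w⟩ : Nonempty (InfinitePlace K) := inferInstance
  have h1 : 1 ≤ w (β : K) := InfinitePlace.one_le_of_lt_one hb fun z _ => by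
    rw [← InfinitePlace.norm_embedding_eq]
    exact h _
  rw [← InfinitePlace.norm_embedding_eq] at h1
  exact absurd (h w.embedding) (not_lt.mpr h1)

theorem small (γ : 𝓞 K) (m C : ℕ) (hm : 1 ≤ m)
    (hdvd : ∀ σ τ : K →+* ℂ, ∃ κ : ℂ, IsIntegral ℤ κ ∧ (m : ℂ) * (σ (γ : K) - τ (γ : K)) = C * κ)
    (hlt : ∀ σ τ : K →+* ℂ, (m : ℝ) * finrank ℚ K * ‖σ (γ : K) - τ (γ : K)‖ < C) :
    ∃ z : ℤ, γ = (z : 𝓞 K) := by
  classical
  obtain ⟨σ₀⟩ : Nonempty (K →+* ℂ) := inferInstance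
  have hC0 : (0 : ℝ) < C := by
    have := hlt σ₀ σ₀
    rwa [sub_self, norm_zero, mul_zero] at this
  have hC : (C : ℂ) ≠ 0 := by exact_mod_cast hC0.ne'
  have hCK : (C : K) ≠ 0 := by exact_mod_cast hC0.ne'
  have hd1 : 1 ≤ finrank ℚ K := finrank_pos
  choose κ hκ1 hκ2 using hdvd
  set β : K := (m : K) * (finrank ℚ K * (γ : K) - algebraMap ℚ K (Algebra.trace ℚ K (γ : K))) / C
    with hβ
  have hcard : (Fintype.card (K →+* ℂ) : ℂ) = finrank ℚ K := by
    rw [Embeddings.card K ℂ]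
  have hσ : ∀ σ : K →+* ℂ, σ β = ∑ τ : K →+* ℂ, κ σ τ := by
    intro σ
    have h1 : σ β = (m : ℂ) * (finrank ℚ K * σ (γ : K) - ∑ τ : K →+* ℂ, τ (γ : K)) / C := by
      rw [hβ, map_div₀, map_mul, map_sub, map_mul, map_natCast, map_natCast, map_natCast,
        ← trace_sum]
      congr 3
      rw [eq_ratCast, map_ratCast]
    have h2 : (finrank ℚ K : ℂ) * σ (γ : K) - ∑ τ : K →+* ℂ, τ (γ : K) =
        ∑ τ : K →+* ℂ, (σ (γ : K) - τ (γ : K)) := by
      rw [Finset.sum_sub_distrib, Finset.sum_const, Finset.card_univ, nsmul_eq_mul, hcard]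
    rw [h1, h2, Finset.mul_sum]
    simp_rw [hκ2]
    rw [← Finset.mul_sum, mul_div_assoc, mul_comm, div_mul_cancel₀ _ hC]
  have hint : IsIntegral ℤ β := by
    have h1 : IsIntegral ℤ (σ₀ β) := by
      rw [hσ]
      exact IsIntegral.sum _ fun τ _ => hκ1 σ₀ τ
    exact (isIntegral_algHom_iff (σ₀.toIntAlgHom) σ₀.injective).mp h1
  have hlt1 : ∀ σ : K →+* ℂ, ‖σ β‖ < 1 := by
    intro σ
    have hk : ∀ τ : K →+* ℂ, ‖κ σ τ‖ < 1 / finrank ℚ K := by
      intro τ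
      have h3 : ‖(m : ℂ) * (σ (γ : K) - τ (γ : K))‖ = C * ‖κ σ τ‖ := by
        rw [hκ2, norm_mul, Complex.norm_natCast]
      have h4 := hlt σ τ
      rw [norm_mul, Complex.norm_natCast] at h3
      have hdpos : (0 : ℝ) < finrank ℚ K := by exact_mod_cast hd1
      rw [lt_div_iff₀ hdpos]
      have h5 : (C : ℝ) * (‖κ σ τ‖ * finrank ℚ K) < C * 1 := by
        calc (C : ℝ) * (‖κ σ τ‖ * finrank ℚ K) = (C * ‖κ σ τ‖) * finrank ℚ K := by ring
          _ = (m : ℝ) * finrank ℚ K * ‖σ (γ : K) - τ (γ : K)‖ := by rw [← h3]; ring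
          _ < C * 1 := by rw [mul_one]; exact h4
      exact lt_of_mul_lt_mul_left h5 hC0.le
    rw [hσ]
    have hne : (Finset.univ : Finset (K →+* ℂ)).Nonempty := ⟨σ₀, Finset.mem_univ _⟩
    calc ‖∑ τ : K →+* ℂ, κ σ τ‖ ≤ ∑ τ : K →+* ℂ, ‖κ σ τ‖ := norm_sum_le _ _
      _ < ∑ _τ : K →+* ℂ, 1 / (finrank ℚ K : ℝ) :=
          Finset.sum_lt_sum_of_nonempty hne fun τ _ => hk τ
      _ = 1 := by
          rw [Finset.sum_const, Finset.card_univ, Embeddings.card K ℂ, nsmul_eq_mul]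
          have : (finrank ℚ K : ℝ) ≠ 0 := by exact_mod_cast (by omega : finrank ℚ K ≠ 0)
          field_simp
  have hβ0 : β = 0 := by
    have := eq_zero_of_norm_lt_one K (⟨β, hint⟩ : 𝓞 K) hlt1
    exact congrArg (algebraMap (𝓞 K) K) this
  have hmK : (m : K) ≠ 0 := by exact_mod_cast (by omega : m ≠ 0)
  have hdK : (finrank ℚ K : K) ≠ 0 := by exact_mod_cast (by omega : finrank ℚ K ≠ 0)
  have h6 : (finrank ℚ K : K) * (γ : K) = algebraMap ℚ K (Algebra.trace ℚ K (γ : K)) := by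
    rw [hβ, div_eq_zero_iff] at hβ0
    rcases hβ0 with h | h
    · rcases mul_eq_zero.mp h with h | h
      · exact absurd h hmK
      · exact sub_eq_zero.mp h
    · exact absurd h hCK
  have h7 : (γ : K) = algebraMap ℚ K (Algebra.trace ℚ K (γ : K) / finrank ℚ K) := by
    rw [map_div₀, map_natCast, ← h6]
    field_simp
  have h8 : IsIntegral ℤ (Algebra.trace ℚ K (γ : K) / finrank ℚ K : ℚ) := by
    have h9 : IsIntegral ℤ (γ : K) := RingOfIntegers.isIntegral_coe γ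
    rw [h7] at h9
    exact (isIntegral_algebraMap_iff (algebraMap ℚ K).injective).mp h9
  obtain ⟨z, hz⟩ := IsIntegrallyClosed.isIntegral_iff.mp h8
  refine ⟨z, ?_⟩
  apply RingOfIntegers.ext
  rw [h7, ← hz]
  simp

end Pool.Agent.FCS.Small
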