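import Pool.Agent.Work.MP_2738db_S.Defs
import Pool.Agent.Work.MP_2738db_S.Small

set_option autoImplicit false

namespace Pool.FCS

open NumberField

theorem p_TRC : S_TRC := by
  intro K _ _ γ m D hm _ h1 h2
  obtain ⟨z, hz⟩ := Pool.Agent.FCS.Small.small K γ m D hm h1 h2
  exact ⟨z, by rw [hz]; simp⟩

end Pool.FCS
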