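import Pool.Agent.Work.MP_2738db_S.Defs

set_option autoImplicit false

/-! # THEOREM S, block UNT: units modulo `m`-th powers -/

namespace Pool.FCS

open NumberField

theorem UNT_rank (K : Type) [Field K] [NumberField K] :
    Units.rank K + 1 ≤ Module.finrank ℚ K := by
  have h1 := InfinitePlace.card_add_two_mul_card_eq_rank K
  have h2 := InfinitePlace.card_eq_nrRealPlaces_add_nrComplexPlaces K
  have h3 : Units.rank K = Fintype.card (InfinitePlace K) - 1 := rfl
  have h4 : 0 < Fintype.card (InfinitePlace K) := Fintype.card_pos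
  omega

theorem p_UNT : S_UNT := by
  classical
  intro K _ _ m hm
  obtain ⟨g, hg⟩ := IsCyclic.exists_generator (α := Units.torsion K)
  let f : (Fin (Units.rank K) → Fin m) × Fin m → (𝓞 K)ˣ := fun p =>
    (g : (𝓞 K)ˣ) ^ (p.2 : ℕ) * ∏ i, (Units.fundSystem K i) ^ ((p.1 i : Fin m) : ℕ)
  refine ⟨Finset.univ.image f, ?_, ?_⟩
  · refine Finset.card_image_le.trans ?_
    rw [Finset.card_univ, Fintype.card_prod, Fintype.card_fun, Fintype.card_fin, Fintype.card_fin,
      ← pow_succ]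
    exact Nat.pow_le_pow_right hm (UNT_rank K)
  · intro u
    obtain ⟨⟨ζ, e⟩, hu, -⟩ := Units.exist_unique_eq_mul_prod K u
    obtain ⟨k, hk⟩ := Subgroup.mem_zpowers_iff.1 (hg ζ)
    simp only at hu
    have hm0 : (0 : ℤ) < m := by exact_mod_cast hm
    have key : ∀ (z : (𝓞 K)ˣ) (a : ℤ), z ^ a = z ^ ((a % m).toNat) * (z ^ (a / m)) ^ m := by
      intro z a
      have h1 : 0 ≤ a % m := Int.emod_nonneg _ hm0.ne'
      rw [← zpow_natCast, ← zpow_natCast, Int.toNat_of_nonneg h1, ← zpow_mul, ← zpow_add]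
      congr 1
      rw [mul_comm]
      exact (Int.emod_add_mul_ediv a m).symm
    have hlt : ∀ a : ℤ, (a % m).toNat < m := by
      intro a
      have h1 : 0 ≤ a % m := Int.emod_nonneg _ hm0.ne'
      have h2 : a % m < m := Int.emod_lt_of_pos _ hm0
      omega
    refine ⟨f (fun i => ⟨(e i % m).toNat, hlt _⟩, ⟨(k % m).toNat, hlt _⟩),
      Finset.mem_image_of_mem _ (Finset.mem_univ _),
      (g : (𝓞 K)ˣ) ^ (k / m) * ∏ i, (Units.fundSystem K i) ^ (e i / m), ?_⟩
    have hz : ((ζ : Units.torsion K) : (𝓞 K)ˣ) = (g : (𝓞 K)ˣ) ^ k := by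
      rw [← hk]
      simp
    rw [hu, hz, key (g : (𝓞 K)ˣ) k, Finset.prod_congr rfl
      (fun i _ => key (Units.fundSystem K i) (e i)), Finset.prod_mul_distrib, mul_pow,
      Finset.prod_pow]
    exact mul_mul_mul_comm _ _ _ _

end Pool.FCS
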