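import Pool.Agent.Work.MP_2738db_S.Defs

set_option autoImplicit false

namespace Pool.FCS

open NumberField

theorem p_VAL : S_VAL := by
  intro K _ _ n m x hm hadm
  obtain ⟨a, b, y, t, ht, ha, hab, hxy, hdvd⟩ := hadm
  have ha0 : (a : 𝓞 K) ≠ 0 := Nat.cast_ne_zero.mpr (by omega)
  have htt : (t : 𝓞 K) * (t : 𝓞 K) = 1 := by
    rcases ht with h | h <;> rw [h] <;> simp
  have ht0 : (t : 𝓞 K) ≠ 0 := by
    intro h
    rw [h, mul_zero] at htt
    exact zero_ne_one htt
  have hne : (t : 𝓞 K) * (a : 𝓞 K) ^ m ≠ 0 := mul_ne_zero ht0 (pow_ne_zero _ ha0)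
  have hx : x ≠ 0 := by
    intro h
    rw [h, zero_mul] at hxy
    exact hne hxy.symm
  have hy : y ≠ 0 := by
    intro h
    rw [h, mul_zero] at hxy
    exact hne hxy.symm
  refine ⟨hx, fun p hp hpb hn => ?_⟩
  have hpp : Prime p := Ideal.prime_of_isPrime hpb hp
  by_cases hxp : x ∈ p
  · have htu : (t : 𝓞 K) ∉ p := by
      intro h
      apply hp.ne_top
      rw [Ideal.eq_top_iff_one, ← htt]
      exact Ideal.mul_mem_left _ _ h
    have hap : (a : 𝓞 K) ∈ p := by
      have h1 : (t : 𝓞 K) * (a : 𝓞 K) ^ m ∈ p := by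
        rw [← hxy]
        exact Ideal.mul_mem_right _ _ hxp
      rcases hp.mem_or_mem h1 with h | h
      · exact absurd h htu
      · exact hp.mem_of_pow_mem m h
    have hbp : (b : 𝓞 K) ∉ p := by
      intro h
      apply hp.ne_top
      rw [Ideal.eq_top_iff_one]
      have hc : IsCoprime (a : ℤ) (b : ℤ) := Nat.isCoprime_iff_coprime.mpr hab
      obtain ⟨u, v, huv⟩ := hc
      have h2 : (u : 𝓞 K) * (a : 𝓞 K) + (v : 𝓞 K) * (b : 𝓞 K) = 1 := by
        have h3 := congrArg (fun z : ℤ => (z : 𝓞 K)) huv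
        push_cast at h3
        exact h3
      rw [← h2]
      exact p.add_mem (Ideal.mul_mem_left _ _ hap) (Ideal.mul_mem_left _ _ h)
    have hyp : y ∉ p := by
      intro h
      have h1 : y - (n : 𝓞 K) * (b : 𝓞 K) ^ (n - 1) ∈ p := by
        obtain ⟨z, hz⟩ := hdvd
        rw [hz]
        exact Ideal.mul_mem_right _ _ hxp
      have h2 : (n : 𝓞 K) * (b : 𝓞 K) ^ (n - 1) ∈ p := by
        have h3 := p.sub_mem h h1
        have h4 : y - (y - (n : 𝓞 K) * (b : 𝓞 K) ^ (n - 1)) =
          (n : 𝓞 K) * (b : 𝓞 K) ^ (n - 1) := by ring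
        rwa [h4] at h3
      rcases hp.mem_or_mem h2 with h | h
      · exact hn h
      · exact hbp (hp.mem_of_pow_mem _ h)
    have hspan : Ideal.span {x} * Ideal.span {y} = Ideal.span {(a : 𝓞 K)} ^ m := by
      rw [Ideal.span_singleton_mul_span_singleton, Ideal.span_singleton_pow, hxy,
        Ideal.span_singleton_eq_span_singleton]
      refine ⟨⟨(t : 𝓞 K), (t : 𝓞 K), htt, htt⟩, ?_⟩
      calc (t : 𝓞 K) * (a : 𝓞 K) ^ m * (t : 𝓞 K) = ((t : 𝓞 K) * (t : 𝓞 K)) * (a : 𝓞 K) ^ m := by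
            ring
        _ = (a : 𝓞 K) ^ m := by rw [htt, one_mul]
    have hxb : Ideal.span {x} ≠ ⊥ := by
      rw [Ne, Ideal.span_singleton_eq_bot]
      exact hx
    have hyb : Ideal.span {y} ≠ ⊥ := by
      rw [Ne, Ideal.span_singleton_eq_bot]
      exact hy
    have hab' : Ideal.span {(a : 𝓞 K)} ≠ ⊥ := by
      rw [Ne, Ideal.span_singleton_eq_bot]
      exact ha0
    have hfin : FiniteMultiplicity p (Ideal.span {x} * Ideal.span {y}) :=
      FiniteMultiplicity.of_prime_left hpp (mul_ne_zero hxb hyb)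
    have hfa : FiniteMultiplicity p (Ideal.span {(a : 𝓞 K)}) :=
      FiniteMultiplicity.of_prime_left hpp hab'
    have h1 := multiplicity_mul hpp hfin
    have h2 : multiplicity p (Ideal.span {y}) = 0 := by
      rw [multiplicity_eq_zero]
      intro h
      apply hyp
      rw [Ideal.dvd_iff_le] at h
      exact h (Ideal.mem_span_singleton_self y)
    have h3 := hfa.multiplicity_pow hpp (k := m)
    rw [hspan, h3, h2, add_zero] at h1
    exact ⟨_, h1.symm⟩
  · have h2 : multiplicity p (Ideal.span {x}) = 0 := by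
      rw [multiplicity_eq_zero]
      intro h
      apply hxp
      rw [Ideal.dvd_iff_le] at h
      exact h (Ideal.mem_span_singleton_self x)
    rw [h2]
    exact dvd_zero _

end Pool.FCS
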