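import Pool.Agent.Work.MP_2738db_S.Defs

set_option autoImplicit false

namespace Pool.FCS

open NumberField

/-- the set of the product theorem -/
def W2C_T (δ : ℝ) (N : ℕ) : Set (ℕ × ℕ × ℕ) :=
  {τ : ℕ × ℕ × ℕ | ∃ a b c m n k : ℕ, 0 < a ∧ 0 < b ∧ 0 < c ∧
        (a : ℝ) ≤ Real.exp ((N : ℝ) ^ δ) ∧ (b : ℝ) ≤ Real.exp ((N : ℝ) ^ δ) ∧
        (c : ℝ) ≤ Real.exp ((N : ℝ) ^ δ) ∧
        Nat.Coprime a b ∧ Nat.Coprime b c ∧ Nat.Coprime a c ∧ 2 ≤ m ∧ 2 ≤ n ∧ 2 ≤ k ∧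
        a ^ m + b ^ n = c ^ k ∧
        (max (Real.log a) (Real.log N) * max (Real.log b) (Real.log N) *
            max (Real.log c) (Real.log N) < δ * Real.log N ^ 2 * Real.log ((c : ℝ) ^ k) ∨
          (a ≤ N ∧ b ≤ N ∧ c ≤ N ∧ (1 / δ ≤ m ∨ 1 / δ ≤ n ∨ 1 / δ ≤ k))) ∧
        τ = (a ^ m, b ^ n, c ^ k)}

theorem W2C_prod {x y z l μ δ v : ℝ} (hy0 : 0 ≤ y) (hz0 : 0 ≤ z)
    (hx : x ≤ l) (hy : y ≤ μ) (hz : z ≤ μ) (hl : 0 < l) (hμ : μ ^ 2 < δ * l * v) :
    x * y * z < δ * l ^ 2 * v := by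
  have hμ0 : 0 ≤ μ := hy0.trans hy
  calc x * y * z ≤ l * μ * μ :=
        mul_le_mul (mul_le_mul hx hy hy0 hl.le) hz hz0 (mul_nonneg hl.le hμ0)
    _ = l * μ ^ 2 := by ring
    _ < l * (δ * l * v) := mul_lt_mul_of_pos_left hμ hl
    _ = _ := by ring

theorem W2C_base {κ v : ℝ} (hκ : 0 < κ) {e j : ℕ} (he : 2 ≤ e) (hj : κ ≤ j) {w : ℕ}
    (hw : e ^ j ≤ w) (hv : v = Real.log w) : Real.log e ≤ v / κ := by
  have he0 : (0 : ℝ) < e := by exact_mod_cast (by omega : 0 < e)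
  have h1 : ((e : ℝ)) ^ j ≤ w := by exact_mod_cast hw
  have h2 := Real.log_le_log (pow_pos he0 j) h1
  rw [Real.log_pow, ← hv] at h2
  have h3 : 0 ≤ Real.log e := Real.log_nonneg (by exact_mod_cast (by omega : 1 ≤ e))
  rw [le_div_iff₀ hκ, mul_comm]
  exact (mul_le_mul_of_nonneg_right hj h3).trans h2

theorem W2C_small {X K : ℝ} (hX : 0 < X) {e : ℕ} (he : 2 ≤ e) (h : (e : ℝ) ≤ X ^ (1 / K)) :
    Real.log e ≤ Real.log X / K := by
  have he0 : (0 : ℝ) < e := by exact_mod_cast (by omega : 0 < e)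
  have h2 := Real.log_le_log he0 h
  rw [Real.log_rpow hX] at h2
  calc Real.log e ≤ 1 / K * Real.log X := h2
    _ = _ := by ring

theorem W2C_mu1 {v κ M l δ L C₁ E : ℝ} (hM0 : 0 < M) (hκM : κ ^ 2 = M) (hv0 : 0 < v)
    (hvL : v ≤ L) (hδ : 0 < δ) (hC₁ : C₁ = 1 + 2 / δ) (hE : E = C₁ * L / M) (hl1 : E ≤ l) :
    (v / κ) ^ 2 < δ * l * v := by
  rw [div_pow, hκM, div_lt_iff₀ hM0]
  have hL : 0 < L := hv0.trans_le hvL
  have h2 : L < δ * l * M := by
    have h3 : C₁ * L ≤ l * M := by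
      have := mul_le_mul_of_nonneg_right hl1 hM0.le
      rwa [hE, div_mul_cancel₀ _ hM0.ne'] at this
    have h4 : δ * C₁ = δ + 2 := by
      rw [hC₁]
      field_simp
    have h6 : 0 < (δ + 1) * L := by positivity
    calc L < L + (δ + 1) * L := by linarith
      _ = (δ + 2) * L := by ring
      _ = δ * (C₁ * L) := by rw [← h4]; ring
      _ ≤ δ * (l * M) := mul_le_mul_of_nonneg_left h3 hδ.le
      _ = _ := by ring
  have h5 : v < δ * l * M := lt_of_le_of_lt hvL h2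
  calc v ^ 2 = v * v := by ring
    _ < v * (δ * l * M) := mul_lt_mul_of_pos_left h5 hv0
    _ = δ * l * v * M := by ring

theorem W2C_mu2 {v l δ : ℝ} (hl0 : 0 < l) (hδ : 0 < δ) (hcs : l / δ < v) :
    l ^ 2 < δ * l * v := by
  have h2 : l < v * δ := (div_lt_iff₀ hδ).1 hcs
  calc l ^ 2 = l * l := by ring
    _ < l * (v * δ) := mul_lt_mul_of_pos_left h2 hl0
    _ = δ * l * v := by ring

theorem p_W2C (h1 : S_PT) : S_W2C := by
  obtain ⟨δ, N₀, hδ, hPT⟩ := h1 1 one_pos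
  have hPT' : ∀ N : ℕ, N₀ ≤ N → (W2C_T δ N).Finite ∧ ((W2C_T δ N).ncard : ℝ) ≤ (N : ℝ) ^ (1 : ℝ) :=
    hPT
  clear hPT
  set C₁ : ℝ := 1 + 2 / δ with hC₁
  have hC1 : 1 ≤ C₁ := by
    rw [hC₁]
    have : 0 ≤ 2 / δ := by positivity
    linarith
  have hC1δ : 2 / δ ≤ C₁ := by rw [hC₁]; linarith
  set C : ℝ := Real.exp (Real.exp 1) + N₀ + 1 / δ + (1 + 2 * C₁) * C₁ with hC
  have hp1 : 0 < Real.exp (Real.exp 1) := Real.exp_pos _
  have hp2 : (0 : ℝ) ≤ N₀ := Nat.cast_nonneg _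
  have hp3 : 0 ≤ 1 / δ := by positivity
  have hp4 : 0 ≤ (1 + 2 * C₁) * C₁ := by positivity
  have hC0 : 0 < C := by rw [hC]; linarith
  have hCa : Real.exp (Real.exp 1) ≤ C := by rw [hC]; linarith
  have hCb : (N₀ : ℝ) ≤ C := by rw [hC]; linarith
  have hCc : 1 / δ ≤ C := by rw [hC]; linarith
  have hCd : (1 + 2 * C₁) * C₁ ≤ C := by rw [hC]; linarith
  have hC1' : 1 ≤ C := by
    have : 1 ≤ Real.exp (Real.exp 1) := Real.one_le_exp (Real.exp_pos 1).le
    linarith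
  refine ⟨C, hC0, fun X K hX hK hXK => ?_⟩
  have hX0 : 0 < X := hC0.trans_le hX
  set L := Real.log X with hL
  have hL1 : Real.exp 1 ≤ L := by
    rw [hL, Real.le_log_iff_exp_le hX0]
    exact hCa.trans hX
  have hL0 : 0 < L := (Real.exp_pos 1).trans_le hL1
  have hLL : 1 ≤ Real.log L := by
    rw [Real.le_log_iff_exp_le hL0]
    exact hL1
  have hK0 : 0 < K := by linarith
  set M := K ^ ((2 : ℝ) / 3) with hM
  have hM0 : 0 < M := Real.rpow_pos_of_pos hK0 _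
  have hMK : M ≤ K := by
    have := Real.rpow_le_rpow_of_exponent_le (x := K) (by linarith) (by norm_num : (2 : ℝ) / 3 ≤ 1)
    rwa [Real.rpow_one] at this
  set E := C₁ * L / M with hE
  have hLK : L / K ≤ E := by
    calc L / K ≤ L / M := by gcongr
      _ ≤ C₁ * L / M := by
        gcongr
        exact le_mul_of_one_le_left hL0.le hC1
  have hCL : C * Real.log L ≤ L / K := by
    rw [le_div_iff₀ hK0]
    calc C * Real.log L * K = C * K * Real.log L := by ring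
      _ ≤ L := hXK
  have hEC' : C * Real.log L ≤ E := hCL.trans hLK
  have hEC : C ≤ E := (le_mul_of_one_le_right hC0.le hLL).trans hEC'
  have hE1 : 1 ≤ E := hC1'.trans hEC
  set N := ⌈Real.exp E⌉₊ with hN
  have hN1 : Real.exp E ≤ N := Nat.le_ceil _
  have hexp1 : 1 ≤ Real.exp E := Real.one_le_exp (by linarith)
  have hN2 : (N : ℝ) ≤ 2 * Real.exp E := by
    have h2 := Nat.ceil_lt_add_one (Real.exp_pos E).le
    rw [← hN] at h2
    linarith
  have hN0 : (0 : ℝ) < N := (Real.exp_pos E).trans_le hN1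
  have hNN0 : N₀ ≤ N := by
    have h2 : (N₀ : ℝ) ≤ N := by
      have h3 := Real.add_one_le_exp E
      linarith
    exact_mod_cast h2
  have hl1 : E ≤ Real.log N := (Real.le_log_iff_exp_le hN0).2 hN1
  have hl2 : Real.log N ≤ E + Real.log 2 := by
    have h2 := Real.log_le_log hN0 hN2
    rw [Real.log_mul (by norm_num) (Real.exp_pos E).ne', Real.log_exp] at h2
    linarith
  have hl0 : 0 < Real.log N := by linarith
  have hLN : L ≤ (N : ℝ) ^ δ := by
    have h2 : Real.log L ≤ Real.log N * δ := by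
      have h3 : 1 ≤ C * δ := by
        have := mul_le_mul_of_nonneg_right hCc hδ.le
        rwa [one_div, inv_mul_cancel₀ hδ.ne'] at this
      calc Real.log L = 1 * Real.log L := (one_mul _).symm
        _ ≤ (C * δ) * Real.log L := mul_le_mul_of_nonneg_right h3 (by linarith)
        _ = (C * Real.log L) * δ := by ring
        _ ≤ Real.log N * δ := mul_le_mul_of_nonneg_right (hEC'.trans hl1) hδ.le
    rw [Real.rpow_def_of_pos hN0, ← Real.exp_log hL0]
    rw [Real.exp_log hL0]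
    calc L = Real.exp (Real.log L) := (Real.exp_log hL0).symm
      _ ≤ _ := Real.exp_le_exp.2 h2
  have hXN : X ≤ Real.exp ((N : ℝ) ^ δ) := by
    calc X = Real.exp L := (Real.exp_log hX0).symm
      _ ≤ _ := Real.exp_le_exp.2 hLN
  obtain ⟨hfin, hcard⟩ := hPT' N hNN0
  rw [Real.rpow_one] at hcard
  set κ := K ^ ((1 : ℝ) / 3) with hκ
  have hκ0 : 0 < κ := Real.rpow_pos_of_pos hK0 _
  have hκM : κ ^ 2 = M := by
    rw [hκ, hM, ← Real.rpow_natCast, ← Real.rpow_mul hK0.le]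
    norm_num
  set Q := Real.exp (Real.log N / δ) with hQ
  set S1 : Finset (ℕ × ℕ × ℕ) := (Finset.Icc 1 ⌊Q⌋₊ ×ˢ Finset.Icc 1 ⌊Q⌋₊).image
    (fun p => (p.1, p.2 - p.1, p.2)) with hS1
  have hS1c : (S1.card : ℝ) ≤ Q ^ 2 := by
    have h2 : S1.card ≤ ⌊Q⌋₊ * ⌊Q⌋₊ := by
      refine Finset.card_image_le.trans ?_
      rw [Finset.card_product, Nat.card_Icc]
      simp
    have h3 : (⌊Q⌋₊ : ℝ) ≤ Q := Nat.floor_le (Real.exp_pos _).le
    calc (S1.card : ℝ) ≤ ((⌊Q⌋₊ * ⌊Q⌋₊ : ℕ) : ℝ) := by exact_mod_cast h2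
      _ = (⌊Q⌋₊ : ℝ) * ⌊Q⌋₊ := by push_cast; ring
      _ ≤ Q * Q := mul_le_mul h3 h3 (Nat.cast_nonneg _) (Real.exp_pos _).le
      _ = Q ^ 2 := by ring
  have hsub : W2 X K ⊆ (S1 : Set (ℕ × ℕ × ℕ)) ∪ W2C_T δ N := by
    rintro τ ⟨a, b, c, m, n, k, ha, hb, hc, hab, hbc, hac, hm, hn, hk, heq, hcX, hcase, rfl⟩
    have hle1 : a ^ m ≤ c ^ k := by omega
    have hle2 : b ^ n ≤ c ^ k := by omega
    set v := Real.log ((c ^ k : ℕ) : ℝ) with hv
    have hck0 : (0 : ℝ) < ((c ^ k : ℕ) : ℝ) := by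
      exact_mod_cast pow_pos (by omega : 0 < c) k
    have hckX : ((c ^ k : ℕ) : ℝ) ≤ X := by push_cast; exact hcX
    have hvL : v ≤ L := Real.log_le_log hck0 hckX
    by_cases hcs : v ≤ Real.log N / δ
    · left
      rw [hS1, Finset.mem_coe, Finset.mem_image]
      have h2 : ((c ^ k : ℕ) : ℝ) ≤ Q := by
        rw [hQ, ← Real.log_le_iff_le_exp hck0]
        exact hcs
      have h3 : c ^ k ≤ ⌊Q⌋₊ := Nat.le_floor h2
      have h4 : 1 ≤ a ^ m := Nat.one_le_pow _ _ (by omega)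
      have h5 : 1 ≤ c ^ k := Nat.one_le_pow _ _ (by omega)
      refine ⟨(a ^ m, c ^ k), ?_, ?_⟩
      · rw [Finset.mem_product, Finset.mem_Icc, Finset.mem_Icc]
        exact ⟨⟨h4, by omega⟩, ⟨h5, h3⟩⟩
      · show (a ^ m, c ^ k - a ^ m, c ^ k) = (a ^ m, b ^ n, c ^ k)
        have : c ^ k - a ^ m = b ^ n := by omega
        rw [this]
    · right
      push Not at hcs
      have hbase : ∀ e j : ℕ, 2 ≤ e → 2 ≤ j → e ^ j ≤ c ^ k →
          (e : ℝ) ≤ Real.exp ((N : ℝ) ^ δ) := by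
        intro e j he hj hej
        refine le_trans ?_ (hckX.trans hXN)
        have h2 : e ≤ e ^ j := Nat.le_self_pow (by omega) e
        exact_mod_cast h2.trans hej
      refine ⟨a, b, c, m, n, k, by omega, by omega, by omega, hbase a m ha hm hle1,
        hbase b n hb hn hle2, hbase c k hc hk le_rfl, hab, hbc, hac, hm, hn, hk, heq,
        Or.inl ?_, rfl⟩
      have hvk : Real.log ((c : ℝ) ^ k) = v := by rw [hv]; push_cast; rfl
      rw [hvk]
      have hv0 : 0 < v := lt_trans (div_pos hl0 hδ) hcs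
      set μ := max (v / κ) (Real.log N) with hμ
      have hμ1 : (v / κ) ^ 2 < δ * Real.log N * v :=
        W2C_mu1 hM0 hκM hv0 hvL hδ hC₁ hE hl1
      have hμ2 : (Real.log N) ^ 2 < δ * Real.log N * v := W2C_mu2 hl0 hδ hcs
      have hμ3 : μ ^ 2 < δ * Real.log N * v := by
        rcases max_choice (v / κ) (Real.log N) with h | h
        · rw [hμ, h]; exact hμ1
        · rw [hμ, h]; exact hμ2
      have hbig : ∀ e j : ℕ, 2 ≤ e → κ ≤ j → e ^ j ≤ c ^ k →
          max (Real.log e) (Real.log N) ≤ μ := fun e j he hj hej =>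
        max_le_max (W2C_base hκ0 he hj hej hv) le_rfl
      have hsm : ∀ e : ℕ, 2 ≤ e → (e : ℝ) ≤ X ^ (1 / K) →
          max (Real.log e) (Real.log N) ≤ Real.log N := fun e he h =>
        max_le (((W2C_small hX0 he h).trans hLK).trans hl1) le_rfl
      have hnn : ∀ e : ℕ, 0 ≤ max (Real.log e) (Real.log N) := fun e =>
        hl0.le.trans (le_max_right _ _)
      rcases hcase with ⟨h2, h3, h4⟩ | ⟨h2, h3, h4⟩ | ⟨h2, h3, h4⟩
      · exact W2C_prod (hnn b) (hnn c) (hsm a ha h2) (hbig b n hb h3 hle2)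
          (hbig c k hc h4 le_rfl) hl0 hμ3
      · have h5 := W2C_prod (hnn a) (hnn c) (hsm b hb h2) (hbig a m ha h3 hle1)
          (hbig c k hc h4 le_rfl) hl0 hμ3
        rw [mul_comm (max (Real.log (b : ℝ)) (Real.log N))] at h5
        exact h5
      · have h5 := W2C_prod (hnn a) (hnn b) (hsm c hc h2) (hbig a m ha h3 hle1)
          (hbig b n hb h4 hle2) hl0 hμ3
        rw [mul_assoc, mul_comm] at h5
        exact h5
  have hfinU : ((S1 : Set (ℕ × ℕ × ℕ)) ∪ W2C_T δ N).Finite := S1.finite_toSet.union hfin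
  refine ⟨hfinU.subset hsub, ?_⟩
  have h2 : ((W2 X K).ncard : ℝ) ≤ Q ^ 2 + N := by
    have h3 : (W2 X K).ncard ≤ S1.card + (W2C_T δ N).ncard := by
      refine (Set.ncard_le_ncard hsub hfinU).trans ((Set.ncard_union_le _ _).trans ?_)
      rw [Set.ncard_coe_finset]
    calc ((W2 X K).ncard : ℝ) ≤ ((S1.card + (W2C_T δ N).ncard : ℕ) : ℝ) := by exact_mod_cast h3
      _ = (S1.card : ℝ) + (W2C_T δ N).ncard := by push_cast; ring
      _ ≤ Q ^ 2 + N := add_le_add hS1c hcard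
  refine h2.trans ?_
  have hQ2 : Q ^ 2 ≤ Real.exp (C₁ * Real.log N) := by
    rw [hQ, ← Real.exp_nat_mul]
    apply Real.exp_le_exp.2
    calc ((2 : ℕ) : ℝ) * (Real.log N / δ) = 2 / δ * Real.log N := by push_cast; ring
      _ ≤ C₁ * Real.log N := mul_le_mul_of_nonneg_right hC1δ hl0.le
  have hNN : (N : ℝ) ≤ Real.exp (C₁ * Real.log N) := by
    calc (N : ℝ) = Real.exp (Real.log N) := (Real.exp_log hN0).symm
      _ ≤ _ := by
        apply Real.exp_le_exp.2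
        exact le_mul_of_one_le_left hl0.le hC1
  have hlog2 : Real.log 2 ≤ 1 := by
    have := Real.log_two_lt_d9
    linarith
  calc Q ^ 2 + N ≤ 2 * Real.exp (C₁ * Real.log N) := by linarith
    _ = Real.exp (Real.log 2 + C₁ * Real.log N) := by
      rw [Real.exp_add, Real.exp_log (by norm_num)]
    _ ≤ Real.exp (C / M * L) := by
      apply Real.exp_le_exp.2
      have h3 : C₁ * Real.log N ≤ C₁ * (2 * E) :=
        mul_le_mul_of_nonneg_left (by linarith) (by linarith)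
      have h4 : (1 + 2 * C₁) * E = (1 + 2 * C₁) * C₁ * (L / M) := by rw [hE]; ring
      have h5 : (1 + 2 * C₁) * C₁ * (L / M) ≤ C * (L / M) :=
        mul_le_mul_of_nonneg_right hCd (by positivity)
      have h6 : C / M * L = C * (L / M) := by ring
      rw [h6]
      have h7 : (1 + 2 * C₁) * E = E + C₁ * (2 * E) := by ring
      linarith

end Pool.FCS
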