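import Pool.Agent.Work.MP_2738db_S.Defs

set_option autoImplicit false

/-! # THEOREM T, block W3C: equal exponents -/

namespace Pool.FCS

open NumberField

/-- `log (1 + u) / u` is decreasing -/
theorem W3C_log (x L K : ℝ) (hx : 0 < x) (hK : 0 < K) (h : x * K ≤ L) :
    x * Real.log (1 + L / x) ≤ L / K * Real.log (1 + K) := by
  have hp : 1 ≤ L / (x * K) := by
    rw [le_div_iff₀ (mul_pos hx hK)]
    linarith
  have h1 := one_add_mul_self_le_rpow_one_add (s := K) (by linarith) hp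
  have h2 : 1 + L / (x * K) * K = 1 + L / x := by
    field_simp
  rw [h2] at h1
  have hL : 0 < L := lt_of_lt_of_le (mul_pos hx hK) h
  have h3 : 0 < 1 + L / x := by positivity
  have h4 := Real.log_le_log h3 h1
  rw [Real.log_rpow (by linarith)] at h4
  calc x * Real.log (1 + L / x) ≤ x * (L / (x * K) * Real.log (1 + K)) :=
        mul_le_mul_of_nonneg_left h4 hx.le
    _ = L / K * Real.log (1 + K) := by
        field_simp

/-- the number of solutions with given `c, k` -/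
theorem W3C_div (h1 : S_DVC) (X K : ℝ) (hX : 1 < X) (hK : 2 ≤ K) (c k : ℕ) (hc : 2 ≤ c)
    (hcX : (c : ℝ) ≤ X ^ (1 / K)) (hk : (c : ℝ) ^ k ≤ X) :
    ((3 * (c ^ k).divisors.card : ℕ) : ℝ) ≤
      3 * Real.exp (2 * (Real.log X / K * Real.log (2 * K))) := by
  have hc0 : (0 : ℝ) < c := by positivity
  have hL : 0 < Real.log X := Real.log_pos hX
  have hlc : 0 < Real.log c := Real.log_pos (by exact_mod_cast hc)
  have hl1 : Real.log c * K ≤ Real.log X := by
    have h2 := Real.log_le_log hc0 hcX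
    rw [Real.log_rpow (by linarith)] at h2
    have h3 : Real.log c ≤ Real.log X / K := by
      rw [div_eq_mul_one_div, mul_comm]
      exact h2
    rwa [le_div_iff₀ (by linarith)] at h3
  have hl2 : (k : ℝ) * Real.log c ≤ Real.log X := by
    have h2 := Real.log_le_log (by positivity) hk
    rwa [Real.log_pow] at h2
  have hk2 : (k : ℝ) ≤ Real.log X / Real.log c := by
    rwa [le_div_iff₀ hlc]
  have h2 : (Nat.log 2 c : ℝ) * Real.log 2 ≤ Real.log c := by
    have h3 : 2 ^ Nat.log 2 c ≤ c := Nat.pow_log_le_self 2 (by omega)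
    have h4 : ((2 : ℝ) ^ Nat.log 2 c) ≤ c := by exact_mod_cast h3
    have h5 := Real.log_le_log (by positivity) h4
    rwa [Real.log_pow] at h5
  have hlog2 : (1 : ℝ) / 2 ≤ Real.log 2 := by
    have := Real.log_two_gt_d9
    linarith
  have h3 : (Nat.log 2 c : ℝ) ≤ 2 * Real.log c := by
    have : (0 : ℝ) ≤ (Nat.log 2 c : ℝ) := Nat.cast_nonneg _
    nlinarith
  have h4 : Real.log ((k : ℝ) + 1) ≤ Real.log (1 + Real.log X / Real.log c) :=
    Real.log_le_log (by positivity) (by linarith)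
  have h40 : 0 ≤ Real.log ((k : ℝ) + 1) := Real.log_nonneg (by
    have : (0 : ℝ) ≤ k := Nat.cast_nonneg _
    linarith)
  have h5 := W3C_log (Real.log c) (Real.log X) K hlc (by linarith) hl1
  have h6 : Real.log (1 + K) ≤ Real.log (2 * K) :=
    Real.log_le_log (by linarith) (by linarith)
  have h7 : (Nat.log 2 c : ℝ) * Real.log ((k : ℝ) + 1) ≤
      2 * (Real.log X / K * Real.log (2 * K)) := by
    calc (Nat.log 2 c : ℝ) * Real.log ((k : ℝ) + 1)
        ≤ 2 * Real.log c * Real.log ((k : ℝ) + 1) := mul_le_mul_of_nonneg_right h3 h40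
      _ ≤ 2 * Real.log c * Real.log (1 + Real.log X / Real.log c) :=
          mul_le_mul_of_nonneg_left h4 (by positivity)
      _ = 2 * (Real.log c * Real.log (1 + Real.log X / Real.log c)) := by ring
      _ ≤ 2 * (Real.log X / K * Real.log (1 + K)) := by linarith
      _ ≤ 2 * (Real.log X / K * Real.log (2 * K)) := by
          have : 0 ≤ Real.log X / K := by positivity
          have := mul_le_mul_of_nonneg_left h6 this
          linarith
  have h8 := h1 c k hc
  have h9 : (((c ^ k).divisors.card : ℕ) : ℝ) ≤ ((k : ℝ) + 1) ^ Nat.log 2 c := by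
    exact_mod_cast h8
  have h10 : ((k : ℝ) + 1) ^ Nat.log 2 c ≤ Real.exp (2 * (Real.log X / K * Real.log (2 * K))) := by
    have h11 : ((k : ℝ) + 1) ^ Nat.log 2 c =
        Real.exp ((Nat.log 2 c : ℝ) * Real.log ((k : ℝ) + 1)) := by
      rw [← Real.log_pow, Real.exp_log (by positivity)]
    rw [h11]
    exact Real.exp_le_exp.2 h7
  push_cast
  linarith

theorem p_W3C (h1 : S_DVC) (h2 : S_EQC) : S_W3C := by
  classical
  refine ⟨100, by norm_num, ?_⟩
  intro X K hX hK hCK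
  have hX1 : 1 < X := by linarith
  have hX0 : 0 < X := by linarith
  have hK0 : 0 < K := by linarith
  set L := Real.log X with hLdef
  have hL3 : 3 ≤ L := by
    rw [hLdef, Real.le_log_iff_exp_le hX0]
    have h3 : Real.exp 3 = Real.exp 1 ^ 3 := by
      rw [← Real.exp_nat_mul]
      norm_num
    rw [h3]
    have h4 := Real.exp_one_lt_d9
    have h5 : Real.exp 1 ^ 3 ≤ (2.7182818286 : ℝ) ^ 3 :=
      pow_le_pow_left₀ (Real.exp_pos _).le h4.le 3
    norm_num at h5 ⊢
    linarith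
  have hL0 : 0 < L := by linarith
  have hlogL : 1 ≤ Real.log L := by
    rw [Real.le_log_iff_exp_le hL0]
    have h4 := Real.exp_one_lt_d9
    linarith
  have hLK : Real.log L ≤ L / K / 100 := by
    rw [le_div_iff₀ (by norm_num), le_div_iff₀ hK0]
    linarith
  set M := ⌊X ^ (1 / K)⌋₊ with hM
  set l := Nat.log 2 ⌊X⌋₊ with hl
  have hle : ∀ (e j : ℕ), 2 ≤ e → (e : ℝ) ^ j ≤ X → j ≤ l := by
    intro e j he hj
    have h3 : e ^ j ≤ ⌊X⌋₊ := Nat.le_floor (by exact_mod_cast hj)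
    have h4 : 2 ^ j ≤ ⌊X⌋₊ := (Nat.pow_le_pow_left he j).trans h3
    exact Nat.le_log_of_pow_le (by norm_num) h4
  -- the index set
  let T : Finset (Fin 6 × ℕ × ℕ × ℕ) :=
    (Finset.univ ×ˢ Finset.Icc 2 M ×ˢ Finset.Icc 3 l ×ˢ Finset.range (l + 1)).filter
      (fun t => (t.2.1 : ℝ) ^ t.2.2.2 ≤ X)
  have hfin : ∀ c k n : ℕ, 2 ≤ c → 3 ≤ n → {p : ℕ × ℕ | EqE n c k p.1 p.2}.Finite :=
    fun c k n hc hn => (h2 c k n hc hn).1
  let F : Fin 6 × ℕ × ℕ × ℕ → Finset (ℕ × ℕ × ℕ) := fun t =>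
    if h : 2 ≤ t.2.1 ∧ 3 ≤ t.2.2.1 then
      (hfin t.2.1 t.2.2.2 t.2.2.1 h.1 h.2).toFinset.image
        (fun p => perm6 t.1 (p.1 ^ t.2.2.1, p.2 ^ t.2.2.1, t.2.1 ^ t.2.2.2))
    else ∅
  have hsub : W3 X K ⊆ ((T.biUnion F : Finset (ℕ × ℕ × ℕ)) : Set (ℕ × ℕ × ℕ)) := by
    rintro τ ⟨i, a, b, c, n, k, hc, hcX, hn, ha, hE, haX, hckX, rfl⟩
    rw [Finset.mem_coe, Finset.mem_biUnion]
    refine ⟨(i, c, n, k), ?_, ?_⟩
    · simp only [T, Finset.mem_filter, Finset.mem_product, Finset.mem_univ, Finset.mem_Icc,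
        Finset.mem_range, true_and]
      exact ⟨⟨⟨hc, Nat.le_floor hcX⟩, ⟨hn, hle a n ha haX⟩,
        Nat.lt_succ_of_le (hle c k hc hckX)⟩, hckX⟩
    · simp only [F]
      rw [dif_pos ⟨hc, hn⟩, Finset.mem_image]
      exact ⟨(a, b), (Set.Finite.mem_toFinset _).2 hE, rfl⟩
  have hfinW : (W3 X K).Finite := (Finset.finite_toSet _).subset hsub
  refine ⟨hfinW, ?_⟩
  have hcardF : ∀ t ∈ T, ((F t).card : ℝ) ≤
      3 * Real.exp (2 * (L / K * Real.log (2 * K))) := by
    rintro ⟨i, c, n, k⟩ ht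
    simp only [T, Finset.mem_filter, Finset.mem_product, Finset.mem_univ, Finset.mem_Icc,
        Finset.mem_range, true_and] at ht
    obtain ⟨⟨⟨hc, hcM⟩, ⟨hn, -⟩, -⟩, hck⟩ := ht
    have hcX : (c : ℝ) ≤ X ^ (1 / K) :=
      (Nat.cast_le.2 hcM).trans (Nat.floor_le (Real.rpow_nonneg hX0.le _))
    have h3 := (h2 c k n hc hn).2
    simp only [F]
    rw [dif_pos ⟨hc, hn⟩]
    have h4 : ((hfin c k n hc hn).toFinset.image
        (fun p => perm6 i (p.1 ^ n, p.2 ^ n, c ^ k))).card ≤ 3 * (c ^ k).divisors.card := by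
      refine Finset.card_image_le.trans ?_
      rw [← Set.ncard_eq_toFinset_card _ (hfin c k n hc hn)]
      exact h3
    refine (Nat.cast_le.2 h4).trans ?_
    exact W3C_div h1 X K hX1 hK c k hc hcX hck
  have hcardT : (T.card : ℝ) ≤ 6 * X ^ (1 / K) * ((l : ℝ) + 1) ^ 2 := by
    have h3 : T.card ≤ 6 * M * ((l + 1) * (l + 1)) := by
      refine (Finset.card_filter_le _ _).trans ?_
      rw [Finset.card_product, Finset.card_product, Finset.card_product, Finset.card_univ,
        Fintype.card_fin, Nat.card_Icc, Nat.card_Icc, Finset.card_range, mul_assoc 6]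
      refine Nat.mul_le_mul le_rfl (Nat.mul_le_mul (by omega) (Nat.mul_le_mul (by omega) le_rfl))
    have h4 : (M : ℝ) ≤ X ^ (1 / K) := Nat.floor_le (Real.rpow_nonneg hX0.le _)
    calc (T.card : ℝ) ≤ ((6 * M * ((l + 1) * (l + 1)) : ℕ) : ℝ) := by exact_mod_cast h3
      _ = 6 * (M : ℝ) * ((l : ℝ) + 1) ^ 2 := by push_cast; ring
      _ ≤ _ := by gcongr
  have hcardW : ((W3 X K).ncard : ℝ) ≤
      (6 * X ^ (1 / K) * ((l : ℝ) + 1) ^ 2) * (3 * Real.exp (2 * (L / K * Real.log (2 * K)))) := by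
    have h3 : (W3 X K).ncard ≤ (T.biUnion F).card := by
      rw [← Set.ncard_coe_finset]
      exact Set.ncard_le_ncard hsub (Finset.finite_toSet _)
    have h4 : (T.biUnion F).card ≤ ∑ t ∈ T, (F t).card := Finset.card_biUnion_le
    calc ((W3 X K).ncard : ℝ) ≤ ((∑ t ∈ T, (F t).card : ℕ) : ℝ) := by exact_mod_cast h3.trans h4
      _ = ∑ t ∈ T, ((F t).card : ℝ) := by push_cast; rfl
      _ ≤ ∑ _t ∈ T, 3 * Real.exp (2 * (L / K * Real.log (2 * K))) := Finset.sum_le_sum hcardF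
      _ = (T.card : ℝ) * (3 * Real.exp (2 * (L / K * Real.log (2 * K)))) := by
          rw [Finset.sum_const, nsmul_eq_mul]
      _ ≤ _ := mul_le_mul_of_nonneg_right hcardT (by positivity)
  refine hcardW.trans ?_
  -- everything in exponentials
  have hl1 : (l : ℝ) + 1 ≤ 3 * L := by
    have h3 : 2 ^ l ≤ ⌊X⌋₊ := Nat.pow_log_le_self 2 (by
      have : 1 ≤ ⌊X⌋₊ := Nat.le_floor (by exact_mod_cast hX1.le)
      omega)
    have h4 : ((2 : ℝ) ^ l) ≤ X := by
      have h5 : ((2 ^ l : ℕ) : ℝ) ≤ (⌊X⌋₊ : ℝ) := Nat.cast_le.2 h3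
      push_cast at h5
      exact h5.trans (Nat.floor_le hX0.le)
    have h5 := Real.log_le_log (by positivity) h4
    rw [Real.log_pow] at h5
    have h6 := Real.log_two_gt_d9
    have h7 : (0 : ℝ) ≤ (l : ℝ) := Nat.cast_nonneg _
    nlinarith
  have hlog2K : 1 ≤ Real.log (2 * K) := by
    have h3 : Real.log 4 ≤ Real.log (2 * K) := Real.log_le_log (by norm_num) (by linarith)
    have h4 : Real.log 4 = 2 * Real.log 2 := by
      have : (4 : ℝ) = 2 ^ (2 : ℕ) := by norm_num
      rw [this, Real.log_pow]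
      norm_num
    have h5 := Real.log_two_gt_d9
    linarith
  have hLK0 : 0 ≤ L / K := by positivity
  have e1 : X ^ (1 / K) = Real.exp (L / K) := by
    rw [Real.rpow_def_of_pos hX0, ← hLdef]
    congr 1
    ring
  have hlogl : Real.log ((l : ℝ) + 1) ≤ 3 * Real.log L := by
    have h3 : Real.log ((l : ℝ) + 1) ≤ Real.log (3 * L) :=
      Real.log_le_log (by positivity) hl1
    rw [Real.log_mul (by norm_num) hL0.ne'] at h3
    have h4 : Real.log 3 ≤ 2 := by
      have := Real.log_le_sub_one_of_pos (show (0 : ℝ) < 3 by norm_num)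
      linarith
    linarith
  have e2 : ((l : ℝ) + 1) ^ 2 ≤ Real.exp (6 * Real.log L) := by
    have h3 : ((l : ℝ) + 1) ^ 2 = Real.exp (2 * Real.log ((l : ℝ) + 1)) := by
      have := Real.log_pow (x := (l : ℝ) + 1) 2
      push_cast at this
      rw [← this, Real.exp_log (by positivity)]
    rw [h3]
    exact Real.exp_le_exp.2 (by linarith)
  have e3 : (18 : ℝ) ≤ Real.exp 3 := by
    have h3 : Real.exp 3 = Real.exp 1 ^ 3 := by
      rw [← Real.exp_nat_mul]
      norm_num
    have h4 := Real.exp_one_gt_d9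
    have h5 : (2.7182818283 : ℝ) ^ 3 ≤ Real.exp 1 ^ 3 :=
      pow_le_pow_left₀ (by norm_num) h4.le 3
    rw [h3]
    norm_num at h5 ⊢
    linarith
  rw [e1]
  calc 6 * Real.exp (L / K) * ((l : ℝ) + 1) ^ 2 *
        (3 * Real.exp (2 * (L / K * Real.log (2 * K))))
      = 18 * Real.exp (L / K) * ((l : ℝ) + 1) ^ 2 *
        Real.exp (2 * (L / K * Real.log (2 * K))) := by ring
    _ ≤ Real.exp 3 * Real.exp (L / K) * Real.exp (6 * Real.log L) *
        Real.exp (2 * (L / K * Real.log (2 * K))) := by gcongr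
    _ = Real.exp (3 + L / K + 6 * Real.log L + 2 * (L / K * Real.log (2 * K))) := by
        rw [Real.exp_add, Real.exp_add, Real.exp_add]
    _ ≤ Real.exp (100 * Real.log (2 * K) / K * L) := by
        apply Real.exp_le_exp.2
        have h3 : L / K ≤ L / K * Real.log (2 * K) := le_mul_of_one_le_right hLK0 hlog2K
        have h4 : 100 * Real.log (2 * K) / K * L = 100 * (L / K * Real.log (2 * K)) := by
          field_simp
        rw [h4]
        linarith

end Pool.FCS
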