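import Pool.Agent.Work.MP_2738db_S.B_PRP
import Pool.Agent.Work.MP_2738db_S.B_VAL
import Pool.Agent.Work.MP_2738db_S.B_DEC
import Pool.Agent.Work.MP_2738db_S.B_IDM
import Pool.Agent.Work.MP_2738db_S.B_IDC
import Pool.Agent.Work.MP_2738db_S.B_FLD
import Pool.Agent.Work.MP_2738db_S.B_OMG
import Pool.Agent.Work.MP_2738db_S.B_PIG
import Pool.Agent.Work.MP_2738db_S.B_UNT
import Pool.Agent.Work.MP_2738db_S.B_CLS
import Pool.Agent.Work.MP_2738db_S.B_SEL
import Pool.Agent.Work.MP_2738db_S.B_COF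
import Pool.Agent.Work.MP_2738db_S.B_LTE
import Pool.Agent.Work.MP_2738db_S.B_TRC
import Pool.Agent.Work.MP_2738db_S.B_GAM
import Pool.Agent.Work.MP_2738db_S.B_RES
import Pool.Agent.Work.MP_2738db_S.B_PA1
import Pool.Agent.Work.MP_2738db_S.B_PA2
import Pool.Agent.Work.MP_2738db_S.B_SZ1
import Pool.Agent.Work.MP_2738db_S.B_SZ2
import Pool.Agent.Work.MP_2738db_S.B_ROT
import Pool.Agent.Work.MP_2738db_S.B_FIB
import Pool.Agent.Work.MP_2738db_S.B_FIX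
import Pool.Agent.Work.MP_2738db_S.B_QDC
import Pool.Agent.Work.MP_2738db_S.B_QCG
import Pool.Agent.Work.MP_2738db_S.B_QSZ
import Pool.Agent.Work.MP_2738db_S.B_QEN
import Pool.Agent.Work.MP_2738db_S.B_SQF
import Pool.Agent.Work.MP_2738db_S.B_BND
import Pool.Agent.Work.MP_2738db_S.B_THS
import Pool.Agent.Work.MP_2738db_S.B_ROL
import Pool.Agent.Work.MP_2738db_S.B_W1C
import Pool.Agent.Work.MP_2738db_S.B_W2C
import Pool.Agent.Work.MP_2738db_S.B_DVC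
import Pool.Agent.Work.MP_2738db_S.B_EQC
import Pool.Agent.Work.MP_2738db_S.B_W3C
import Pool.Agent.Work.MP_2738db_S.B_THT

/-!
# MP_2738db_nt: THEOREM T from all blocks
-/

set_option autoImplicit false

namespace Pool.FCS

/-- THEOREM S -/
theorem theoremS : S_THS := by
  have hDEC := p_DEC p_PRP p_VAL
  have hIDC := p_IDC (p_IDM p_PRP)
  have hCLS := p_CLS hDEC hIDC p_OMG p_PIG
  have hSEL := p_SEL hCLS p_UNT
  have hCOF := p_COF
  have hRES := p_RES p_COF p_GAM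
  have hPA1 := p_PA1 p_COF p_GAM p_LTE
  have hPA2 := p_PA2 hPA1 p_TRC
  have hSZ1 := p_SZ1 p_COF p_GAM
  have hFIB := p_FIB hCOF p_GAM hRES hPA2 hSZ1 p_SZ2 p_ROT
  have hFIX := p_FIX p_FLD hSEL hCOF hFIB
  have hSQF := p_SQF p_QDC (p_QCG p_LTE) p_QSZ p_QEN
  exact p_THS hFIX hSQF p_BND

/-- THEOREM T -/
theorem theoremT (hPT : S_PT) : S_THT :=
  p_THT p_ROL (p_W1C theoremS) (p_W2C hPT) (p_W3C p_DVC p_EQC)

end Pool.FCS
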