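import Pool.Agent.Work.MP_2738db_S.Defs

/-! # Block DVC -/

namespace Pool.FCS

open NumberField

theorem DVC_aux (k : ℕ) : ∀ c : ℕ, 1 ≤ c → (c ^ k).divisors.card ≤ (k + 1) ^ Nat.log 2 c := by
  intro c
  induction c using Nat.strong_induction_on with
  | _ c ih =>
    intro hc
    rcases Nat.eq_or_lt_of_le hc with h1 | h1
    · rw [← h1]
      simp
    · have hp : (Nat.minFac c).Prime := Nat.minFac_prime (by omega)
      obtain ⟨c', hc'⟩ := Nat.minFac_dvd c
      have hc0 : 1 ≤ c' := by
        rcases Nat.eq_zero_or_pos c' with h | h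
        · rw [h, mul_zero] at hc'
          omega
        · exact h
      have hlt : c' < c := by
        have h2 := hp.two_le
        calc c' < 2 * c' := by omega
          _ ≤ c.minFac * c' := Nat.mul_le_mul_right _ h2
          _ = c := hc'.symm
      have h3 := ih c' hlt hc0
      have h4 : (c ^ k).divisors.card ≤ (k + 1) * (c' ^ k).divisors.card := by
        have h5 : c ^ k = c.minFac ^ k * c' ^ k := by
          rw [← mul_pow, ← hc']
        rw [h5, Nat.divisors_mul]
        refine Finset.card_mul_le.trans ?_
        have h6 : (c.minFac ^ k).divisors.card = k + 1 := by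
          rw [Nat.divisors_prime_pow hp, Finset.card_map, Finset.card_range]
        rw [h6]
      have h7 : Nat.log 2 c' + 1 ≤ Nat.log 2 c := by
        rw [← Nat.log_mul_base (by norm_num) (by omega)]
        apply Nat.log_mono_right
        calc c' * 2 ≤ c' * c.minFac := Nat.mul_le_mul_left _ hp.two_le
          _ = c := by rw [mul_comm]; exact hc'.symm
      calc (c ^ k).divisors.card ≤ (k + 1) * (c' ^ k).divisors.card := h4
        _ ≤ (k + 1) * (k + 1) ^ Nat.log 2 c' := Nat.mul_le_mul_left _ h3
        _ = (k + 1) ^ (Nat.log 2 c' + 1) := by ring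
        _ ≤ (k + 1) ^ Nat.log 2 c := Nat.pow_le_pow_right (by omega) h7

theorem p_DVC : S_DVC := fun c k hc => DVC_aux k c (by omega)

end Pool.FCS
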