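import Pool.Agent.Work.MP_2738db_S.Defs

/-! # Block FIX: all solutions with given exponent `k`, field case -/

set_option autoImplicit false

namespace Pool.FCS

open NumberField

theorem FIX_sq (c k : ℕ) (h : IsSquare (c ^ (k % 2))) : IsSquare (c ^ k) := by
  have h1 : c ^ k = (c ^ (k / 2)) ^ 2 * c ^ (k % 2) := by
    rw [← pow_mul, ← pow_add]
    congr 1
    omega
  rw [h1]
  exact IsSquare.mul (IsSquare.sq _) h

theorem FIX_det {n m c k : ℕ} {s t : ℤ} {a a' b : ℕ} (hm : m ≠ 0) (h : Sol n m c k s t a b)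
    (h' : Sol n m c k s t a' b) : a = a' := by
  have e1 := h.eq
  have e2 := h'.eq
  have e3 : t * (a : ℤ) ^ m = t * (a' : ℤ) ^ m := by rw [e1, e2]
  have ht : t ≠ 0 := by
    rcases h.ht with h1 | h1 <;> rw [h1] <;> norm_num
  have e4 := mul_left_cancel₀ ht e3
  have e5 : a ^ m = a' ^ m := by exact_mod_cast e4
  exact Nat.pow_left_injective hm e5

theorem p_FIX (h1 : S_FLD) (h2 : S_SEL) (h3 : S_COF) (h4 : S_FIB) : S_FIX := by
  classical
  intro c n m k s t Z hc hn hnm hs hsq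
  have hm0 : m ≠ 0 := by omega
  obtain ⟨K, iF, iN, θ, hF⟩ := h1 c n (k % n) s hc hn (Nat.mod_lt _ (by omega)) hs (by
    intro hn2 hs1 hq
    apply hsq hn2 hs1
    subst hn2
    exact FIX_sq c k hq)
  obtain ⟨f, hf1, hf2⟩ := h2 K c n (k % n) s θ m hF (by omega)
  have hinj : Set.InjOn Prod.snd {p : ℕ × ℕ | Sol n m c k s t p.1 p.2 ∧ p.2 ≤ Z} := by
    rintro ⟨a, b⟩ ⟨hp, _⟩ ⟨a', b'⟩ ⟨hq, _⟩ h
    simp only at h hp hq
    subst h
    rw [FIX_det hm0 hp hq]
  have hfin : {p : ℕ × ℕ | Sol n m c k s t p.1 p.2 ∧ p.2 ≤ Z}.Finite := by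
    refine Set.Finite.of_injOn (f := Prod.snd) (t := (Finset.range (Z + 1) : Set ℕ)) ?_ hinj
      (Finset.finite_toSet _)
    rintro p ⟨_, hp⟩
    rw [Finset.mem_coe, Finset.mem_range]
    omega
  refine ⟨hfin, ?_⟩
  rw [Set.ncard_eq_toFinset_card _ hfin]
  set T := hfin.toFinset with hT
  have hTm : ∀ p : ℕ × ℕ, p ∈ T ↔ Sol n m c k s t p.1 p.2 ∧ p.2 ≤ Z := by
    intro p
    rw [hT, Set.Finite.mem_toFinset]
    exact Iff.rfl
  have hadm : ∀ p ∈ T, Adm K n m (xel θ c (k / n) p.2) := by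
    intro p hp
    obtain ⟨_, _, _, _, _, _, _, _, h⟩ :=
      h3 K c n (k % n) s θ m k t p.1 p.2 rfl hF ((hTm p).1 hp).1
    exact h
  have hA : (T.filter fun p => p.2 < Hb n m c).card ≤ Hb n m c := by
    refine (Finset.card_le_card_of_injOn (t := Finset.range (Hb n m c)) Prod.snd ?_ ?_).trans_eq
      (Finset.card_range _)
    · intro p hp
      rw [Finset.mem_coe, Finset.mem_filter] at hp
      rw [Finset.mem_coe, Finset.mem_range]
      exact hp.2
    · intro p hp q hq h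
      rw [Finset.mem_coe, Finset.mem_filter] at hp hq
      exact hinj ((hTm p).1 hp.1) ((hTm q).1 hq.1) h
  have hB : (T.filter fun p => ¬ p.2 < Hb n m c).card ≤
      (c ^ (2 * n) * m ^ n * (Nat.log 2 Z + 2)) * Ncls n m c := by
    refine (Finset.card_le_mul_card_image (f := fun p : ℕ × ℕ => f (xel θ c (k / n) p.2)) _
      (c ^ (2 * n) * m ^ n * (Nat.log 2 Z + 2)) ?_).trans ?_
    · intro i hi
      rw [Finset.mem_image] at hi
      obtain ⟨p₀, hp₀, hi⟩ := hi
      rw [Finset.mem_filter] at hp₀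
      obtain ⟨hp₀T, hp₀b⟩ := hp₀
      obtain ⟨g1, g2⟩ := h4 K c n s θ m k t p₀.1 p₀.2 Z hnm hF ((hTm p₀).1 hp₀T).1
      refine le_trans ?_ g2
      rw [← Set.ncard_coe_finset]
      refine Set.ncard_le_ncard ?_ g1
      intro p hp
      rw [Finset.mem_coe, Finset.mem_filter, Finset.mem_filter] at hp
      obtain ⟨⟨hpT, hpb⟩, hpi⟩ := hp
      refine ⟨((hTm p).1 hpT).1, by omega, ((hTm p).1 hpT).2, ?_⟩
      exact hf2 _ _ (hadm p₀ hp₀T) (hadm p hpT) (by rw [hi, hpi])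
    · apply Nat.mul_le_mul_left
      refine (Finset.card_le_card (t := Finset.range (Ncls n m c)) ?_).trans_eq
        (Finset.card_range _)
      intro i hi
      rw [Finset.mem_image] at hi
      obtain ⟨p, hp, rfl⟩ := hi
      rw [Finset.mem_filter] at hp
      rw [Finset.mem_range]
      exact hf1 _ (hadm p hp.1)
  have h5 := Finset.card_filter_add_card_filter_not (s := T) (fun p => p.2 < Hb n m c)
  have h6 : (c ^ (2 * n) * m ^ n * (Nat.log 2 Z + 2)) * Ncls n m c =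
    Ncls n m c * (c ^ (2 * n) * m ^ n * (Nat.log 2 Z + 2)) := mul_comm _ _
  rw [h6] at hB
  omega

end Pool.FCS
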