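import Pool.Agent.Work.MP_2738db_S.Defs

/-!
# Block PRP: prime ideals containing a number
-/

namespace Pool.FCS

open NumberField

theorem p_PRP : S_PRP := by
  intro K _ _ g P hg hP
  have hg0 : (g : 𝓞 K) ≠ 0 := by
    have : g ≠ 0 := by omega
    exact_mod_cast this
  have hdvd : ∏ p ∈ P, p ∣ Ideal.span {(g : 𝓞 K)} := by
    apply Finset.prod_primes_dvd
    · intro p hp
      obtain ⟨h1, h2⟩ := hP p hp
      refine Ideal.prime_of_isPrime ?_ h1
      rintro rfl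
      exact hg0 (by simpa using h2)
    · intro p hp
      obtain ⟨h1, h2⟩ := hP p hp
      rw [Ideal.dvd_iff_le, Ideal.span_singleton_le_iff_mem]
      exact h2
  have h1 : Ideal.absNorm (∏ p ∈ P, p) ∣ Ideal.absNorm (Ideal.span {(g : 𝓞 K)}) :=
    Ideal.absNorm_dvd_absNorm_of_le (Ideal.dvd_iff_le.mp hdvd)
  rw [map_prod] at h1
  have h2 : Ideal.absNorm (Ideal.span {(g : 𝓞 K)}) = g ^ Module.finrank ℚ K := by
    rw [Ideal.absNorm_span_singleton]
    have h3 : Algebra.norm ℤ (algebraMap ℤ (𝓞 K) (g : ℤ)) = (g : ℤ) ^ Module.finrank ℤ (𝓞 K) :=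
      Algebra.norm_algebraMap (g : ℤ)
    have h4 : ((g : ℕ) : 𝓞 K) = algebraMap ℤ (𝓞 K) (g : ℤ) := by simp
    rw [h4, h3, Int.natAbs_pow, Int.natAbs_natCast, RingOfIntegers.rank]
  rw [h2] at h1
  exact Nat.le_of_dvd (Nat.pow_pos (by omega)) h1

end Pool.FCS
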