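import Mathlib

/-!
# An integral ideal of small norm in the inverse class

`pigeon`: if `ω 0, …, ω (d-1)` (`d = [K : ℚ]`) are linearly independent algebraic integers of `K`
with all conjugates of absolute value at most `B`, then for each nonzero ideal `A` there are
`α ≠ 0` and an ideal `R` with `(α) = R * A` and `N(R) ≤ (d * B) ^ d`.
-/

set_option autoImplicit false

namespace Pool.Agent.FCS.Pigeon

open Ideal NumberField Module

variable (K : Type*) [Field K] [NumberField K]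

theorem exists_root (d N : ℕ) (hd : 1 ≤ d) : ∃ H : ℕ, H ^ d ≤ N ∧ N < (H + 1) ^ d := by
  have hex : ∃ H : ℕ, N < (H + 1) ^ d := ⟨N, by
    calc N < N + 1 := Nat.lt_succ_self N
      _ ≤ (N + 1) ^ d := Nat.le_self_pow (by omega) _⟩
  classical
  refine ⟨Nat.find hex, ?_, Nat.find_spec hex⟩
  rcases Nat.eq_zero_or_pos (Nat.find hex) with h | h
  · rw [h, zero_pow (by omega)]
    exact Nat.zero_le _
  · have := Nat.find_min hex (Nat.sub_lt h (by norm_num : 0 < 1))
    rw [Nat.sub_add_cancel h] at this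
    omega

theorem pigeon (d : ℕ) (hd : finrank ℚ K = d) (ω : Fin d → 𝓞 K) (hω : LinearIndependent ℤ ω)
    (B : ℝ) (hB : ∀ (φ : K →+* ℂ) (i), ‖φ (ω i)‖ ≤ B) (A : Ideal (𝓞 K)) (hA : A ≠ ⊥) :
    ∃ α : 𝓞 K, α ≠ 0 ∧ ∃ R : Ideal (𝓞 K), span {α} = R * A ∧
      (absNorm R : ℝ) ≤ (d * B) ^ d := by
  classical
  have hd1 : 1 ≤ d := hd ▸ finrank_pos
  have hB0 : 0 ≤ B := (norm_nonneg _).trans (hB (Classical.arbitrary _) ⟨0, hd1⟩)
  obtain ⟨H, h1, h2⟩ := exists_root d (absNorm A) hd1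
  have hN0 : absNorm A ≠ 0 := fun h => hA (absNorm_eq_zero_iff.mp h)
  haveI : Finite (𝓞 K ⧸ A) := (absNorm_ne_zero_iff A).mp hN0
  haveI : Fintype (𝓞 K ⧸ A) := Fintype.ofFinite _
  have hcard : Fintype.card (𝓞 K ⧸ A) < Fintype.card (Fin d → Fin (H + 1)) := by
    rw [Fintype.card_fun, Fintype.card_fin, Fintype.card_fin]
    have : Fintype.card (𝓞 K ⧸ A) = absNorm A := by
      rw [absNorm_apply, Submodule.cardQuot_apply, Nat.card_eq_fintype_card]
    rw [this]
    exact h2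
  let F : (Fin d → Fin (H + 1)) → 𝓞 K := fun f => ∑ i, ((f i : ℕ) : ℤ) • ω i
  obtain ⟨f, g, hfg, he⟩ := Fintype.exists_ne_map_eq_of_card_lt
    (fun f => Ideal.Quotient.mk A (F f)) hcard
  have hmem : F f - F g ∈ A := Ideal.Quotient.eq.mp he
  have hsub : F f - F g = ∑ i, (((f i : ℕ) : ℤ) - ((g i : ℕ) : ℤ)) • ω i := by
    simp only [F, ← Finset.sum_sub_distrib, sub_smul]
  have hne : F f - F g ≠ 0 := by
    rw [hsub]
    intro h0
    have := Fintype.linearIndependent_iff.mp hω _ h0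
    apply hfg
    funext i
    have h3 := this i
    apply Fin.ext
    have : ((f i : ℕ) : ℤ) = ((g i : ℕ) : ℤ) := by linarith
    exact_mod_cast this
  set α := F f - F g with hα
  have hpl : ∀ w : InfinitePlace K, w (α : K) ≤ d * H * B := by
    intro w
    rw [← InfinitePlace.norm_embedding_eq, hsub]
    have hcast : ((∑ i, (((f i : ℕ) : ℤ) - ((g i : ℕ) : ℤ)) • ω i : 𝓞 K) : K) =
        ∑ i, ((((f i : ℕ) : ℤ) - ((g i : ℕ) : ℤ) : ℤ) : K) * (ω i : K) := by
      push_cast
      refine Finset.sum_congr rfl fun i _ => ?_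
      rw [zsmul_eq_mul]
      push_cast
      rfl
    rw [hcast, map_sum]
    refine (norm_sum_le _ _).trans ?_
    have hb : ∀ i ∈ (Finset.univ : Finset (Fin d)),
        ‖w.embedding (((((f i : ℕ) : ℤ) - ((g i : ℕ) : ℤ) : ℤ) : K) * (ω i : K))‖ ≤ H * B := by
      intro i _
      rw [map_mul, map_intCast, norm_mul]
      refine mul_le_mul ?_ (hB _ i) (norm_nonneg _) (Nat.cast_nonneg _)
      rw [Complex.norm_intCast]
      have hf := (f i).is_lt
      have hg := (g i).is_lt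
      have : |(((f i : ℕ) : ℤ) - ((g i : ℕ) : ℤ))| ≤ (H : ℤ) := by
        rw [abs_le]; omega
      exact_mod_cast this
    refine (Finset.sum_le_sum hb).trans ?_
    rw [Finset.sum_const, Finset.card_univ, Fintype.card_fin, nsmul_eq_mul]
    exact le_of_eq (by ring)
  have hnorm : |((Algebra.norm ℚ (α : K) : ℚ) : ℝ)| ≤ (d * H * B) ^ d := by
    have h4 := InfinitePlace.prod_eq_abs_norm (α : K)
    have h5 : ((|Algebra.norm ℚ (α : K)| : ℚ) : ℝ) = |((Algebra.norm ℚ (α : K) : ℚ) : ℝ)| := by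
      push_cast; rfl
    rw [← h5, ← h4]
    calc ∏ w : InfinitePlace K, w (α : K) ^ w.mult
        ≤ ∏ w : InfinitePlace K, (d * H * B) ^ w.mult :=
          Finset.prod_le_prod (fun w _ => pow_nonneg (apply_nonneg _ _) _)
            fun w _ => pow_le_pow_left₀ (apply_nonneg _ _) (hpl w) _
      _ = (d * H * B) ^ d := by
          rw [Finset.prod_pow_eq_pow_sum, InfinitePlace.sum_mult_eq, hd]
  obtain ⟨R, hR⟩ := Ideal.dvd_iff_le.mpr ((Ideal.span_singleton_le_iff_mem A).mpr hmem)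
  refine ⟨α, hne, R, by rw [hR, mul_comm], ?_⟩
  have h6 : absNorm (span {α}) = absNorm A * absNorm R := by rw [hR, map_mul]
  have h7 : (absNorm (span {α}) : ℝ) = |((Algebra.norm ℚ (α : K) : ℚ) : ℝ)| := by
    rw [absNorm_span_singleton, ← Algebra.coe_norm_int]
    rw [Nat.cast_natAbs]
    push_cast
    rfl
  have hApos : (0 : ℝ) < absNorm A := by exact_mod_cast Nat.pos_of_ne_zero hN0
  have h8 : (absNorm A : ℝ) * absNorm R ≤ absNorm A * (d * B) ^ d := by
    rw [← Nat.cast_mul, ← h6, h7]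
    refine hnorm.trans ?_
    have : ((d : ℝ) * H * B) ^ d = (H : ℝ) ^ d * (d * B) ^ d := by
      rw [← mul_pow]; ring
    rw [this]
    refine mul_le_mul_of_nonneg_right ?_ (by positivity)
    exact_mod_cast h1
  exact le_of_mul_le_mul_left h8 hApos

end Pool.Agent.FCS.Pigeon
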