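import Mathlib

/-!
# Units of a number field modulo `m`-th powers: at most `m ^ [K : ℚ]` classes
-/

set_option autoImplicit false

namespace Pool.Agent.FCS.UnitsMod

open NumberField Module NumberField.Units

variable (K : Type*) [Field K] [NumberField K]

theorem rank_succ_le : rank K + 1 ≤ finrank ℚ K := by
  classical
  have h1 : rank K + 1 = Fintype.card (InfinitePlace K) := by
    unfold rank
    exact Nat.sub_add_cancel Fintype.card_pos
  rw [h1, ← InfinitePlace.sum_mult_eq (K := K), ← Finset.card_univ, Finset.card_eq_sum_ones]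
  exact Finset.sum_le_sum fun w _ => InfinitePlace.mult_pos

/-- The units have at most `m ^ [K : ℚ]` classes modulo `m`-th powers. -/
theorem unitsMod (m : ℕ) (hm : 1 ≤ m) :
    ∃ cls : (𝓞 K)ˣ → Fin (m ^ finrank ℚ K), ∀ u v : (𝓞 K)ˣ, cls u = cls v →
      ∃ w : (𝓞 K)ˣ, u = v * w ^ m := by
  classical
  haveI : NeZero m := ⟨by omega⟩
  obtain ⟨g, hg⟩ := IsCyclic.exists_generator (α := torsion K)
  choose ze hze _ using fun x : (𝓞 K)ˣ => exist_unique_eq_mul_prod K x
  have hk : ∀ x : (𝓞 K)ˣ, ∃ k : ℤ, g ^ k = (ze x).1 := fun x =>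
    Subgroup.mem_zpowers_iff.mp (hg (ze x).1)
  choose k hk using hk
  let lab : (𝓞 K)ˣ → ZMod m × (Fin (rank K) → ZMod m) := fun x =>
    (((k x : ℤ) : ZMod m), fun i => (((ze x).2 i : ℤ) : ZMod m))
  have hcard : Fintype.card (ZMod m × (Fin (rank K) → ZMod m)) ≤
      Fintype.card (Fin (m ^ finrank ℚ K)) := by
    rw [Fintype.card_prod, Fintype.card_fun, ZMod.card, Fintype.card_fin, Fintype.card_fin,
      ← pow_succ']
    exact Nat.pow_le_pow_right hm (rank_succ_le K)
  obtain ⟨emb⟩ := Function.Embedding.nonempty_of_card_le hcard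
  refine ⟨fun u => emb (lab u), fun u v huv => ?_⟩
  have hlab : lab u = lab v := emb.injective huv
  have h1 : ((k u : ℤ) : ZMod m) = ((k v : ℤ) : ZMod m) := congrArg Prod.fst hlab
  have h2 : ∀ i, (((ze u).2 i : ℤ) : ZMod m) = (((ze v).2 i : ℤ) : ZMod m) := fun i =>
    congrFun (congrArg Prod.snd hlab) i
  have h1' : (m : ℤ) ∣ k u - k v := by
    rw [← ZMod.intCast_zmod_eq_zero_iff_dvd]
    push_cast
    rw [h1, sub_self]
  have h2' : ∀ i, (m : ℤ) ∣ (ze u).2 i - (ze v).2 i := fun i => by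
    rw [← ZMod.intCast_zmod_eq_zero_iff_dvd]
    push_cast
    rw [h2 i, sub_self]
  obtain ⟨a, ha⟩ := h1'
  choose b hb using h2'
  refine ⟨((g ^ a : torsion K) : (𝓞 K)ˣ) * ∏ i, fundSystem K i ^ b i, ?_⟩
  have e1 : ∀ x : (𝓞 K)ˣ, x = ((g ^ (k x) : torsion K) : (𝓞 K)ˣ) *
      ∏ i, fundSystem K i ^ ((ze x).2 i) := by
    intro x
    rw [hk x]
    exact hze x
  conv_lhs => rw [e1 u]
  conv_rhs => rw [e1 v]
  have ha' : k u = k v + a * m := by linarith [ha, mul_comm (m : ℤ) a]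
  have hb' : ∀ i, (ze u).2 i = (ze v).2 i + b i * m := fun i => by
    linarith [hb i, mul_comm (m : ℤ) (b i)]
  rw [ha']
  simp_rw [hb']
  rw [zpow_add, zpow_mul, mul_pow, ← Finset.prod_pow]
  simp_rw [zpow_add, zpow_mul, zpow_natCast]
  rw [Finset.prod_mul_distrib]
  push_cast
  rw [mul_mul_mul_comm]

end Pool.Agent.FCS.UnitsMod
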