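import Pool.Agent.Work.MP_2738db_S.Factor
import Pool.Agent.Work.MP_2738db_S.UnitsMod
import Pool.Agent.Work.MP_2738db_S.Pigeon

/-!
# Classes modulo `m`-th powers of the elements which are `m`-th powers away from `n`

`classes`: the `x ∈ 𝓞 K` with `Good K n m x` have at most `m^(d log₂ n) * (Y * d^(log₂ Y)) * m^d`
classes modulo `m`-th powers of `K`, where `(d * B)^d ≤ Y`.
-/

set_option autoImplicit false

namespace Pool.Agent.FCS.Class

open Ideal NumberField Module UniqueFactorizationMonoid Factor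

variable (K : Type*) [Field K] [NumberField K]

theorem classes (n m : ℕ) (hn : 1 ≤ n) (hm : 1 ≤ m) (d : ℕ) (hd : finrank ℚ K = d)
    (ω : Fin d → 𝓞 K) (hω : LinearIndependent ℤ ω) (B : ℝ)
    (hB : ∀ (φ : K →+* ℂ) (i), ‖φ (ω i)‖ ≤ B) (Y : ℕ) (hY : (d * B) ^ d ≤ Y) :
    ∃ lab : 𝓞 K → Fin (m ^ (d * Nat.log 2 n) * (Y * d ^ Nat.log 2 Y) * m ^ d),
      ∀ x y : 𝓞 K, Good K n m x → Good K n m y → lab x = lab y →
        ∃ ρ : K, ρ ≠ 0 ∧ (y : K) = ρ ^ m * (x : K) := by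
  classical
  obtain ⟨hSfin, hScard⟩ := primesOf_card K n hn
  set S := (primesOf_card K n hn).1.toFinset with hS
  have hScard' : S.card ≤ d * Nat.log 2 n := by
    rw [hS, ← Set.ncard_eq_toFinset_card _ hSfin]
    rw [hd] at hScard
    exact hScard
  obtain ⟨hRfin, hRcard⟩ := IdealCount.ideal_count_le K Y
  rw [hd] at hRcard
  obtain ⟨cls, hcls⟩ := UnitsMod.unitsMod K m hm
  -- the ideals `A` and the elements `α`
  have hA : ∀ x : 𝓞 K, ∃ A : Ideal (𝓞 K), A ≠ ⊥ ∧ (Good K n m x → span {x} =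
      (∏ P ∈ S, P ^ expo K m x P) * A ^ m) := by
    intro x
    by_cases h : Good K n m x
    · obtain ⟨A, h1, h2⟩ := factor K n m hn x h
      exact ⟨A, h1, fun _ => h2⟩
    · exact ⟨⊤, top_ne_bot, fun h' => absurd h' h⟩
  choose A hA1 hA2 using hA
  have hα : ∀ x : 𝓞 K, ∃ α : 𝓞 K, α ≠ 0 ∧ ∃ R : Ideal (𝓞 K), span {α} = R * A x ∧
      (absNorm R : ℝ) ≤ (d * B) ^ d := fun x => Pigeon.pigeon K d hd ω hω B hB (A x) (hA1 x)
  choose α hα0 R hR1 hR2 using hα
  have hRmem : ∀ x, R x ∈ {I : Ideal (𝓞 K) | I ≠ ⊥ ∧ absNorm I ≤ Y} := by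
    intro x
    refine ⟨?_, ?_⟩
    · intro h0
      have h1 := hR1 x
      rw [h0, Ideal.bot_mul, span_singleton_eq_bot] at h1
      exact hα0 x h1
    · exact_mod_cast (hR2 x).trans hY
  haveI : Fintype {I : Ideal (𝓞 K) // I ∈ {I : Ideal (𝓞 K) | I ≠ ⊥ ∧ absNorm I ≤ Y}} :=
    hRfin.fintype
  haveI : NeZero m := ⟨by omega⟩
  let L12 := (S → Fin m) × {I : Ideal (𝓞 K) // I ∈ {I : Ideal (𝓞 K) | I ≠ ⊥ ∧ absNorm I ≤ Y}}
  let lab12 : 𝓞 K → L12 := fun x =>
    (fun P => ⟨expo K m x P.1, Nat.mod_lt _ (by omega)⟩, ⟨R x, hRmem x⟩)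
  have href : ∀ l : L12, ∃ x₀ : 𝓞 K, (∃ x, Good K n m x ∧ lab12 x = l) →
      Good K n m x₀ ∧ lab12 x₀ = l := by
    intro l
    by_cases h : ∃ x, Good K n m x ∧ lab12 x = l
    · obtain ⟨x, hx⟩ := h
      exact ⟨x, fun _ => hx⟩
    · exact ⟨0, fun h' => absurd h' h⟩
  choose ref href using href
  have hunit : ∀ x : 𝓞 K, ∃ u : (𝓞 K)ˣ, Good K n m x →
      x * α (ref (lab12 x)) ^ m = u * ref (lab12 x) * α x ^ m := by
    intro x
    by_cases h : Good K n m x
    · obtain ⟨h0, hl⟩ := href (lab12 x) ⟨x, h, rfl⟩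
      set x₀ := ref (lab12 x) with hx₀
      have hexpo : ∏ P ∈ S, P ^ expo K m x₀ P = ∏ P ∈ S, P ^ expo K m x P := by
        refine Finset.prod_congr rfl fun P hP => ?_
        have := congrFun (congrArg Prod.fst hl) ⟨P, hP⟩
        have h3 : expo K m x₀ P = expo K m x P := congrArg Fin.val this
        rw [h3]
      have hRR : R x₀ = R x := congrArg (fun l : L12 => (l.2 : Ideal (𝓞 K))) hl
      have hspan : span {x * α x₀ ^ m} = (span {x₀ * α x ^ m} : Ideal (𝓞 K)) := by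
        rw [← span_singleton_mul_span_singleton, ← span_singleton_mul_span_singleton,
          ← span_singleton_pow, ← span_singleton_pow, hA2 x h, hA2 x₀ h0, hR1 x, hR1 x₀, hexpo, hRR,
          mul_pow, mul_pow]
        ring
      rw [span_singleton_eq_span_singleton] at hspan
      obtain ⟨u, hu⟩ := hspan.symm
      refine ⟨u, fun _ => ?_⟩
      rw [← hu]
      ring
    · exact ⟨1, fun h' => absurd h' h⟩
  choose u hu using hunit
  let L := L12 × Fin (m ^ finrank ℚ K)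
  let lab : 𝓞 K → L := fun x => (lab12 x, cls (u x))
  have hcardL : Fintype.card L ≤
      Fintype.card (Fin (m ^ (d * Nat.log 2 n) * (Y * d ^ Nat.log 2 Y) * m ^ d)) := by
    rw [Fintype.card_fin]
    show Fintype.card (L12 × Fin (m ^ finrank ℚ K)) ≤ _
    rw [Fintype.card_prod, Fintype.card_fin, hd]
    refine Nat.mul_le_mul_right _ ?_
    show Fintype.card ((S → Fin m) ×
      {I : Ideal (𝓞 K) // I ∈ {I : Ideal (𝓞 K) | I ≠ ⊥ ∧ absNorm I ≤ Y}}) ≤ _
    rw [Fintype.card_prod, Fintype.card_fun, Fintype.card_fin, Fintype.card_coe]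
    refine Nat.mul_le_mul (Nat.pow_le_pow_right hm hScard') ?_
    rw [← Nat.card_eq_fintype_card]
    exact hRcard
  obtain ⟨emb⟩ := Function.Embedding.nonempty_of_card_le hcardL
  refine ⟨fun x => emb (lab x), fun x y hx hy hxy => ?_⟩
  have hlab : lab x = lab y := emb.injective hxy
  have h12 : lab12 x = lab12 y := congrArg Prod.fst hlab
  have hc : cls (u x) = cls (u y) := congrArg Prod.snd hlab
  obtain ⟨w, hw⟩ := hcls _ _ hc.symm
  have e1 := hu x hx
  have e2 := hu y hy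
  rw [← h12] at e2
  set x₀ := ref (lab12 x) with hx₀
  have hmain : y * α x ^ m = ((w : 𝓞 K) * α y) ^ m * x := by
    have hne : α x₀ ^ m ≠ 0 := pow_ne_zero _ (hα0 x₀)
    apply mul_right_cancel₀ hne
    have hw' : ((u y : (𝓞 K)ˣ) : 𝓞 K) = (u x : 𝓞 K) * (w : 𝓞 K) ^ m := by
      rw [hw]; push_cast; ring
    calc y * α x ^ m * α x₀ ^ m = (y * α x₀ ^ m) * α x ^ m := by ring
      _ = (u x : 𝓞 K) * (w : 𝓞 K) ^ m * x₀ * α y ^ m * α x ^ m := by rw [e2, hw']
      _ = ((w : 𝓞 K) * α y) ^ m * (u x * x₀ * α x ^ m) := by rw [mul_pow]; ring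
      _ = ((w : 𝓞 K) * α y) ^ m * x * α x₀ ^ m := by rw [← e1]; ring
  have hαK : (α x : K) ≠ 0 := by
    intro h0
    exact hα0 x (RingOfIntegers.ext (by simpa using h0))
  have hαyK : (α y : K) ≠ 0 := by
    intro h0
    exact hα0 y (RingOfIntegers.ext (by simpa using h0))
  have hwK : ((w : 𝓞 K) : K) ≠ 0 := Units.coe_ne_zero w
  refine ⟨(w : 𝓞 K) * (α y : K) / (α x : K), div_ne_zero (mul_ne_zero hwK hαyK) hαK, ?_⟩
  have hmainK : (y : K) * (α x : K) ^ m = (((w : 𝓞 K) : K) * (α y : K)) ^ m * (x : K) := by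
    have := congrArg (algebraMap (𝓞 K) K) hmain
    simpa using this
  rw [div_pow, div_mul_eq_mul_div, eq_div_iff (pow_ne_zero _ hαK)]
  exact hmainK

end Pool.Agent.FCS.Class
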