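import Pool.Agent.Work.MP_2738db_S.Lift
import Pool.Agent.Work.MP_2738db_S.Small

/-!
# From congruences in `𝓞 K` to divisibility of differences of conjugates

`cong`: if `γ ≡ a` modulo `c ^ 2` with `a` prime to `c`, and `γ ^ m ≡ N` modulo `c ^ j` with a
rational integer `N`, then `c ^ j ∣ m (σ γ - τ γ)` in the ring of all algebraic integers.
`rational`: if moreover the conjugates of `γ` are close, then `γ` is a rational integer.
-/

set_option autoImplicit false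

namespace Pool.Agent.FCS.Cong

open NumberField Module

variable (K : Type*) [Field K] [NumberField K]

/-- The embedding of the ring of integers into the ring of all algebraic integers. -/
noncomputable def emb (σ : K →+* ℂ) : 𝓞 K →+* integralClosure ℤ ℂ where
  toFun x := ⟨σ (x : K), (RingOfIntegers.isIntegral_coe x).map (σ.toIntAlgHom)⟩
  map_one' := by ext; simp
  map_mul' x y := by ext; simp
  map_zero' := by ext; simp
  map_add' x y := by ext; simp

theorem cong (c j m : ℕ) (γ : 𝓞 K) (a N : ℤ) (ha : IsCoprime a (c : ℤ))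
    (h1 : (c : 𝓞 K) ^ 2 ∣ γ - (a : 𝓞 K)) (h2 : (c : 𝓞 K) ^ j ∣ γ ^ m - (N : 𝓞 K))
    (σ τ : K →+* ℂ) :
    ∃ κ : ℂ, IsIntegral ℤ κ ∧ (m : ℂ) * (σ (γ : K) - τ (γ : K)) = ((c ^ j : ℕ) : ℂ) * κ := by
  obtain ⟨a', b', hab⟩ := ha
  have hc1 : ∀ ρ : K →+* ℂ, (c : integralClosure ℤ ℂ) ^ 2 ∣ emb K ρ γ - (a : integralClosure ℤ ℂ) := by
    intro ρ
    have := map_dvd (emb K ρ) h1
    simpa using this
  have hc2 : ∀ ρ : K →+* ℂ, (c : integralClosure ℤ ℂ) ^ j ∣
      emb K ρ γ ^ m - (N : integralClosure ℤ ℂ) := by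
    intro ρ
    have := map_dvd (emb K ρ) h2
    simpa using this
  have hd : (c : integralClosure ℤ ℂ) ^ 2 ∣ emb K σ γ - emb K τ γ := by
    have := dvd_sub (hc1 σ) (hc1 τ)
    simpa using this
  have hy : (c : integralClosure ℤ ℂ) ∣ emb K τ γ * (a' : integralClosure ℤ ℂ) - 1 := by
    obtain ⟨t, ht⟩ := hc1 τ
    refine ⟨c * t * a' - b', ?_⟩
    have hab' : (a' : integralClosure ℤ ℂ) * a + b' * c = 1 := by
      exact_mod_cast congrArg (Int.cast : ℤ → integralClosure ℤ ℂ) hab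
    linear_combination (a' : integralClosure ℤ ℂ) * ht + hab'
  have hpow : (c : integralClosure ℤ ℂ) ^ j ∣
      (emb K τ γ + (emb K σ γ - emb K τ γ)) ^ m - emb K τ γ ^ m := by
    have := dvd_sub (hc2 σ) (hc2 τ)
    simpa using this
  obtain ⟨κ, hκ⟩ := Lift.lift c (emb K τ γ) (a' : integralClosure ℤ ℂ)
    (emb K σ γ - emb K τ γ) m j hy hd hpow
  refine ⟨(κ : ℂ), κ.2, ?_⟩
  have := congrArg (Subtype.val) hκ
  push_cast at this ⊢
  exact this

theorem rational (c j m : ℕ) (hm : 1 ≤ m) (γ : 𝓞 K) (a N : ℤ) (ha : IsCoprime a (c : ℤ))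
    (h1 : (c : 𝓞 K) ^ 2 ∣ γ - (a : 𝓞 K)) (h2 : (c : 𝓞 K) ^ j ∣ γ ^ m - (N : 𝓞 K))
    (h3 : ∀ σ τ : K →+* ℂ, (m : ℝ) * finrank ℚ K * ‖σ (γ : K) - τ (γ : K)‖ < (c : ℝ) ^ j) :
    ∃ z : ℤ, γ = (z : 𝓞 K) :=
  Small.small K γ m (c ^ j) hm (cong K c j m γ a N ha h1 h2) fun σ τ => by
    have := h3 σ τ
    push_cast
    exact this

end Pool.Agent.FCS.Cong
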