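import Mathlib

/-!
# MP_2738db_nt (Fermat-Catalan), THEOREM S and THEOREM T (class repulsion): definitions and the
statements of the blocks

Every block `X` is a proposition `S_X` defined here; `Interface.lean` lists for every block the
header of the theorem to be proved, with a complete proof in words.
-/

set_option autoImplicit false

namespace Pool.FCS

open NumberField

/-! ## the field -/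

/-- The number field `K = ℚ(θ)`, `θ ^ n = - s c ^ r`, `θ` not rational. -/
structure Fld (K : Type) [Field K] [NumberField K] (c n r : ℕ) (s : ℤ) (θ : 𝓞 K) : Prop where
  hc : 2 ≤ c
  hn : 2 ≤ n
  hr : r < n
  hs : s = 1 ∨ s = -1
  root : θ ^ n = -(s : 𝓞 K) * (c : 𝓞 K) ^ r
  irr : ∀ z : ℚ, (θ : K) ≠ (z : K)
  gen : IntermediateField.adjoin ℚ {(θ : K)} = ⊤
  deg : Module.finrank ℚ K ≤ n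

/-- A solution `(a, b)` of `t a ^ m = b ^ n + s c ^ k`. -/
structure Sol (n m c k : ℕ) (s t : ℤ) (a b : ℕ) : Prop where
  hs : s = 1 ∨ s = -1
  ht : t = 1 ∨ t = -1
  ha : 1 ≤ a
  hb : 1 ≤ b
  hab : Nat.Coprime a b
  hac : Nat.Coprime a c
  eq : t * (a : ℤ) ^ m = (b : ℤ) ^ n + s * (c : ℤ) ^ k

section
variable {K : Type} [Field K] [NumberField K]

/-- `x = b - c ^ q θ` -/
noncomputable def xel (θ : 𝓞 K) (c q b : ℕ) : 𝓞 K := (b : 𝓞 K) - (c : 𝓞 K) ^ q * θ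

/-- the cofactor `y = ∑ b ^ i (c ^ q θ) ^ (n - 1 - i)` -/
noncomputable def yel (θ : 𝓞 K) (c q b n : ℕ) : 𝓞 K :=
  ∑ i ∈ Finset.range n, (b : 𝓞 K) ^ i * ((c : 𝓞 K) ^ q * θ) ^ (n - 1 - i)

end

/-- `x` is admissible: it has a cofactor `y` with `x y = ± a ^ m`, `y ≡ n b ^ (n - 1)` mod `x`. -/
def Adm (K : Type) [Field K] [NumberField K] (n m : ℕ) (x : 𝓞 K) : Prop :=
  ∃ (a b : ℕ) (y : 𝓞 K) (t : ℤ), (t = 1 ∨ t = -1) ∧ 1 ≤ a ∧ Nat.Coprime a b ∧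
    x * y = (t : 𝓞 K) * (a : 𝓞 K) ^ m ∧ x ∣ y - (n : 𝓞 K) * (b : 𝓞 K) ^ (n - 1)

/-- bound for the number of classes of `x` modulo `m`-th powers -/
def Ncls (n m c : ℕ) : ℕ :=
  m ^ Nat.log 2 (n ^ n) * ((n * c) ^ n * n ^ Nat.log 2 ((n * c) ^ n)) * m ^ n

/-- the threshold for `b` -/
def Hb (n m c : ℕ) : ℕ := (96 * c * m * n) ^ (n + 1)

/-- an `m`-th root of `z ≠ 0` (the principal one) -/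
noncomputable def rt (m : ℕ) (z : ℂ) : ℂ := Complex.exp (Complex.log z / m)

/-! ## blocks: ideals -/

def S_PRP : Prop :=
  ∀ (K : Type) [Field K] [NumberField K] (g : ℕ) (P : Finset (Ideal (𝓞 K))), 1 ≤ g →
    (∀ p ∈ P, p.IsPrime ∧ (g : 𝓞 K) ∈ p) →
    ∏ p ∈ P, Ideal.absNorm p ≤ g ^ Module.finrank ℚ K

def S_VAL : Prop :=
  ∀ (K : Type) [Field K] [NumberField K] (n m : ℕ) (x : 𝓞 K), 1 ≤ m → Adm K n m x →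
    x ≠ 0 ∧ ∀ p : Ideal (𝓞 K), p.IsPrime → p ≠ ⊥ → (n : 𝓞 K) ∉ p →
      m ∣ multiplicity p (Ideal.span {x})

def S_DEC : Prop :=
  ∀ (K : Type) [Field K] [NumberField K] (n m : ℕ), 1 ≤ n → 1 ≤ m →
    ∃ B : Finset (Ideal (𝓞 K)), B.card ≤ m ^ Nat.log 2 (n ^ Module.finrank ℚ K) ∧
      ∀ x : 𝓞 K, Adm K n m x → ∃ J ∈ B, ∃ A : Ideal (𝓞 K), A ≠ ⊥ ∧ Ideal.span {x} = J * A ^ m

def S_IDM : Prop :=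
  ∀ (K : Type) [Field K] [NumberField K] (M : ℕ), 1 ≤ M →
    {I : Ideal (𝓞 K) | Ideal.absNorm I = M}.ncard ≤ Module.finrank ℚ K ^ Nat.log 2 M

def S_IDC : Prop :=
  ∀ (K : Type) [Field K] [NumberField K] (Y : ℕ), 1 ≤ Y →
    {I : Ideal (𝓞 K) | I ≠ ⊥ ∧ Ideal.absNorm I ≤ Y}.Finite ∧
    {I : Ideal (𝓞 K) | I ≠ ⊥ ∧ Ideal.absNorm I ≤ Y}.ncard ≤
      Y * Module.finrank ℚ K ^ Nat.log 2 Y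

/-! ## blocks: the field, small elements of ideals, units -/

def S_FLD : Prop :=
  ∀ (c n r : ℕ) (s : ℤ), 2 ≤ c → 2 ≤ n → r < n → (s = 1 ∨ s = -1) →
    (n = 2 → s = -1 → ¬ IsSquare (c ^ r)) →
    ∃ (K : Type) (_ : Field K) (_ : NumberField K) (θ : 𝓞 K), Fld K c n r s θ

def S_OMG : Prop :=
  ∀ (K : Type) [Field K] [NumberField K] (c n r : ℕ) (s : ℤ) (θ : 𝓞 K), Fld K c n r s θ →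
    ∃ ω : Fin (Module.finrank ℚ K) → 𝓞 K, LinearIndependent ℤ ω ∧
      ∀ i (σ : K →+* ℂ), ‖σ (ω i : K)‖ ≤ c

def S_PIG : Prop :=
  ∀ (K : Type) [Field K] [NumberField K] (c : ℕ) (ω : Fin (Module.finrank ℚ K) → 𝓞 K), 1 ≤ c →
    LinearIndependent ℤ ω → (∀ i (σ : K →+* ℂ), ‖σ (ω i : K)‖ ≤ c) →
    ∀ A : Ideal (𝓞 K), A ≠ ⊥ → ∃ α ∈ A, α ≠ 0 ∧
      Ideal.absNorm (Ideal.span {α}) ≤
        (Module.finrank ℚ K * c) ^ Module.finrank ℚ K * Ideal.absNorm A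

def S_UNT : Prop :=
  ∀ (K : Type) [Field K] [NumberField K] (m : ℕ), 1 ≤ m →
    ∃ U : Finset (𝓞 K)ˣ, U.card ≤ m ^ Module.finrank ℚ K ∧
      ∀ u : (𝓞 K)ˣ, ∃ u₀ ∈ U, ∃ v : (𝓞 K)ˣ, u = u₀ * v ^ m

def S_CLS : Prop :=
  ∀ (K : Type) [Field K] [NumberField K] (c n r : ℕ) (s : ℤ) (θ : 𝓞 K) (m : ℕ),
    Fld K c n r s θ → 1 ≤ m →
    ∃ L : Finset (Ideal (𝓞 K) × Ideal (𝓞 K)),
      L.card ≤ m ^ Nat.log 2 (n ^ n) * ((n * c) ^ n * n ^ Nat.log 2 ((n * c) ^ n)) ∧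
      ∀ x : 𝓞 K, Adm K n m x → ∃ p ∈ L, p.2 ≠ ⊥ ∧ ∃ α : 𝓞 K, α ≠ 0 ∧
        Ideal.span {x} * p.2 ^ m = p.1 * Ideal.span {α} ^ m

def S_SEL : Prop :=
  ∀ (K : Type) [Field K] [NumberField K] (c n r : ℕ) (s : ℤ) (θ : 𝓞 K) (m : ℕ),
    Fld K c n r s θ → 1 ≤ m →
    ∃ f : 𝓞 K → ℕ, (∀ x, Adm K n m x → f x < Ncls n m c) ∧
      ∀ x y, Adm K n m x → Adm K n m y → f x = f y → ∃ ρ : K, (y : K) = (x : K) * ρ ^ m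

/-! ## blocks: a pair of solutions -/

def S_COF : Prop :=
  ∀ (K : Type) [Field K] [NumberField K] (c n s' : ℕ) (s : ℤ) (θ : 𝓞 K) (m k : ℕ) (t : ℤ)
    (a b : ℕ), s' = k % n → Fld K c n s' s θ → Sol n m c k s t a b →
    xel θ c (k / n) b * yel θ c (k / n) b n = (t : 𝓞 K) * (a : 𝓞 K) ^ m ∧
    xel θ c (k / n) b ∣ yel θ c (k / n) b n - (n : 𝓞 K) * (b : 𝓞 K) ^ (n - 1) ∧
    (c : 𝓞 K) ^ (k / n) ∣ yel θ c (k / n) b n - (b : 𝓞 K) ^ (n - 1) ∧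
    (c : 𝓞 K) ^ (k / n) ∣ xel θ c (k / n) b - (b : 𝓞 K) ∧
    xel θ c (k / n) b ≠ 0 ∧ yel θ c (k / n) b n ≠ 0 ∧
    IsCoprime (xel θ c (k / n) b) (c : 𝓞 K) ∧ IsCoprime (yel θ c (k / n) b n) (c : 𝓞 K) ∧
    Adm K n m (xel θ c (k / n) b)

def S_LTE : Prop :=
  ∀ (R : Type) [CommRing R] [IsDomain R] [CharZero R] (c q m : ℕ) (y d : R), 1 ≤ m → 2 ≤ c →
    IsCoprime y (c : R) →
    (c : R) ^ 2 ∣ d → (c : R) ^ q ∣ (y + d) ^ m - y ^ m → (c : R) ^ q ∣ (m : R) * d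

def S_TRC : Prop :=
  ∀ (K : Type) [Field K] [NumberField K] (γ : 𝓞 K) (m D : ℕ), 1 ≤ m → 1 ≤ D →
    (∀ σ τ : K →+* ℂ, ∃ w : ℂ, IsIntegral ℤ w ∧ (m : ℂ) * (σ (γ : K) - τ (γ : K)) = D * w) →
    (∀ σ τ : K →+* ℂ, (m : ℝ) * Module.finrank ℚ K * ‖σ (γ : K) - τ (γ : K)‖ < D) →
    ∃ z : ℤ, (γ : K) = (z : K)

def S_GAM : Prop :=
  ∀ (K : Type) [Field K] [NumberField K] (a m : ℕ) (t : ℤ) (x y x' : 𝓞 K) (ρ : K), 1 ≤ m →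
    (t = 1 ∨ t = -1) → x ≠ 0 → x * y = (t : 𝓞 K) * (a : 𝓞 K) ^ m → (x' : K) = (x : K) * ρ ^ m →
    ∃ γ : 𝓞 K, (γ : K) = (a : K) * ρ ∧ γ ^ m = (t : 𝓞 K) * y * x'

/-- residues modulo `c ^ 2` of `a₀ ρ` are good labels -/
def S_RES : Prop :=
  ∀ (K : Type) [Field K] [NumberField K] (c n : ℕ) (s : ℤ) (θ : 𝓞 K) (m k : ℕ) (t : ℤ)
    (a₀ b₀ a b a' b' : ℕ) (ρ ρ' : K) (g g' : 𝓞 K), 1 ≤ m → Fld K c n (k % n) s θ →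
    Sol n m c k s t a₀ b₀ → Sol n m c k s t a b → Sol n m c k s t a' b' →
    (xel θ c (k / n) b : K) = (xel θ c (k / n) b₀ : K) * ρ ^ m →
    (xel θ c (k / n) b' : K) = (xel θ c (k / n) b₀ : K) * ρ' ^ m →
    (g : K) = (a₀ : K) * ρ → (g' : K) = (a₀ : K) * ρ' → (c : 𝓞 K) ^ 2 ∣ g - g' →
    ρ ≠ 0 ∧ (xel θ c (k / n) b' : K) = (xel θ c (k / n) b : K) * (ρ' / ρ) ^ m ∧
    ∃ γ : 𝓞 K, (γ : K) = (a : K) * (ρ' / ρ) ∧ (c : 𝓞 K) ^ 2 ∣ γ - (a : 𝓞 K)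

/-- congruence of the conjugates of `γ` -/
def S_PA1 : Prop :=
  ∀ (K : Type) [Field K] [NumberField K] (c n : ℕ) (s : ℤ) (θ : 𝓞 K) (m k : ℕ) (t : ℤ)
    (a b a' b' : ℕ) (ρ : K) (γ : 𝓞 K), 1 ≤ m → Fld K c n (k % n) s θ →
    Sol n m c k s t a b → Sol n m c k s t a' b' →
    (xel θ c (k / n) b' : K) = (xel θ c (k / n) b : K) * ρ ^ m →
    (γ : K) = (a : K) * ρ → (c : 𝓞 K) ^ 2 ∣ γ - (a : 𝓞 K) →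
    ∀ σ τ : K →+* ℂ, ∃ w : ℂ, IsIntegral ℤ w ∧
      (m : ℂ) * (σ (γ : K) - τ (γ : K)) = ((c ^ (k / n) : ℕ) : ℂ) * w

/-- repulsion -/
def S_PA2 : Prop :=
  ∀ (K : Type) [Field K] [NumberField K] (c n : ℕ) (s : ℤ) (θ : 𝓞 K) (m k : ℕ) (t : ℤ)
    (a b a' b' : ℕ) (ρ : K) (γ : 𝓞 K), 1 ≤ m → Fld K c n (k % n) s θ →
    Sol n m c k s t a b → Sol n m c k s t a' b' →
    (xel θ c (k / n) b' : K) = (xel θ c (k / n) b : K) * ρ ^ m →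
    (γ : K) = (a : K) * ρ → (c : 𝓞 K) ^ 2 ∣ γ - (a : 𝓞 K) →
    (∀ σ τ : K →+* ℂ, (m : ℝ) * Module.finrank ℚ K * ‖σ (γ : K) - τ (γ : K)‖ <
      ((c ^ (k / n) : ℕ) : ℝ)) →
    b = b'

/-- size, small `b` -/
def S_SZ1 : Prop :=
  ∀ (K : Type) [Field K] [NumberField K] (c n : ℕ) (s : ℤ) (θ : 𝓞 K) (m k : ℕ) (t : ℤ)
    (a b a' b' : ℕ) (ρ : K) (γ : 𝓞 K), n < m → Fld K c n (k % n) s θ →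
    Sol n m c k s t a b → Sol n m c k s t a' b' →
    (xel θ c (k / n) b' : K) = (xel θ c (k / n) b : K) * ρ ^ m →
    (γ : K) = (a : K) * ρ → Hb n m c ≤ b → b ^ n < 8 ^ n * c ^ k → b' ^ n < 8 ^ n * c ^ k →
    ∀ σ τ : K →+* ℂ, (m : ℝ) * Module.finrank ℚ K * ‖σ (γ : K) - τ (γ : K)‖ <
      ((c ^ (k / n) : ℕ) : ℝ)

/-- size, large `b` -/
def S_SZ2 : Prop :=
  ∀ (K : Type) [Field K] [NumberField K] (c n : ℕ) (s : ℤ) (θ : 𝓞 K) (m k : ℕ) (t : ℤ)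
    (a b a' b' : ℕ) (ρ : K) (γ : 𝓞 K), n < m → Fld K c n (k % n) s θ →
    Sol n m c k s t a b → Sol n m c k s t a' b' →
    (∀ σ : K →+* ℂ, σ ρ = rt m (σ (xel θ c (k / n) b' : K)) / rt m (σ (xel θ c (k / n) b : K))) →
    (γ : K) = (a : K) * ρ → Hb n m c ≤ b → Hb n m c ≤ b' →
    8 ^ n * c ^ k ≤ b ^ n → 8 ^ n * c ^ k ≤ b' ^ n → b ≤ 2 * b' → b' ≤ 2 * b →
    ∀ σ τ : K →+* ℂ, (m : ℝ) * Module.finrank ℚ K * ‖σ (γ : K) - τ (γ : K)‖ <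
      ((c ^ (k / n) : ℕ) : ℝ)

/-- labels by roots of unity -/
def S_ROT : Prop :=
  ∀ (K : Type) [Field K] [NumberField K] (m : ℕ) (x₀ : 𝓞 K), 1 ≤ m → x₀ ≠ 0 →
    ∃ F : K → ℕ, ∀ (x x' : 𝓞 K) (ρ ρ' : K), x ≠ 0 → x' ≠ 0 →
      (x : K) = (x₀ : K) * ρ ^ m → (x' : K) = (x₀ : K) * ρ' ^ m →
      F ρ < m ^ Module.finrank ℚ K ∧
      (F ρ = F ρ' → ∀ σ : K →+* ℂ, σ (ρ' / ρ) = rt m (σ (x' : K)) / rt m (σ (x : K)))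

/-- one class -/
def S_FIB : Prop :=
  ∀ (K : Type) [Field K] [NumberField K] (c n : ℕ) (s : ℤ) (θ : 𝓞 K) (m k : ℕ) (t : ℤ)
    (a₀ b₀ Z : ℕ), n < m → Fld K c n (k % n) s θ → Sol n m c k s t a₀ b₀ →
    {p : ℕ × ℕ | Sol n m c k s t p.1 p.2 ∧ Hb n m c ≤ p.2 ∧ p.2 ≤ Z ∧
      ∃ ρ : K, (xel θ c (k / n) p.2 : K) = (xel θ c (k / n) b₀ : K) * ρ ^ m}.Finite ∧
    {p : ℕ × ℕ | Sol n m c k s t p.1 p.2 ∧ Hb n m c ≤ p.2 ∧ p.2 ≤ Z ∧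
      ∃ ρ : K, (xel θ c (k / n) p.2 : K) = (xel θ c (k / n) b₀ : K) * ρ ^ m}.ncard ≤
      c ^ (2 * n) * m ^ n * (Nat.log 2 Z + 2)

/-- all solutions with given `k`, field case -/
def S_FIX : Prop :=
  ∀ (c n m k : ℕ) (s t : ℤ) (Z : ℕ), 2 ≤ c → 2 ≤ n → n < m → (s = 1 ∨ s = -1) →
    (n = 2 → s = -1 → ¬ IsSquare (c ^ k)) →
    {p : ℕ × ℕ | Sol n m c k s t p.1 p.2 ∧ p.2 ≤ Z}.Finite ∧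
    {p : ℕ × ℕ | Sol n m c k s t p.1 p.2 ∧ p.2 ≤ Z}.ncard ≤
      Hb n m c + Ncls n m c * (c ^ (2 * n) * m ^ n * (Nat.log 2 Z + 2))

/-! ## blocks: the square case `n = 2`, `s = -1`, `c ^ k = y ^ 2` -/

/-- the 2-parts `(e₁, e₂)` -/
def E2 (m e₁ e₂ : ℕ) : Prop :=
  (e₁ = 1 ∧ e₂ = 1) ∨ (e₁ = 2 ∧ e₂ = 2 ^ (m - 1)) ∨ (e₁ = 2 ^ (m - 1) ∧ e₂ = 2)

/-- `(a, b)` is decomposed by `(e₁, e₂, u, v)` -/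
structure Dcp (m c y : ℕ) (t : ℤ) (b e₁ e₂ u v : ℕ) : Prop where
  e2 : E2 m e₁ e₂
  even : Even c → e₁ = 1 ∧ e₂ = 1
  hu : 1 ≤ u
  hv : 1 ≤ v
  uc : Nat.Coprime u c
  vc : Nat.Coprime v c
  minus : (b : ℤ) - y = t * e₁ * (u : ℤ) ^ m
  plus : (b : ℤ) + y = e₂ * (v : ℤ) ^ m

def S_QDC : Prop :=
  ∀ (m c k y : ℕ) (t : ℤ) (a b : ℕ), 3 ≤ m → 2 ≤ c → 1 ≤ k → y ^ 2 = c ^ k →
    Sol 2 m c k (-1) t a b → ∃ e₁ e₂ u v : ℕ, Dcp m c y t b e₁ e₂ u v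

def S_QCG : Prop :=
  ∀ (m c k y : ℕ) (t : ℤ) (b b' e₁ e₂ u v u' v' : ℕ), 3 ≤ m → 2 ≤ c → y ^ 2 = c ^ k →
    (t = 1 ∨ t = -1) → Dcp m c y t b e₁ e₂ u v → Dcp m c y t b' e₁ e₂ u' v' →
    (c : ℤ) ^ 2 ∣ (v : ℤ) * u' - u * v' →
    (c : ℤ) ^ (k / 2) ∣ (m : ℤ) * ((v : ℤ) * u' - u * v')

def S_QSZ : Prop :=
  ∀ (m c k y : ℕ) (t : ℤ) (b b' e₁ e₂ u v u' v' : ℕ), 3 ≤ m → 2 ≤ c → y ^ 2 = c ^ k →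
    (t = 1 ∨ t = -1) → Dcp m c y t b e₁ e₂ u v → Dcp m c y t b' e₁ e₂ u' v' →
    Hb 2 m c ≤ b → Hb 2 m c ≤ b' →
    ((b < 8 * y ∧ b' < 8 * y) ∨ (8 * y ≤ b ∧ 8 * y ≤ b' ∧ b ≤ 2 * b' ∧ b' ≤ 2 * b)) →
    (m : ℤ) * |(v : ℤ) * u' - u * v'| < (c : ℤ) ^ (k / 2)

def S_QEN : Prop :=
  ∀ (m c y : ℕ) (t : ℤ) (b b' e₁ e₂ u v u' v' : ℕ), 1 ≤ y → (t = 1 ∨ t = -1) → 3 ≤ m →
    Dcp m c y t b e₁ e₂ u v → Dcp m c y t b' e₁ e₂ u' v' → (v : ℤ) * u' = u * v' → b = b'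

def S_SQF : Prop :=
  ∀ (c m k y : ℕ) (t : ℤ) (Z : ℕ), 2 ≤ c → 3 ≤ m → 1 ≤ k → y ^ 2 = c ^ k →
    {p : ℕ × ℕ | Sol 2 m c k (-1) t p.1 p.2 ∧ p.2 ≤ Z}.Finite ∧
    {p : ℕ × ℕ | Sol 2 m c k (-1) t p.1 p.2 ∧ p.2 ≤ Z}.ncard ≤
      Hb 2 m c + 3 * c ^ 2 * (Nat.log 2 Z + 2)

/-! ## THEOREM S -/

/-- all solutions with all terms at most `X` -/
def SolSet (n m c : ℕ) (s t : ℤ) (X : ℝ) : Set (ℕ × ℕ × ℕ) :=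
  {p | 1 ≤ p.2.2 ∧ Sol n m c p.2.2 s t p.1 p.2.1 ∧ (p.1 : ℝ) ^ m ≤ X ∧ (p.2.1 : ℝ) ^ n ≤ X ∧
    (c : ℝ) ^ p.2.2 ≤ X}

def S_BND : Prop :=
  ∃ C : ℝ, 0 < C ∧ ∀ (c n m l : ℕ), 2 ≤ c → 2 ≤ n → n < m → 1 ≤ l →
    ((l * (Hb n m c + Ncls n m c * (c ^ (2 * n) * m ^ n * (l + 2)) + 3 * c ^ 2 * (l + 2)) : ℕ) : ℝ)
      ≤ ((m : ℝ) * c) ^ (C * n * Real.log (2 * n)) * (l : ℝ) ^ 3

/-- THEOREM S -/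
def S_THS : Prop :=
  ∃ C : ℝ, 0 < C ∧ ∀ (c n m : ℕ) (s t : ℤ) (X : ℝ), 2 ≤ c → 2 ≤ n → n < m → 3 ≤ X →
    (SolSet n m c s t X).Finite ∧
    ((SolSet n m c s t X).ncard : ℝ) ≤
      ((m : ℝ) * c) ^ (C * n * Real.log (2 * n)) * Real.log X ^ C

/-! ## THEOREM T -/

/-- the six permutations of a triple -/
def perm6 (i : Fin 6) (p : ℕ × ℕ × ℕ) : ℕ × ℕ × ℕ :=
  match i with
  | 0 => (p.1, p.2.1, p.2.2)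
  | 1 => (p.2.1, p.1, p.2.2)
  | 2 => (p.1, p.2.2, p.2.1)
  | 3 => (p.2.2, p.1, p.2.1)
  | 4 => (p.2.1, p.2.2, p.1)
  | 5 => (p.2.2, p.2.1, p.1)

/-- the value triples `≤ X` with a base `≤ X ^ (1 / K)` -/
def VT (X K : ℝ) : Set (ℕ × ℕ × ℕ) :=
  {τ | ∃ a b c m n k : ℕ, 2 ≤ a ∧ 2 ≤ b ∧ 2 ≤ c ∧ Nat.Coprime a b ∧ Nat.Coprime b c ∧
    Nat.Coprime a c ∧ 2 ≤ m ∧ 2 ≤ n ∧ 2 ≤ k ∧ (1 : ℚ) / m + 1 / n + 1 / k < 1 ∧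
    a ^ m + b ^ n = c ^ k ∧ (c : ℝ) ^ k ≤ X ∧
    ((a : ℝ) ≤ X ^ (1 / K) ∨ (b : ℝ) ≤ X ^ (1 / K) ∨ (c : ℝ) ≤ X ^ (1 / K)) ∧
    τ = (a ^ m, b ^ n, c ^ k)}

/-- small `n`: THEOREM S applies -/
def W1 (X K : ℝ) : Set (ℕ × ℕ × ℕ) :=
  {τ | ∃ (i : Fin 6) (a b c m n k : ℕ) (s t : ℤ), 2 ≤ c ∧ (c : ℝ) ≤ X ^ (1 / K) ∧ 2 ≤ n ∧ n < m ∧
    2 ≤ a ∧ (n : ℝ) ≤ 2 * K ^ ((1 : ℝ) / 3) ∧ (a, b, k) ∈ SolSet n m c s t X ∧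
    (s = 1 ∨ s = -1) ∧ (t = 1 ∨ t = -1) ∧ τ = perm6 i (a ^ m, b ^ n, c ^ k)}

/-- both other exponents large: the product theorem applies -/
def W2 (X K : ℝ) : Set (ℕ × ℕ × ℕ) :=
  {τ | ∃ a b c m n k : ℕ, 2 ≤ a ∧ 2 ≤ b ∧ 2 ≤ c ∧ Nat.Coprime a b ∧ Nat.Coprime b c ∧
    Nat.Coprime a c ∧ 2 ≤ m ∧ 2 ≤ n ∧ 2 ≤ k ∧ a ^ m + b ^ n = c ^ k ∧ (c : ℝ) ^ k ≤ X ∧
    (((a : ℝ) ≤ X ^ (1 / K) ∧ K ^ ((1 : ℝ) / 3) ≤ n ∧ K ^ ((1 : ℝ) / 3) ≤ k) ∨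
      ((b : ℝ) ≤ X ^ (1 / K) ∧ K ^ ((1 : ℝ) / 3) ≤ m ∧ K ^ ((1 : ℝ) / 3) ≤ k) ∨
      ((c : ℝ) ≤ X ^ (1 / K) ∧ K ^ ((1 : ℝ) / 3) ≤ m ∧ K ^ ((1 : ℝ) / 3) ≤ n)) ∧
    τ = (a ^ m, b ^ n, c ^ k)}

/-- equal exponents: `a ^ n + b ^ n = c ^ k` with `n` odd, or `a ^ n = b ^ n + c ^ k` -/
def EqE (n c k a b : ℕ) : Prop :=
  1 ≤ a ∧ 1 ≤ b ∧ ((Odd n ∧ a ^ n + b ^ n = c ^ k) ∨ a ^ n = b ^ n + c ^ k)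

def W3 (X K : ℝ) : Set (ℕ × ℕ × ℕ) :=
  {τ | ∃ (i : Fin 6) (a b c n k : ℕ), 2 ≤ c ∧ (c : ℝ) ≤ X ^ (1 / K) ∧ 3 ≤ n ∧ 2 ≤ a ∧
    EqE n c k a b ∧ (a : ℝ) ^ n ≤ X ∧ (c : ℝ) ^ k ≤ X ∧ τ = perm6 i (a ^ n, b ^ n, c ^ k)}

/-- distribution of the value triples to the three cases -/
def S_ROL : Prop := ∀ X K : ℝ, 1 ≤ X → 2 ≤ K → VT X K ⊆ W1 X K ∪ W2 X K ∪ W3 X K

def S_W1C : Prop :=
  ∃ C : ℝ, 0 < C ∧ ∀ X K : ℝ, C ≤ X → 2 ≤ K → C * K * Real.log (Real.log X) ≤ Real.log X →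
    (W1 X K).Finite ∧ ((W1 X K).ncard : ℝ) ≤
      Real.exp (C * Real.log (2 * K) / K ^ ((2 : ℝ) / 3) * Real.log X)

/-- the product theorem (hand-in ProductTheorem) -/
def S_PT : Prop :=
    ∀ ε : ℝ, 0 < ε → ∃ (δ : ℝ) (N₀ : ℕ), 0 < δ ∧ ∀ N : ℕ, N₀ ≤ N →
      {τ : ℕ × ℕ × ℕ | ∃ a b c m n k : ℕ, 0 < a ∧ 0 < b ∧ 0 < c ∧
        (a : ℝ) ≤ Real.exp ((N : ℝ) ^ δ) ∧ (b : ℝ) ≤ Real.exp ((N : ℝ) ^ δ) ∧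
        (c : ℝ) ≤ Real.exp ((N : ℝ) ^ δ) ∧
        Nat.Coprime a b ∧ Nat.Coprime b c ∧ Nat.Coprime a c ∧ 2 ≤ m ∧ 2 ≤ n ∧ 2 ≤ k ∧
        a ^ m + b ^ n = c ^ k ∧
        (max (Real.log a) (Real.log N) * max (Real.log b) (Real.log N) *
            max (Real.log c) (Real.log N) < δ * Real.log N ^ 2 * Real.log ((c : ℝ) ^ k) ∨
          (a ≤ N ∧ b ≤ N ∧ c ≤ N ∧ (1 / δ ≤ m ∨ 1 / δ ≤ n ∨ 1 / δ ≤ k))) ∧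
        τ = (a ^ m, b ^ n, c ^ k)}.Finite ∧
      ({τ : ℕ × ℕ × ℕ | ∃ a b c m n k : ℕ, 0 < a ∧ 0 < b ∧ 0 < c ∧
        (a : ℝ) ≤ Real.exp ((N : ℝ) ^ δ) ∧ (b : ℝ) ≤ Real.exp ((N : ℝ) ^ δ) ∧
        (c : ℝ) ≤ Real.exp ((N : ℝ) ^ δ) ∧
        Nat.Coprime a b ∧ Nat.Coprime b c ∧ Nat.Coprime a c ∧ 2 ≤ m ∧ 2 ≤ n ∧ 2 ≤ k ∧
        a ^ m + b ^ n = c ^ k ∧
        (max (Real.log a) (Real.log N) * max (Real.log b) (Real.log N) *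
            max (Real.log c) (Real.log N) < δ * Real.log N ^ 2 * Real.log ((c : ℝ) ^ k) ∨
          (a ≤ N ∧ b ≤ N ∧ c ≤ N ∧ (1 / δ ≤ m ∨ 1 / δ ≤ n ∨ 1 / δ ≤ k))) ∧
        τ = (a ^ m, b ^ n, c ^ k)}.ncard : ℝ) ≤ (N : ℝ) ^ ε

def S_W2C : Prop :=
  ∃ C : ℝ, 0 < C ∧ ∀ X K : ℝ, C ≤ X → 2 ≤ K → C * K * Real.log (Real.log X) ≤ Real.log X →
    (W2 X K).Finite ∧ ((W2 X K).ncard : ℝ) ≤ Real.exp (C / K ^ ((2 : ℝ) / 3) * Real.log X)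

def S_DVC : Prop := ∀ c k : ℕ, 2 ≤ c → (c ^ k).divisors.card ≤ (k + 1) ^ Nat.log 2 c

def S_EQC : Prop :=
  ∀ c k n : ℕ, 2 ≤ c → 3 ≤ n → {p : ℕ × ℕ | EqE n c k p.1 p.2}.Finite ∧
    {p : ℕ × ℕ | EqE n c k p.1 p.2}.ncard ≤ 3 * (c ^ k).divisors.card

def S_W3C : Prop :=
  ∃ C : ℝ, 0 < C ∧ ∀ X K : ℝ, C ≤ X → 2 ≤ K → C * K * Real.log (Real.log X) ≤ Real.log X →
    (W3 X K).Finite ∧ ((W3 X K).ncard : ℝ) ≤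
      Real.exp (C * Real.log (2 * K) / K * Real.log X)

/-- THEOREM T -/
def S_THT : Prop :=
  ∃ C : ℝ, 0 < C ∧ ∀ X K : ℝ, C ≤ X → 2 ≤ K → C * K * Real.log (Real.log X) ≤ Real.log X →
    (VT X K).Finite ∧ ((VT X K).ncard : ℝ) ≤ X ^ (C * Real.log (2 * K) / K ^ ((2 : ℝ) / 3))

end Pool.FCS
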