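import Pool.Agent.Work.MP_2738db_S.IdealCount

/-!
# Ideals which are `m`-th powers away from `n`

`primesOf_card`: at most `[K : ℚ] * log₂ n` nonzero primes of `𝓞 K` contain `n`.
`Good K n m x`: `x ≠ 0`, and the multiplicity in `(x)` of every prime not containing `n` is
divisible by `m`; then `(x) = B * A ^ m`, `B` a product of powers with exponents `< m` of the primes
containing `n`.
-/

set_option autoImplicit false

namespace Pool.Agent.FCS.Factor

open Ideal NumberField Module UniqueFactorizationMonoid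

variable (K : Type*) [Field K] [NumberField K]

/-- The nonzero primes containing `n`. -/
def primesOf (n : ℕ) : Set (Ideal (𝓞 K)) := {P | P.IsPrime ∧ P ≠ ⊥ ∧ (n : 𝓞 K) ∈ P}

theorem card_primeFactors_le (n : ℕ) (hn : 1 ≤ n) : n.primeFactors.card ≤ Nat.log 2 n := by
  apply Nat.le_log_of_pow_le (by norm_num)
  calc 2 ^ n.primeFactors.card = ∏ _p ∈ n.primeFactors, 2 := by rw [Finset.prod_const]
    _ ≤ ∏ p ∈ n.primeFactors, p :=
        Finset.prod_le_prod' fun p hp => (Nat.prime_of_mem_primeFactors hp).two_le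
    _ ≤ n := Nat.le_of_dvd hn (Nat.prod_primeFactors_dvd n)

theorem primesOf_card (n : ℕ) (hn : 1 ≤ n) :
    (primesOf K n).Finite ∧ (primesOf K n).ncard ≤ finrank ℚ K * Nat.log 2 n := by
  classical
  have hsub : primesOf K n ⊆ ⋃ p ∈ n.primeFactors, IdealCount.overP K p := by
    rintro P ⟨h1, h2, h3⟩
    haveI := h1
    haveI : NeZero P := ⟨h2⟩
    have hp : (absNorm (under ℤ P)).Prime := Nat.absNorm_under_prime P
    have hdvd : absNorm (under ℤ P) ∣ n := by
      have h4 : ((n : ℤ) : 𝓞 K) ∈ P := by simpa using h3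
      rw [Int.cast_mem_ideal_iff] at h4
      exact_mod_cast h4
    simp only [Set.mem_iUnion]
    refine ⟨absNorm (under ℤ P), Nat.mem_primeFactors.mpr ⟨hp, hdvd, by omega⟩,
      h1.isMaximal h2, ?_⟩
    exact (Int.ideal_span_absNorm_eq_self _).symm
  have hfin : (⋃ p ∈ n.primeFactors, IdealCount.overP K p).Finite :=
    Set.Finite.biUnion (Finset.finite_toSet _) fun p hp =>
      (IdealCount.overP_card K p (Nat.prime_of_mem_primeFactors hp)).1
  refine ⟨hfin.subset hsub, (Set.ncard_le_ncard hsub hfin).trans ?_⟩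
  have key : ∀ s : Finset ℕ, (⋃ p ∈ s, IdealCount.overP K p).ncard ≤
      ∑ p ∈ s, (IdealCount.overP K p).ncard := by
    intro s
    induction s using Finset.induction_on with
    | empty => simp
    | insert a s ha ih2 =>
      rw [Finset.set_biUnion_insert, Finset.sum_insert ha]
      exact (Set.ncard_union_le _ _).trans (Nat.add_le_add_left ih2 _)
  calc (⋃ p ∈ n.primeFactors, IdealCount.overP K p).ncard
      ≤ ∑ p ∈ n.primeFactors, (IdealCount.overP K p).ncard := key _
    _ ≤ ∑ _p ∈ n.primeFactors, finrank ℚ K := Finset.sum_le_sum fun p hp =>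
        (IdealCount.overP_card K p (Nat.prime_of_mem_primeFactors hp)).2
    _ = finrank ℚ K * n.primeFactors.card := by
        rw [Finset.sum_const, smul_eq_mul, mul_comm]
    _ ≤ finrank ℚ K * Nat.log 2 n := Nat.mul_le_mul_left _ (card_primeFactors_le n hn)

open scoped Classical in
/-- `x ≠ 0` and every prime not containing `n` has in `(x)` a multiplicity divisible by `m`. -/
def Good (n m : ℕ) (x : 𝓞 K) : Prop :=
  x ≠ 0 ∧ ∀ P : Ideal (𝓞 K), P.IsPrime → P ≠ ⊥ → (n : 𝓞 K) ∉ P →
    m ∣ (normalizedFactors (span {x} : Ideal (𝓞 K))).count P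

theorem good_of_mul (n m : ℕ) (x x' a : 𝓞 K) (hx : x ≠ 0) (hx' : x' ≠ 0)
    (h : span {x} * span {x'} = (span {a} : Ideal (𝓞 K)) ^ m)
    (hP : ∀ P : Ideal (𝓞 K), P.IsPrime → P ≠ ⊥ → x ∈ P → x' ∈ P → (n : 𝓞 K) ∈ P) :
    Good K n m x := by
  classical
  refine ⟨hx, fun P h1 h2 h3 => ?_⟩
  have hsx : (span {x} : Ideal (𝓞 K)) ≠ ⊥ := by rwa [Ne, span_singleton_eq_bot]
  have hsx' : (span {x'} : Ideal (𝓞 K)) ≠ ⊥ := by rwa [Ne, span_singleton_eq_bot]
  have hcount : (normalizedFactors (span {x} : Ideal (𝓞 K))).count P +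
      (normalizedFactors (span {x'} : Ideal (𝓞 K))).count P =
      m * (normalizedFactors (span {a} : Ideal (𝓞 K))).count P := by
    have := congrArg (fun I : Ideal (𝓞 K) => (normalizedFactors I).count P) h
    simpa [normalizedFactors_mul hsx hsx', normalizedFactors_pow, Multiset.count_add,
      Multiset.count_nsmul] using this
  by_cases hxP : x ∈ P
  · have hx'P : x' ∉ P := fun h4 => h3 (hP P h1 h2 hxP h4)
    have h0 : (normalizedFactors (span {x'} : Ideal (𝓞 K))).count P = 0 := by
      rw [Multiset.count_eq_zero, Ideal.mem_normalizedFactors_iff hsx']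
      rintro ⟨_, h5⟩
      exact hx'P ((span_singleton_le_iff_mem P).mp h5)
    rw [h0, add_zero] at hcount
    exact ⟨_, hcount⟩
  · have h0 : (normalizedFactors (span {x} : Ideal (𝓞 K))).count P = 0 := by
      rw [Multiset.count_eq_zero, Ideal.mem_normalizedFactors_iff hsx]
      rintro ⟨_, h5⟩
      exact hxP ((span_singleton_le_iff_mem P).mp h5)
    rw [h0]
    exact dvd_zero _

open scoped Classical in
/-- The exponent label. -/
noncomputable def expo (m : ℕ) (x : 𝓞 K) (P : Ideal (𝓞 K)) : ℕ :=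
  (normalizedFactors (span {x} : Ideal (𝓞 K))).count P % m

theorem factor (n m : ℕ) (hn : 1 ≤ n) (x : 𝓞 K) (h : Good K n m x) :
    ∃ A : Ideal (𝓞 K), A ≠ ⊥ ∧ span {x} =
      (∏ P ∈ (primesOf_card K n hn).1.toFinset, P ^ expo K m x P) * A ^ m := by
  classical
  have hsx : (span {x} : Ideal (𝓞 K)) ≠ ⊥ := by rw [Ne, span_singleton_eq_bot]; exact h.1
  set s := normalizedFactors (span {x} : Ideal (𝓞 K)) with hs
  set S := (primesOf_card K n hn).1.toFinset with hS
  have hprime : ∀ P ∈ s, P.IsPrime ∧ P ≠ ⊥ := by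
    intro P hP
    refine ⟨((Ideal.mem_normalizedFactors_iff hsx).mp hP).1, ?_⟩
    rintro rfl
    exact zero_notMem_normalizedFactors _ hP
  set U := s.toFinset ∪ S with hU
  have hUp : ∀ P ∈ U, P.IsPrime ∧ P ≠ ⊥ := by
    intro P hP
    rcases Finset.mem_union.mp hP with h1 | h1
    · exact hprime P (Multiset.mem_toFinset.mp h1)
    · have : P ∈ primesOf K n := by simpa [hS] using h1
      exact ⟨this.1, this.2.1⟩
  refine ⟨∏ P ∈ U, P ^ (s.count P / m), ?_, ?_⟩
  · rw [← Ideal.zero_eq_bot, Finset.prod_ne_zero_iff]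
    intro P hP
    exact pow_ne_zero _ (by rw [Ne, Ideal.zero_eq_bot]; exact (hUp P hP).2)
  · have h1 : (span {x} : Ideal (𝓞 K)) = ∏ P ∈ U, P ^ s.count P := by
      rw [← Ideal.prod_normalizedFactors_eq_self hsx]
      exact Finset.prod_multiset_count_of_subset _ _ Finset.subset_union_left
    have h2 : ∏ P ∈ S, P ^ expo K m x P = ∏ P ∈ U, P ^ (s.count P % m) := by
      refine Finset.prod_subset Finset.subset_union_right fun P hP hPS => ?_
      have hn' : (n : 𝓞 K) ∉ P := fun h3 => hPS (by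
        rw [hS, Set.Finite.mem_toFinset]
        exact ⟨(hUp P hP).1, (hUp P hP).2, h3⟩)
      have := h.2 P (hUp P hP).1 (hUp P hP).2 hn'
      show P ^ (s.count P % m) = 1
      rw [Nat.mod_eq_zero_of_dvd this, pow_zero]
    rw [h2, h1, ← Finset.prod_pow, ← Finset.prod_mul_distrib]
    refine Finset.prod_congr rfl fun P _ => ?_
    rw [← pow_mul, ← pow_add, mul_comm (s.count P / m) m, Nat.mod_add_div]

end Pool.Agent.FCS.Factor
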