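import Pool.Agent.Work.MP_2738db_S.Defs

/-!
# MP_2738db_nt: THEOREM T with exponents
-/

set_option autoImplicit false

namespace Pool.FCS

/-- THEOREM T: value triples with an exponent `≥ K` or a base `≤ X ^ (1 / K)` -/
theorem theoremT_exp (h : S_THT) :
    ∃ C : ℝ, 0 < C ∧ ∀ X K : ℝ, C ≤ X → 2 ≤ K → C * K * Real.log (Real.log X) ≤ Real.log X →
      {τ : ℕ × ℕ × ℕ | ∃ a b c m n k : ℕ, 2 ≤ a ∧ 2 ≤ b ∧ 2 ≤ c ∧ Nat.Coprime a b ∧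
        Nat.Coprime b c ∧ Nat.Coprime a c ∧ 2 ≤ m ∧ 2 ≤ n ∧ 2 ≤ k ∧
        (1 : ℚ) / m + 1 / n + 1 / k < 1 ∧ a ^ m + b ^ n = c ^ k ∧ (c : ℝ) ^ k ≤ X ∧
        ((K ≤ m ∨ K ≤ n ∨ K ≤ k) ∨
          ((a : ℝ) ≤ X ^ (1 / K) ∨ (b : ℝ) ≤ X ^ (1 / K) ∨ (c : ℝ) ≤ X ^ (1 / K))) ∧
        τ = (a ^ m, b ^ n, c ^ k)}.Finite ∧
      ({τ : ℕ × ℕ × ℕ | ∃ a b c m n k : ℕ, 2 ≤ a ∧ 2 ≤ b ∧ 2 ≤ c ∧ Nat.Coprime a b ∧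
        Nat.Coprime b c ∧ Nat.Coprime a c ∧ 2 ≤ m ∧ 2 ≤ n ∧ 2 ≤ k ∧
        (1 : ℚ) / m + 1 / n + 1 / k < 1 ∧ a ^ m + b ^ n = c ^ k ∧ (c : ℝ) ^ k ≤ X ∧
        ((K ≤ m ∨ K ≤ n ∨ K ≤ k) ∨
          ((a : ℝ) ≤ X ^ (1 / K) ∨ (b : ℝ) ≤ X ^ (1 / K) ∨ (c : ℝ) ≤ X ^ (1 / K))) ∧
        τ = (a ^ m, b ^ n, c ^ k)}.ncard : ℝ) ≤
        X ^ (C * Real.log (2 * K) / K ^ ((2 : ℝ) / 3)) := by
  obtain ⟨C, hC, H⟩ := h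
  refine ⟨C, hC, ?_⟩
  intro X K hX hK hKX
  obtain ⟨F, B⟩ := H X K hX hK hKX
  have hX0 : 0 < X := lt_of_lt_of_le hC hX
  have hK0 : (0 : ℝ) < K := by linarith
  have root : ∀ a m : ℕ, 1 ≤ a → (a : ℝ) ^ m ≤ X → K ≤ m → (a : ℝ) ≤ X ^ (1 / K) := by
    intro a m ha hm hKm
    have ha1 : (1 : ℝ) ≤ a := by exact_mod_cast ha
    have h1 : (a : ℝ) ^ K ≤ X := by
      calc (a : ℝ) ^ K ≤ (a : ℝ) ^ (m : ℝ) := Real.rpow_le_rpow_of_exponent_le ha1 hKm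
        _ = (a : ℝ) ^ m := Real.rpow_natCast _ _
        _ ≤ X := hm
    calc (a : ℝ) = ((a : ℝ) ^ K) ^ (1 / K) := by
          rw [← Real.rpow_mul (by linarith), mul_one_div_cancel hK0.ne', Real.rpow_one]
      _ ≤ X ^ (1 / K) := Real.rpow_le_rpow (by positivity) h1 (by positivity)
  have hsub : {τ : ℕ × ℕ × ℕ | ∃ a b c m n k : ℕ, 2 ≤ a ∧ 2 ≤ b ∧ 2 ≤ c ∧ Nat.Coprime a b ∧
        Nat.Coprime b c ∧ Nat.Coprime a c ∧ 2 ≤ m ∧ 2 ≤ n ∧ 2 ≤ k ∧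
        (1 : ℚ) / m + 1 / n + 1 / k < 1 ∧ a ^ m + b ^ n = c ^ k ∧ (c : ℝ) ^ k ≤ X ∧
        ((K ≤ m ∨ K ≤ n ∨ K ≤ k) ∨
          ((a : ℝ) ≤ X ^ (1 / K) ∨ (b : ℝ) ≤ X ^ (1 / K) ∨ (c : ℝ) ≤ X ^ (1 / K))) ∧
        τ = (a ^ m, b ^ n, c ^ k)} ⊆ VT X K := by
    rintro τ ⟨a, b, c, m, n, k, h1, h2, h3, h4, h5, h6, h7, h8, h9, h10, h11, h12, h13, h14⟩
    refine ⟨a, b, c, m, n, k, h1, h2, h3, h4, h5, h6, h7, h8, h9, h10, h11, h12, ?_, h14⟩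
    have e : (a : ℝ) ^ m + (b : ℝ) ^ n = (c : ℝ) ^ k := by exact_mod_cast h11
    have ea : (a : ℝ) ^ m ≤ X := by
      have : (0 : ℝ) ≤ (b : ℝ) ^ n := by positivity
      linarith
    have eb : (b : ℝ) ^ n ≤ X := by
      have : (0 : ℝ) ≤ (a : ℝ) ^ m := by positivity
      linarith
    rcases h13 with (h | h | h) | h
    · exact Or.inl (root a m (by omega) ea h)
    · exact Or.inr (Or.inl (root b n (by omega) eb h))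
    · exact Or.inr (Or.inr (root c k (by omega) h12 h))
    · exact h
  exact ⟨F.subset hsub, le_trans (by exact_mod_cast Set.ncard_le_ncard hsub F) B⟩

end Pool.FCS
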