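import Pool.Agent.Work.MP_2738db_S.Defs

/-!
# MP_2738db_nt, THEOREM S and THEOREM T: the blocks

For the block `X` write the file `Pool/Agent/Work/MP_2738db_S/B_X.lean`, which imports
`Pool.Agent.Work.MP_2738db_S.Defs` only, and proves in `namespace Pool.FCS` the theorem `p_X` with
exactly the header below (the hypotheses `h1 : S_A` are the statements of other blocks).  All blocks
are independent.  Notation: `d = [K : ℚ]`, `N` = `Ideal.absNorm`, `q = k / n`, `r = k % n`,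
`x = xel`, `y = yel`, `T = c ^ q |σ θ|` (real, the same for all embeddings `σ`, `T ^ n = c ^ k`).
-/

set_option autoImplicit false

namespace Pool.FCS

open NumberField

/-- 40 lines. Each `p ∈ P` contains `g ≠ 0`, so `p ≠ ⊥`, `p` is a prime element of the monoid of ideals
(`Ideal.prime_of_isPrime`) and `p ∣ span {g}` (`Ideal.dvd_iff_le`). Distinct primes:
`Finset.prod_primes_dvd` gives `∏ p ∣ span {g}`. Norms are multiplicative (`map_prod`), divisibility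
gives `∏ N p ∣ N (span {g}) = g ^ d` (`Ideal.absNorm_span_singleton`, `Algebra.norm_natCast` or
similar), so `≤`. -/
theorem p_PRP : S_PRP := sorry

/-- 70 lines. `x y = t a ^ m ≠ 0`, so `x ≠ 0`. Let `p` be a prime, `n ∉ p`. If `p ∤ span {x}` the
multiplicity is 0. Otherwise `x ∈ p`, `t a ^ m ∈ p`, `t` is a unit, so `a ∈ p`; `a, b` coprime gives
`b ∉ p` (else `1 ∈ p`); `y - n b ^ (n-1) ∈ p` and `n, b ∉ p` give `y ∉ p`. `span {x} * span {y} =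
span {a} ^ m`; multiplicity of the prime `p` is additive: `mult x + 0 = m * mult (span {a})`
(`multiplicity_mul`, `multiplicity_pow`, or `emultiplicity_...` with finiteness). -/
theorem p_VAL : S_VAL := sorry

/-- 150 lines. Let `P` be the finite set of the prime ideals containing `n ≥ 1`
(finite: they divide `span {n} ≠ ⊥`; `Ideal.finite_factors` or `UniqueFactorizationMonoid`).
`N p ≥ 2`, so `2 ^ card P ≤ ∏ N p ≤ n ^ d` (h1) and `card P ≤ Nat.log 2 (n ^ d)`.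
`B` = image of `e ↦ ∏ p ∈ P, p ^ e p`, `e : P → {0, .., m-1}` (`Finset.pi` or `Fintype.piFinset`,
`card ≤ m ^ card P`). For admissible `x`: `span {x} ≠ ⊥` is the product of `p ^ v_p` over its prime
divisors, `v_p = m (v_p / m) + v_p % m`, and `v_p % m = 0` for `p ∉ P` by h2. So
`span {x} = (∏ p ∈ P, p ^ (v_p % m)) * A ^ m`, `A = ∏ p ^ (v_p / m) ≠ ⊥`.  (One can prove by
induction on the prime factorisation (`UniqueFactorizationMonoid.induction_on_prime` or on multisets of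
primes) that every ideal `I ≠ ⊥` with `m ∣ multiplicity p I` for all primes `p ∉ P` has this form.) -/
theorem p_DEC (h1 : S_PRP) (h2 : S_VAL) : S_DEC := sorry

/-- 120 lines. (1) For a prime number `l` the number of prime ideals containing `l` is at most `d`:
each has norm `≥ l` (its norm divides `N (span {l}) = l ^ d` and is not 1), so `l ^ # ≤ l ^ d` by
h1. (2) Strong induction on `M`. `M = 1`: only `I = ⊤`. `M ≥ 2`: let `l = minFac M`, `N I = M`. The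
product of the norms of the prime factors of `I` is `M`, so `l ∣ N p` for a prime factor `p` of `I`;
`N p ∣ (a prime number) ^ d`, so `l ∈ p` (`N p` is a power of the prime number in `p`). `I = p J`,
`N J = M / N p`, `1 ≤ N J ≤ M / 2`. Hence the set is contained in the union over the at most `d` primes
`p ∋ l` of the images of `{J | N J = M / N p}` under `J ↦ p J`, and
`ncard ≤ d * d ^ Nat.log 2 (M / 2) = d ^ Nat.log 2 M` (`Nat.log_div_base` or `Nat.log_of_one_lt_of_le`;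
`d ≥ 1`). Finiteness: `Ideal.finite_setOf_absNorm_eq`. -/
theorem p_IDM (h1 : S_PRP) : S_IDM := sorry

/-- 50 lines. The set is the union over `1 ≤ M ≤ Y` of `{I | N I = M}` (`N I = 0` iff `I = ⊥`), each
finite (`Ideal.finite_setOf_absNorm_eq`, or `Ideal.finite_setOf_absNorm_le`) with at most
`d ^ Nat.log 2 M ≤ d ^ Nat.log 2 Y` elements. -/
theorem p_IDC (h1 : S_IDM) : S_IDC := sorry

/-- 150 lines. Let `z : ℂ` with `z ^ n = - s c ^ r`, `z` not rational, `K = ℚ⟮z⟯ ⊆ ℂ`, `θ = z`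
(`IntermediateField.AdjoinSimple.gen`). Existence of `z`: `n ≥ 3`: take any root `w ≠ 0`
(`IsAlgClosed.exists_pow_nat_eq`) and a primitive `n`-th root of unity `ζ` (`Complex.isPrimitiveRoot_exp`);
if `w` is not real take `z = w`, otherwise `z = w ζ`, not real because `ζ` is not real (a real root of
unity has order `≤ 2`). `n = 2`: any root; if it is a rational number `u` then `u ^ 2 = - s c ^ r`, so `s = -1`
and `c ^ r` is the square of a rational number, hence of an integer, against the hypothesis.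
`z` is integral over `ℤ` (root of `X ^ n + s c ^ r`), so `θ ∈ 𝓞 K`, `K` is a number field
(`IntermediateField.adjoin.finiteDimensional`), `[K : ℚ] = deg minpoly ≤ n`
(`IntermediateField.adjoin.finrank`, `minpoly.min`/`minpoly.natDegree_le..`). Of course one may use
`AdjoinRoot` of an irreducible factor instead. -/
theorem p_FLD : S_FLD := sorry

/-- 130 lines. `ω i = θ ^ i / c ^ (r i / n)` (natural division), `i < d`. In `K`:
`(ω i) ^ n = (-s) ^ i c ^ (r i - n (r i / n))` is an integer, so `ω i` is integral (`IsIntegral.of_pow`).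
`‖σ θ‖ ^ n = c ^ r`, so `‖σ (ω i)‖ ^ n = c ^ (r i % n) ≤ c ^ n` and `‖σ (ω i)‖ ≤ c`. The powers `θ ^ i`,
`i < d = deg minpoly ℚ θ` (`gen`: `IntermediateField.adjoin.finrank`, `IntermediateField.finrank_top'`) are linearly
independent over `ℚ` (`linearIndependent_pow`), so are the `ω i` (scaled by units of `ℚ`), and a linear
relation over `ℤ` in `𝓞 K` is one over `ℚ` in `K`. -/
theorem p_OMG : S_OMG := sorry

/-- 150 lines. Pigeonhole. `M = N A ≥ 1`; let `H` be the largest natural number with `H ^ d ≤ M`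
(`d ≥ 1`), so `H ≥ 1`, `(H + 1) ^ d > M = card (𝓞 K ⧸ A)`. Among the `(H + 1) ^ d` sums `∑ h i • ω i`,
`0 ≤ h i ≤ H`, two (for different `h`) are congruent modulo `A`; the difference `α = ∑ g i • ω i`,
`|g i| ≤ H`, is in `A` and `≠ 0` by linear independence. `‖σ α‖ ≤ d H c` for every `σ`, so
`|Norm α| = ∏ σ ‖σ α‖ ≤ (d H c) ^ d ≤ (d c) ^ d M` (`Algebra.norm_eq_prod_embeddings`, number of embeddings `d`;
`Ideal.absNorm_span_singleton`, `RingOfIntegers` norm compatibility `Algebra.coe_norm_int`). -/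
theorem p_PIG : S_PIG := sorry

/-- 120 lines. Dirichlet: `NumberField.Units.exist_unique_eq_mul_prod`: every unit is `ζ * ∏ i, (fundSystem K i) ^ e i`,
`ζ` torsion, `i : Fin (rank K)`. The torsion group is cyclic (finite subgroup of a field) with generator
`g` : `ζ = g ^ e`. Write all exponents as `e = e' + m e''`, `0 ≤ e' < m`. `U` = the set of all
`g ^ e' * ∏ (fundSystem K i) ^ e' i`, at most `m ^ (1 + rank K)` elements, and
`1 + rank K = card (InfinitePlace K) ≤ d` (`NumberField.Units.rank`, `card_eq_nrRealPlaces_add_nrComplexPlaces`,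
`card_add_two_mul_card_eq_rank`). -/
theorem p_UNT : S_UNT := sorry

/-- 100 lines. `d ≤ n`. `L` = `B ×ˢ {R | R ≠ ⊥, N R ≤ (n c) ^ n}` (h1, h2; monotonicity in `d ≤ n`;
`m ≥ 1`, `n ≥ 1`). For admissible `x`: `span {x} = J A ^ m`; by h3, h4 there is `α ∈ A`, `α ≠ 0`,
`N (span {α}) ≤ (d c) ^ d N A`; `A ∣ span {α}`: `span {α} = A * R`, `R ≠ ⊥`, `N R ≤ (d c) ^ d ≤ (n c) ^ n`.
`span {x} * R ^ m = J A ^ m R ^ m = J (span {α}) ^ m`. -/
theorem p_CLS (h1 : S_DEC) (h2 : S_IDC) (h3 : S_OMG) (h4 : S_PIG) : S_CLS := sorry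

/-- 150 lines. Let `L` be as in h1, `U` as in h2. For admissible `x` choose `P x ∈ L`, `α x ≠ 0` with
`span {x} * (P x).2 ^ m = (P x).1 * span {α x} ^ m`. For every `p ∈ L` which is `P x` for some admissible `x` choose one
such `x`, the reference `x_p` (it has `P x_p = p`). For admissible `x` with `P x = p` multiply:
`span {x} span {α x_p} ^ m (p.2) ^ m = span {x_p} span {α x} ^ m (p.2) ^ m`; cancel `(p.2) ^ m ≠ ⊥`:
`x (α x_p) ^ m` and `x_p (α x) ^ m` are associated (`Ideal.span_singleton_eq_span_singleton`), so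
`x (α x_p) ^ m = u x_p (α x) ^ m` for a unit `u = u₀ v ^ m`, `u₀ ∈ U` (choose). `f x` = the number of
`(P x, u₀ x) ∈ L ×ˢ U` in an enumeration (`Finset.equivFin`); `f x < card L * card U ≤ Ncls n m c`
(`d ≤ n`). If `f x = f x'` then `x' = x (v' (α x') / (v (α x))) ^ m` in `K`. -/
theorem p_SEL (h1 : S_CLS) (h2 : S_UNT) : S_SEL := sorry

/-- 110 lines. `k = n q + r` (`Nat.div_add_mod`). `(c ^ q θ) ^ n = c ^ (q n) (- s c ^ r) = - s c ^ k`.
`x y = b ^ n - (c ^ q θ) ^ n = b ^ n + s c ^ k = t a ^ m` (`geom_sum₂_mul`, cast of `Sol.eq` to `𝓞 K`).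
Modulo `x`: `c ^ q θ = b`, so `y = n b ^ (n-1)` (`Finset.dvd_sum`, `sub_dvd_pow_sub_pow`). Modulo `c ^ q`: only the
term `i = n - 1` remains. `x y ≠ 0` because `a ≥ 1` (char 0). `a` and `c` are coprime integers, so
`IsCoprime (a : 𝓞 K) c` (`Nat.isCoprime_iff_coprime`, map), hence `t a ^ m = x y` is coprime to `c` and so are
the factors (`IsCoprime.of_mul_left_left`). `Adm`: the same `a, b, y, t`. -/
theorem p_COF : S_COF := sorry

/-- 130 lines. Write `d = c ^ 2 e`. Lemma A: every `i ≥ 1` is `u v` with `u` coprime to `c` and `v ∣ c ^ (i-1)` (strong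
induction: `i` coprime to `c`: `u = i`; otherwise a prime `l` divides `i` and `c`, `i = l j`, `j = u v'`,
`v' ∣ c ^ (j-1)`, `v = l v' ∣ c ^ j ∣ c ^ (i-1)`). Let `U` be the product of these `u` for `1 ≤ i ≤ m`:
coprime to `c`, and `i ∣ U c ^ (2 i - 3)` for `2 ≤ i ≤ m` (`i - 1 ≤ 2 i - 3`). As
`i * choose m i = m * choose (m-1) (i-1)`: `U * choose m i * c ^ (2 (i-1)) = m * c * w_i` with natural
numbers `w_i`, `2 ≤ i ≤ m`. Binomial theorem: `U ((y + d) ^ m - y ^ m) = ∑_{1 ≤ i ≤ m} U choose m i y ^ (m-i) d ^ i`,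
`d ^ i = d c ^ (2 (i-1)) e ^ (i-1)`: this is `m d (U y ^ (m-1) + c w)`. The bracket is coprime to `c`
(`U`, `y` are), hence to `c ^ q` (`IsCoprime.pow_right`), and `c ^ q` divides `(m d) * bracket`, so `c ^ q ∣ m d`. -/
theorem p_LTE : S_LTE := sorry

/-- 130 lines. `δ = m (d γ - Tr γ) / D ∈ K` (`d = [K : ℚ]`, `Tr = Algebra.trace ℚ K`). For an embedding `σ`:
`σ δ = ∑_τ m (σ γ - τ γ) / D` (`trace_eq_sum_embeddings`; there are `d` embeddings,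
`NumberField.Embeddings.card`), a sum of algebraic integers `w`, so `δ` is integral over `ℤ`
(`isIntegral_algHom_iff` / injectivity of `σ`). `‖σ δ‖ < 1` for every `σ` (sum of `d` terms `< 1 / d`). The norm of `δ` is
an integer of absolute value `∏ ‖σ δ‖ < 1`, so it is 0 and `δ = 0`. Hence `d γ = Tr γ` is rational, `γ` is a rational
number integral over `ℤ`, so an integer (`IsIntegrallyClosed`, `IsInteger`). -/
theorem p_TRC : S_TRC := sorry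

/-- 50 lines. In `K`: `a ^ m = t ^ 2 a ^ m = t x y`, so `x (a ρ) ^ m = a ^ m (x ρ ^ m) = t x y x'`; cancel `x ≠ 0`:
`(a ρ) ^ m = t y x'` is integral, so is `a ρ` (`IsIntegral.of_pow`). -/
theorem p_GAM : S_GAM := sorry

/-- 90 lines. All `x ≠ 0` (h1). `ρ ≠ 0` since `x ≠ 0`, `m ≥ 1`. `x' = x₀ ρ' ^ m = x (ρ' / ρ) ^ m`. h2 (with
`x y = t a ^ m`) gives `γ` with `γ = a ρ' / ρ`. `γ g = a g'` in `K`, so in `𝓞 K`, and
`(γ - a) g = a (g' - g)` is divisible by `c ^ 2`. h2 for `(a₀, x₀, x)`: some `g₁ = a₀ ρ = g`, `g ^ m = t y₀ x`; `y₀`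
and `x` are coprime to `c` (h1), so `g ^ m`, `g` are coprime to `c`, and `c ^ 2 ∣ γ - a`. -/
theorem p_RES (h1 : S_COF) (h2 : S_GAM) : S_RES := sorry

/-- 120 lines. By h2 `γ ^ m = t y x'` (the element given by h2 has the same value `a ρ`, so it is `γ`). By h1 modulo `c ^ q`:
`γ ^ m = t b ^ (n-1) b' + c ^ q w₀`, and `γ = a + c ^ 2 w₁`; `γ` is coprime to `c` (`a` is). Let
`R = integralClosure ℤ ℂ`; every `σ` maps `𝓞 K` into `R` (ring homomorphism). In `R` put `y = τ γ`,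
`d = σ γ - τ γ = c ^ 2 (σ w₁ - τ w₁)`; `(y + d) ^ m - y ^ m = c ^ q (σ w₀ - τ w₀)`; `τ γ` is coprime to `c`. h3:
`c ^ q ∣ m d` in `R`; read it in `ℂ`. -/
theorem p_PA1 (h1 : S_COF) (h2 : S_GAM) (h3 : S_LTE) : S_PA1 := sorry

/-- 60 lines. h1 and h2 with `D = c ^ q`: `γ = z ∈ ℤ`, so `ρ = z / a`, `x' = l x` with the rational number
`l = (z / a) ^ m`: `b' - c ^ q θ = l (b - c ^ q θ)`, `(l - 1) c ^ q θ = l b - b'`. If `l ≠ 1` then `θ` is
rational, against `Fld.irr`; so `l = 1` and `b' = b`. -/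
theorem p_PA2 (h1 : S_PA1) (h2 : S_TRC) : S_PA2 := sorry

/-- 150 lines. `T = c ^ q ‖σ θ‖`, `T ^ n = c ^ (q n) c ^ r = c ^ k`, and `T < c * c ^ q` since `r < n`, `c ≥ 2`
(`T ^ n = c ^ (q n + r) < (c ^ (q+1)) ^ n`). The hypotheses say `b, b' < 8 T`. `γ ^ m = t y x'` (h1, h2),
`‖σ x'‖ ≤ b' + T ≤ 9 T`, `‖σ y‖ ≤ ∑_{i<n} b ^ i T ^ (n-1-i) ≤ (b + T) ^ (n-1) ≤ (9 T) ^ (n-1)`, so
`‖σ γ‖ ^ m ≤ (9 T) ^ n`. Suppose `c ^ q ≤ m d ‖σ γ - τ γ‖` and let `G = max (‖σ γ‖, ‖τ γ‖)`: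
`T < c c ^ q ≤ 2 c m n G`, so `T ^ m < (2 c m n) ^ m (9 T) ^ n`, `T ^ (m-n) < (2 c m n) ^ m 9 ^ n ≤
((2 c m n) ^ (n+1) 9 ^ n) ^ (m-n)` (`m ≤ (n+1)(m-n)`, `n ≤ n (m-n)`), so `T < (2 c m n) ^ (n+1) 9 ^ n`. But
`T > b / 8 ≥ (96 c m n) ^ (n+1) / 8 ≥ (2 c m n) ^ (n+1) 9 ^ n`, because `48 ^ (n+1) / 8 ≥ 9 ^ n`. -/
theorem p_SZ1 (h1 : S_COF) (h2 : S_GAM) : S_SZ1 := sorry

/-- 200 lines. `T` as in SZ1, `T < c * c ^ q`, `T > 0`; the hypotheses say `b, b' ≥ 8 T`. `σ x = b (1 + ε_σ)`,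
`ε_σ = - c ^ q σ θ / b`, `‖ε_σ‖ = T / b ≤ 1 / 8`; `log (σ x) = log b + log (1 + ε_σ)` (`Complex.log_ofReal_mul`),
`‖log (1 + ε)‖ ≤ 3/2 ‖ε‖` (`Complex.norm_log_one_add_half_le_self`). The same for `b'`. So
`σ ρ = exp ((log b' - log b) / m) * exp u_σ`, `u_σ = (log (1 + ε'_σ) - log (1 + ε_σ)) / m`,
`‖u_σ‖ ≤ 3 T / (m β) ≤ 1`, `β = min b b'`. `‖exp u - 1‖ ≤ 2 ‖u‖` (`Complex.norm_exp_sub_one_le`), and
`exp ((log b' - log b) / m) ≤ 2` (`b' ≤ 2 b`, `m ≥ 1`). So `‖σ ρ - τ ρ‖ ≤ 2 * 12 T / (m β)` and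
`m d ‖σ γ - τ γ‖ ≤ 24 n a T / β`. It is enough to show `24 n c a ≤ β` (then `24 n a T / β ≤ T / c < c ^ q`).
Otherwise `β < 24 n c a`, and `a ^ m = |b ^ n + s c ^ k| ≤ 2 b ^ n ≤ 2 (2 β) ^ n` give
`β ^ m < (24 n c) ^ m 2 ^ (n+1) β ^ n`, `β ^ (m-n) < (24 n c) ^ m 2 ^ (n+1) ≤ ((48 n c) ^ (n+1)) ^ (m-n)`
(`m ≤ (n+1)(m-n)`), `β < (48 n c) ^ (n+1) ≤ Hb n m c ≤ β`, a contradiction. -/
theorem p_SZ2 : S_SZ2 := sorry

/-- 120 lines. `(rt m z) ^ m = z` for `z ≠ 0`, `m ≥ 1` (`Complex.exp_nat_mul`, `Complex.exp_log`), `rt m z ≠ 0`. For `ρ ≠ 0` and an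
embedding `σ` put `ζ_σ (ρ) = σ ρ * rt m (σ x₀) / rt m (σ x₀ * (σ ρ) ^ m)`; its `m`-th power is 1. The function
`σ ↦ ζ_σ (ρ)` lies in the finite set of functions from the `d` embeddings to the at most `m` roots of `z ^ m = 1`
(`Polynomial.nthRootsFinset`, `card_nthRoots`), which has at most `m ^ d` elements: `F ρ` = its number in an
enumeration (0 if `ρ = 0`). If `x = x₀ ρ ^ m ≠ 0` then `ρ ≠ 0`, `σ x = σ x₀ (σ ρ) ^ m`. `F ρ = F ρ'` gives
`σ ρ / rt m (σ x) = σ ρ' / rt m (σ x')`. -/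
theorem p_ROT : S_ROT := sorry

/-- 200 lines. `x₀ = xel θ c q b₀ ≠ 0` (h1), `F` from h7. For `p = (a, b)` in the set choose `ρ_p`; `ρ_p ≠ 0`; h2 for
`(a₀, x₀, x_p)` gives `g_p ∈ 𝓞 K` with value `a₀ ρ_p`. Label of `p`: (the class of `g_p` in
`𝓞 K ⧸ span {c ^ 2}`, which has `N (span {c ^ 2}) = c ^ (2 d) ≤ c ^ (2 n)` elements; `F ρ_p < m ^ d ≤ m ^ n`;
the box: 0 if `b ^ n < 8 ^ n c ^ k`, otherwise `1 + Nat.log 2 b < Nat.log 2 Z + 2`). The label is injective: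
let `p, p'` have the same label. h3 gives `ρ = ρ' / ρ_p`, `γ` with `c ^ 2 ∣ γ - a`; in box 0 use h5, otherwise
`b ≤ 2 b'`, `b' ≤ 2 b` (same `Nat.log 2`) and use h6 with h7; then h4 gives `b = b'`, and `a ^ m = a' ^ m`, `a = a'`.
So the set is finite (injection to a finite type) with at most `c ^ (2 n) m ^ n (Nat.log 2 Z + 2)` elements. -/
theorem p_FIB (h1 : S_COF) (h2 : S_GAM) (h3 : S_RES) (h4 : S_PA2) (h5 : S_SZ1) (h6 : S_SZ2)
    (h7 : S_ROT) : S_FIB := sorry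

/-- 130 lines. `r = k % n`. If `n = 2`, `s = -1` then `c ^ (k % 2)` is not a square (`c ^ k = (c ^ (k/2)) ^ 2 c ^ (k % 2)`). h1 gives
`K, θ`, h2 (with `m ≥ 1`) gives `f`. Solutions with `b < Hb`: `b` determines `a` (`a ^ m = a' ^ m`), `1 ≤ b < Hb`: at
most `Hb`. Solutions with `b ≥ Hb`: `x_b` is admissible (h3), `f (x_b) < Ncls`; all solutions in one fibre of
`(a, b) ↦ f (x_b)` have, with one of them as the reference `(a₀, b₀)`, `x_b = x_{b₀} ρ ^ m`, so h4 bounds the fibre;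
`Set.ncard` of a union over `Finset.range (Ncls n m c)`. Finite: `p.2 ≤ Z` and `a` is determined by `b`. -/
theorem p_FIX (h1 : S_FLD) (h2 : S_SEL) (h3 : S_COF) (h4 : S_FIB) : S_FIX := sorry

/-- 150 lines. `t a ^ m = (b - y) (b + y)`, `b + y > 0`, so `b ≠ y` and the sign of `b - y` is `t`. `X₁ = |b - y|`,
`X₂ = b + y`, `X₁ X₂ = a ^ m`. `g = gcd X₁ X₂` divides 2: if a prime `l` divides `g` then `l ∣ a`, `l ∤ b`,
`l ∣ 2 b`, so `l = 2`; and then `b` is odd and `g ∣ 2 b`, `g` a power of 2. Case `g = 1`: `X₁ = u ^ m`,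
`X₂ = v ^ m` (`Nat.eq_pow_of_mul_eq_pow`), `(e₁, e₂) = (1, 1)`. Case `g = 2`: `X₁ = 2 X₁'`, `X₂ = 2 X₂'`, `a = 2 a'`,
`X₁' X₂' = 2 ^ (m-2) a' ^ m` with coprime `X₁', X₂'`: exactly one of them is even and it is divisible by `2 ^ (m-2)`;
divide: the quotients are coprime with product `a' ^ m`, so both are `m`-th powers:
`(X₁, X₂) = (2 u ^ m, 2 ^ (m-1) v ^ m)` or `(2 ^ (m-1) u ^ m, 2 v ^ m)`. If `c` is even, `a` is odd (`Sol.hac`), so
`g = 1`. `u, v` divide `a ^ m`: coprime to `c`. -/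
theorem p_QDC : S_QDC := sorry

/-- 80 lines. `2 y = e₂ v ^ m - t e₁ u ^ m = e₂ v' ^ m - t e₁ u' ^ m`. `c ^ (k/2) ∣ y` because
`(c ^ (k/2)) ^ 2 ∣ c ^ k = y ^ 2` (`Nat.pow_dvd_pow_iff`). Modulo `c ^ (k/2)`: `e₂ v ^ m = t e₁ u ^ m`,
`e₂ v' ^ m = t e₁ u' ^ m`; cross multiply: `c ^ (k/2) ∣ t e₁ e₂ ((v u') ^ m - (u v') ^ m)`. `t e₁ e₂` is coprime to `c`
(`e₁ = e₂ = 1` if `c` is even; otherwise they are powers of 2). h1 over `ℤ` with `y := u v'`, `d := v u' - u v'`. -/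
theorem p_QCG (h1 : S_LTE) : S_QCG := sorry

/-- 180 lines. `y < c * c ^ (k/2)` (`y ^ 2 = c ^ k ≤ c ^ (2 (k/2) + 1)`), `q = k/2`. `A = v u'`, `B = u v'`; all `e ≥ 1`.
Case `b, b' < 8 y`: `u ^ m, v ^ m, u' ^ m, v' ^ m ≤ 9 y`, so `A ^ m, B ^ m ≤ (9 y) ^ 2`; let `G = max A B ≥ |A - B|`. If
`m |A - B| ≥ c ^ q` then `y < c c ^ q ≤ c m G`, `y ^ m < (c m) ^ m 81 y ^ 2`, `y ^ (m-2) < 81 (c m) ^ m ≤ (81 (c m) ^ 3) ^ (m-2)`
(`m ≤ 3 (m-2)`), `y < 81 (c m) ^ 3`; but `y > b / 8 ≥ (192 c m) ^ 3 / 8`. Case `b, b' ≥ 8 y`: `b - y > 0` so `t = 1`. If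
`A = B` clear. Let `A > B` (the other case by symmetry: exchange the two solutions). `β = min b b'`, `b, b' ≤ 2 β`.
`A ^ m / B ^ m = (b + y)(b' - y) / ((b - y)(b' + y)) = 1 + 2 y (b' - b) / ((b - y)(b' + y))`, and Bernoulli
`(A/B) ^ m ≥ 1 + m (A - B) / B`, so `m (A - B) ≤ 2 B y |b' - b| / ((b - y)(b' + y)) ≤ 3 B y / β` (`b - y ≥ 7/8 β`,
`b' + y ≥ β`, `|b' - b| ≤ β`). It is enough that `3 B c ≤ β`. Otherwise, as
`B ^ m = u ^ m v' ^ m ≤ (b - y)(b' + y) ≤ 5 β ^ 2`: `β ^ m < (3 c) ^ m 5 β ^ 2`, `β ^ (m-2) < 5 (3 c) ^ m ≤ (5 (3 c) ^ 3) ^ (m-2)`,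
`β < 135 c ^ 3 < (192 c m) ^ 3 ≤ β`. -/
theorem p_QSZ : S_QSZ := sorry

/-- 30 lines. `(b - y)(b' + y) = t e₁ e₂ (u v') ^ m = t e₁ e₂ (v u') ^ m = (b' - y)(b + y)`, so `2 b y = 2 b' y`. -/
theorem p_QEN : S_QEN := sorry

/-- 170 lines. `y ≥ 1`. Solutions with `b < Hb 2 m c`: at most `Hb 2 m c` (`b` determines `a`). For the others choose `(e₁, e₂, u, v)`
(h1). Label: the type of `(e₁, e₂)` (3 values), `v * u⁻¹` in `ZMod (c ^ 2)` (`u` is a unit; `c ^ 2` values), the box: 0 if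
`b < 8 y`, otherwise `1 + Nat.log 2 b < Nat.log 2 Z + 2`. Equal labels: `v u' = u v'` mod `c ^ 2`; h2 and h3 give
`c ^ (k/2) ∣ m D`, `m |D| < c ^ (k/2)` for `D = v u' - u v'`, so `m D = 0`, `D = 0`, and h4 gives `b = b'`, `a = a'`. -/
theorem p_SQF (h1 : S_QDC) (h2 : S_QCG) (h3 : S_QSZ) (h4 : S_QEN) : S_SQF := sorry

/-- 150 lines. `Q = m c ≥ 6`, `l + 2 ≤ 3 l`, `1 < log (2 n)`. `96 ≤ Q ^ 3`, `n ≤ m ≤ Q`: `Hb ≤ (Q ^ 5) ^ (n+1) ≤ Q ^ (10 n)`.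
`Nat.log 2 (n ^ n) ≤ n log n / log 2` (`Nat.pow_log_le_self`): `m ^ ... ≤ Q ^ (n log n / log 2)`;
`(n c) ^ n ≤ Q ^ n`; `n ^ Nat.log 2 ((n c) ^ n) ≤ exp (log n * n log (n c) / log 2) ≤ Q ^ (n log n / log 2)`;
`m ^ n ≤ Q ^ n`; `c ^ (2 n) m ^ n ≤ Q ^ (3 n)`. The sum is at most `Q ^ (C n log (2 n)) l ^ 3` for a suitable `C` (for example 40). -/
theorem p_BND : S_BND := sorry

/-- 150 lines. If `s` or `t` is not `±1` the set is empty. `Z = ⌊X⌋₊ ≥ 3`, `l = Nat.log 2 Z ≥ 1`. `c ^ k ≤ X` gives `2 ^ k ≤ Z`,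
`1 ≤ k ≤ l`; `b ≤ b ^ n ≤ X` gives `b ≤ Z`. For each `k` the number of `(a, b)` is bounded by h1, or, if `n = 2`,
`s = -1` and `c ^ k = y ^ 2`, by h2 (`m ≥ 3`), in both cases by `Hb + Ncls (c ^ (2n) m ^ n (l + 2)) + 3 c ^ 2 (l + 2)`. Sum
over `k` and use h3 with constant `C₀`; `l ≤ log X / log 2`, `l ^ 3 ≤ 4 (log X) ^ 3`, `4 ≤ (m c) ^ (2 n log (2 n))`, `log X ≥ 1`;
`C = C₀ + 5`. -/
theorem p_THS (h1 : S_FIX) (h2 : S_SQF) (h3 : S_BND) : S_THS := sorry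

/-- 200 lines. `κ = K ^ (1/3) ≥ 1`. `τ = (a ^ m, b ^ n, c ^ k)`, all three terms are `≤ X`.
(I) `c ≤ X ^ (1/K)`. If `κ ≤ m, n`: `W2`. Otherwise `min (m, n) < κ ≤ 2 κ`. `m > n`: `W1` with `i = 0`, `(a, b, c, m, n, k)`,
`s = t = -1` (`- a ^ m = b ^ n - c ^ k`). `m < n`: `W1` with `i = 1`, `(b, a, c, n, m, k)`, `s = t = -1`. `m = n`: then
`2 / n < 1`, `n ≥ 3`; `n` odd: `W3`, `i = 0`, `(a, b, c, n, k)`; `n` even, so `n ≥ 4`: `W1`, `i = 0`,
`(a, b ^ (n/2), c, n, 2, k)`, `s = t = -1` (`- a ^ n = (b ^ (n/2)) ^ 2 - c ^ k`; `2 ≤ 2 κ`).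
(II) `a ≤ X ^ (1/K)`. If `κ ≤ n, k`: `W2`. `k > n`: `W1`, `i = 5`, `(c, b, a, k, n, m)`, `s = t = 1` (`c ^ k = b ^ n + a ^ m`).
`k < n`: `W1`, `i = 3`, `(b, c, a, n, k, m)`, `t = 1`, `s = -1` (`b ^ n = c ^ k - a ^ m`). `k = n ≥ 3`: `W3`, `i = 5`,
`(c, b, a, n, m)` (`c ^ n = b ^ n + a ^ m`).
(III) `b ≤ X ^ (1/K)`. If `κ ≤ m, k`: `W2`. `k > m`: `W1`, `i = 4`, `(c, a, b, k, m, n)`, `s = t = 1`. `k < m`: `W1`, `i = 2`,
`(a, c, b, m, k, n)`, `t = 1`, `s = -1`. `k = m ≥ 3`: `W3`, `i = 4`, `(c, a, b, m, n)`. -/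
theorem p_ROL : S_ROL := sorry

/-- 200 lines. `L = log X`, `κ = K ^ (1/3)`, `C₁` from h1. `2 ^ m ≤ a ^ m ≤ X` gives `m ≤ l`, `l = Nat.log 2 ⌊X⌋₊ ≤ 2 L`. `W1` is
contained in the union over `i : Fin 6`, `s, t ∈ {1, -1}`, `c ≤ ⌊X ^ (1/K)⌋₊`, `n < m ≤ l` with `n ≤ 2 κ` of the images of
`SolSet n m c s t X` under `(a, b, k) ↦ perm6 i (a ^ m, b ^ n, c ^ k)`. So
`ncard ≤ 24 X ^ (1/K) l ^ 2 (l X ^ (1/K)) ^ (C₁ 2 κ log (4 κ)) L ^ C₁`, `log (4 κ) ≤ 2 log (2 K)`. Its logarithm is at most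
`log 24 + L / K + 2 log (2 L) + 4 C₁ κ log (2 K) (log (2 L) + L / K) + C₁ log L`. With `C K log L ≤ L` and `L` large
(`log (2 L) ≤ 2 log L ≤ 2 L / (C K)`, `log 24 ≤ 4 log L`), `κ / K = K ^ (-2/3)`, `1 ≤ log (2 K)`, every term is at most a
constant times `log (2 K) / K ^ (2/3) * L`. -/
theorem p_W1C (h1 : S_THS) : S_W1C := sorry

/-- 250 lines. `L = log X`, `κ = K ^ (1/3)`. h1 with `ε = 1`: `δ, N₀` (we may assume `δ ≤ 1`, or work with any `δ`). `C₁ = 1 + 2 / δ`,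
`N = ⌈exp (C₁ L / K ^ (2/3))⌉₊`: `C₁ L / K ^ (2/3) ≤ log N ≤ C₁ L / K ^ (2/3) + log 2`. As `L / K ^ (2/3) ≥ L / K ≥ C log L`, for large `C`:
`N ≥ N₀`, `L ≤ N ^ δ` (`log L ≤ δ log N`), so all bases are `≤ X ≤ exp (N ^ δ)`. Let `τ ∈ W2`, `v = log (c ^ k) ≤ L`. Case
`v ≤ log N / δ`: `a ^ m, c ^ k ≤ N ^ (1/δ)` determine `τ`: at most `N ^ (2/δ)` such `τ` (positive integers). Case
`v > log N / δ`: the small base `e` has `log e ≤ L / K ≤ log N`, so `max (log e) (log N) = log N`; the two other bases have exponent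
`≥ κ` and powers `≤ c ^ k`, so their `max (log, log N)` is at most `μ = max (v / κ) (log N)`; and `μ ^ 2 < δ log N v`: if
`μ = v / κ`: `v < δ κ ^ 2 log N` because `δ K ^ (2/3) log N ≥ δ C₁ L > L ≥ v`; if `μ = log N`: `log N < δ v`. So `τ` is in the set of
h1 (first alternative), at most `N` elements. Total `≤ N + N ^ (2/δ)`, and `log N ≤ C₁ L / K ^ (2/3) + log 2`,
`L / K ^ (2/3) ≥ 1`. -/
theorem p_W2C (h1 : S_PT) : S_W2C := sorry

/-- 50 lines. Induction over prime factors (`Nat.recOnMul` or strong induction), statement for all `c ≥ 1`: every divisor of `(l c') ^ k`,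
`l` prime, is a product of a divisor of `l ^ k` (`k + 1` of them) and a divisor of `c' ^ k` (`Nat.dvd_mul`), and
`Nat.log 2 (l c') ≥ Nat.log 2 c' + 1`. -/
theorem p_DVC : S_DVC := sorry

/-- 130 lines. Lemma A: `x ↦ (x + h) ^ n - x ^ n` is strictly increasing on `ℕ` for `h ≥ 1`, `n ≥ 2`. (i) `a ^ n = b ^ n + c ^ k`: `h = a - b ≥ 1`
divides `c ^ k`; given `h`, `(b + h) ^ n - b ^ n = c ^ k` determines `b`. So at most `card divisors`. (ii) `n` odd,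
`a ^ n + b ^ n = c ^ k`: `D = a + b` divides `c ^ k` (`Odd.nat_add_dvd_pow_add_pow`). Given `D`, if `(a, D - a)` and `(a', D - a')` with
`a < a'` both are solutions, `h = a' - a`: `(a + h) ^ n - a ^ n = ((D - a') + h) ^ n - (D - a') ^ n`, so `a = D - a'` by Lemma A.
So at most two `a` for each `D`. -/
theorem p_EQC : S_EQC := sorry

/-- 170 lines. `L = log X`. `2 ^ n ≤ a ^ n ≤ X`: `n ≤ l = Nat.log 2 ⌊X⌋₊ ≤ 2 L`; `k log c ≤ L`, `k ≤ l`. `W3` is in the union over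
`i : Fin 6`, `2 ≤ c ≤ ⌊X ^ (1/K)⌋₊`, `n ≤ l`, `k ≤ L / log c` of images of the sets of h2. By h1, h2 each has at most
`3 (k + 1) ^ Nat.log 2 c ≤ 3 exp (x / log 2 * log (1 + L / x))`, `x = log c ≤ L / K`. With `j = L / x ≥ K`:
`x log (1 + L / x) = L log (1 + j) / j ≤ L log (1 + K) / K` (`u ↦ log (1 + u) / u` is decreasing). So
`ncard ≤ 6 X ^ (1/K) (l + 1) ^ 2 3 exp (2 L log (1 + K) / K)`; with `C K log L ≤ L`, `L` large, the logarithm is at most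
`C log (2 K) / K * L`. -/
theorem p_W3C (h1 : S_DVC) (h2 : S_EQC) : S_W3C := sorry

/-- 100 lines. `VT ⊆ W1 ∪ W2 ∪ W3` (h0); `log (2 K) ≥ 1`, `K ^ (2/3) ≤ K`, so with `C' = max` of the three constants each part has at most
`exp (C' E)`, `E = log (2 K) / K ^ (2/3) * log X`, elements, the union at most `3 exp (C' E) ≤ exp ((C' + 2) E)` because
`E ≥ log X / K ≥ C log log X ≥ 1` for large `C` and `X`; `X ^ u = exp (log X * u)`. -/
theorem p_THT (h0 : S_ROL) (h1 : S_W1C) (h2 : S_W2C) (h3 : S_W3C) : S_THT := sorry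

end Pool.FCS
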