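import Pool.Agent.Work.MP_2738db_S.Interface

set_option autoImplicit false

namespace Pool.FCS

/-- the blocks compose -/
theorem skel (hPT : S_PT) : S_THT := by
  have hVAL := p_VAL
  have hDEC := p_DEC p_PRP p_VAL
  have hIDC := p_IDC (p_IDM p_PRP)
  have hCLS := p_CLS hDEC hIDC p_OMG p_PIG
  have hSEL := p_SEL hCLS p_UNT
  have hCOF := p_COF
  have hRES := p_RES p_COF p_GAM
  have hPA1 := p_PA1 p_COF p_GAM p_LTE
  have hPA2 := p_PA2 hPA1 p_TRC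
  have hSZ1 := p_SZ1 p_COF p_GAM
  have hFIB := p_FIB hCOF p_GAM hRES hPA2 hSZ1 p_SZ2 p_ROT
  have hFIX := p_FIX p_FLD hSEL hCOF hFIB
  have hSQF := p_SQF p_QDC (p_QCG p_LTE) p_QSZ p_QEN
  have hTHS := p_THS hFIX hSQF p_BND
  exact p_THT p_ROL (p_W1C hTHS) (p_W2C hPT) (p_W3C p_DVC p_EQC)

end Pool.FCS
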